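import Pool.Agent.L0h42.PP.Stm

/-! Module WC of the project PP. -/

set_option autoImplicit false

namespace Pool.Agent.L0h42.PP
open Finset
open Pool.Agent.L0h42.TB
open Pool.Agent.H373R2.T7

/-- one coordinate -/
lemma wc_one (j z R : ℕ) (hR : 1 ≤ R) :
    ∑ d ∈ RR z R, ∑ e ∈ RR z R, ((Nat.lcm d e).divisors.card : ℝ) ^ (2 * j) * (1 / (Nat.lcm d e : ℝ)) ≤
      (1 + 2 * Real.log R) ^ (2 ^ (2 * j + 2)) := by
  have hR0 : (0 : ℝ) < R := by exact_mod_cast hR
  rw [← sum_product']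
  have hmap : ∀ x ∈ RR z R ×ˢ RR z R, Nat.lcm x.1 x.2 ∈ Icc 1 (R ^ 2) := by
    intro x hx
    rw [mem_product, mem_RR, mem_RR] at hx
    rw [mem_Icc]
    constructor
    · exact Nat.lcm_pos hx.1.1.1 hx.2.1.1
    · calc Nat.lcm x.1 x.2 ≤ x.1 * x.2 := Nat.le_of_dvd (Nat.mul_pos hx.1.1.1 hx.2.1.1) (Nat.lcm_dvd_mul _ _)
        _ ≤ R * R := Nat.mul_le_mul hx.1.1.2 hx.2.1.2
        _ = R ^ 2 := by ring
  rw [← sum_fiberwise_of_maps_to hmap]
  calc ∑ D ∈ Icc 1 (R ^ 2), ∑ x ∈ (RR z R ×ˢ RR z R).filter (fun x => Nat.lcm x.1 x.2 = D),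
          ((Nat.lcm x.1 x.2).divisors.card : ℝ) ^ (2 * j) * (1 / (Nat.lcm x.1 x.2 : ℝ))
      ≤ ∑ D ∈ Icc 1 (R ^ 2), (D.divisors.card : ℝ) ^ (2 * j + 2) / D := by
        apply sum_le_sum
        intro D hD
        rw [mem_Icc] at hD
        have hD0 : D ≠ 0 := by omega
        have e1 : ∑ x ∈ (RR z R ×ˢ RR z R).filter (fun x => Nat.lcm x.1 x.2 = D),
            ((Nat.lcm x.1 x.2).divisors.card : ℝ) ^ (2 * j) * (1 / (Nat.lcm x.1 x.2 : ℝ)) =
            (((RR z R ×ˢ RR z R).filter (fun x => Nat.lcm x.1 x.2 = D)).card : ℝ) *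
              ((D.divisors.card : ℝ) ^ (2 * j) * (1 / (D : ℝ))) := by
          rw [← nsmul_eq_mul, ← sum_const]
          apply sum_congr rfl
          intro x hx
          rw [mem_filter] at hx
          rw [hx.2]
        rw [e1]
        have e2 : (((RR z R ×ˢ RR z R).filter (fun x => Nat.lcm x.1 x.2 = D)).card : ℝ) ≤
            (D.divisors.card : ℝ) ^ 2 := by
          have : ((RR z R ×ˢ RR z R).filter (fun x => Nat.lcm x.1 x.2 = D)).card ≤ (D.divisors ×ˢ D.divisors).card := by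
            apply card_le_card
            intro x hx
            rw [mem_filter] at hx
            rw [mem_product, Nat.mem_divisors, Nat.mem_divisors, ← hx.2]
            have : Nat.lcm x.1 x.2 ≠ 0 := by rw [hx.2]; exact hD0
            exact ⟨⟨Nat.dvd_lcm_left _ _, this⟩, ⟨Nat.dvd_lcm_right _ _, this⟩⟩
          rw [card_product, ← sq] at this
          exact_mod_cast this
        calc _ ≤ (D.divisors.card : ℝ) ^ 2 * ((D.divisors.card : ℝ) ^ (2 * j) * (1 / (D : ℝ))) :=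
              mul_le_mul_of_nonneg_right e2 (by positivity)
          _ = _ := by ring
    _ ≤ (1 + Real.log ((R ^ 2 : ℕ) : ℝ)) ^ (2 ^ (2 * j + 2)) := tau_pow_div _ _
    _ = _ := by
        congr 1
        push_cast
        rw [Real.log_pow]
        norm_num

theorem wc : S_WC := by
  intro κ _ _ j z R hz hR
  classical
  have hlR : 0 ≤ Real.log R := Real.log_natCast_nonneg R
  have hz0 : (0 : ℝ) < z := by exact_mod_cast hz
  set K := Fintype.card κ with hK
  set T : ℝ := (1 + Real.log R) ^ 3 with hT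
  set U : ℝ := (1 + 2 * Real.log R) ^ (2 ^ (2 * j + 2)) with hU
  have hT1 : 1 ≤ T := one_le_pow₀ (by linarith)
  have hU1 : 1 ≤ U := one_le_pow₀ (by linarith)
  have hTU : 1 ≤ T * U := one_le_mul_of_one_le_of_one_le hT1 hU1
  -- Cauchy
  have hcs := Real.sum_mul_le_sqrt_mul_sqrt ((PD κ z R ×ˢ PD κ z R).filter (fun x => Conf x))
    (fun x => √((1 : ℝ) / (∏ l, lc x l : ℕ)))
    (fun x => (∏ l, ((lc x l).divisors.card : ℝ) ^ j) * √((1 : ℝ) / (∏ l, lc x l : ℕ)))
  have e1 : ∀ x : (κ → ℕ) × (κ → ℕ), √((1 : ℝ) / (∏ l, lc x l : ℕ)) * ((∏ l, ((lc x l).divisors.card : ℝ) ^ j) * √((1 : ℝ) / (∏ l, lc x l : ℕ))) =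
      (∏ l, ((lc x l).divisors.card : ℝ) ^ j) * (1 / (∏ l, lc x l : ℕ)) := by
    intro x
    have : √((1 : ℝ) / (∏ l, lc x l : ℕ)) * √((1 : ℝ) / (∏ l, lc x l : ℕ)) = (1 : ℝ) / (∏ l, lc x l : ℕ) :=
      Real.mul_self_sqrt (by positivity)
    calc _ = (∏ l, ((lc x l).divisors.card : ℝ) ^ j) * (√((1 : ℝ) / (∏ l, lc x l : ℕ)) * √((1 : ℝ) / (∏ l, lc x l : ℕ))) := by ring
      _ = _ := by rw [this]
  simp only [e1] at hcs
  refine hcs.trans ?_
  have s1 : ∑ x ∈ (PD κ z R ×ˢ PD κ z R).filter (fun x => Conf x), (√((1 : ℝ) / (∏ l, lc x l : ℕ))) ^ 2 ≤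
      (K : ℝ) ^ 2 * (9 / z) * T ^ K := by
    have h := conf_sum (κ := κ) z R hz hR
    refine le_trans (le_of_eq ?_) h
    apply sum_congr rfl
    intro x _
    rw [Real.sq_sqrt (by positivity)]
  have s2 : ∑ x ∈ (PD κ z R ×ˢ PD κ z R).filter (fun x => Conf x),
      ((∏ l, ((lc x l).divisors.card : ℝ) ^ j) * √((1 : ℝ) / (∏ l, lc x l : ℕ))) ^ 2 ≤ U ^ K := by
    calc _ ≤ ∑ x ∈ PD κ z R ×ˢ PD κ z R,
          ((∏ l, ((lc x l).divisors.card : ℝ) ^ j) * √((1 : ℝ) / (∏ l, lc x l : ℕ))) ^ 2 :=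
          sum_le_sum_of_subset_of_nonneg (filter_subset _ _) fun _ _ _ => sq_nonneg _
      _ = ∏ _l : κ, ∑ d ∈ RR z R, ∑ e ∈ RR z R, ((Nat.lcm d e).divisors.card : ℝ) ^ (2 * j) * (1 / (Nat.lcm d e : ℝ)) := by
          rw [← pi2 z R (fun (_ : κ) d e => ((Nat.lcm d e).divisors.card : ℝ) ^ (2 * j) * (1 / (Nat.lcm d e : ℝ))), sum_product]
          apply sum_congr rfl
          intro d _
          apply sum_congr rfl
          intro e _
          rw [mul_pow, Real.sq_sqrt (by positivity), prod_mul_distrib, ← prod_pow]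
          unfold lc
          push_cast
          congr 1
          · apply prod_congr rfl
            intro l _
            rw [← pow_mul, mul_comm j 2]
          · rw [one_div, ← prod_inv_distrib]
            apply prod_congr rfl
            intro l _
            rw [one_div]
      _ ≤ ∏ _l : κ, U := by
          apply prod_le_prod
          · intro l _
            exact sum_nonneg fun _ _ => sum_nonneg fun _ _ => by positivity
          · intro l _
            exact wc_one j z R hR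
      _ = U ^ K := by rw [prod_const, card_univ]
  calc _ ≤ √((K : ℝ) ^ 2 * (9 / z) * T ^ K) * √(U ^ K) :=
        mul_le_mul (Real.sqrt_le_sqrt s1) (Real.sqrt_le_sqrt s2) (Real.sqrt_nonneg _) (Real.sqrt_nonneg _)
    _ = (K : ℝ) * (3 / √(z : ℝ)) * √((T * U) ^ K) := by
        have e9 : √((K : ℝ) ^ 2 * (9 / z)) = (K : ℝ) * (3 / √(z : ℝ)) := by
          rw [Real.sqrt_mul (by positivity), Real.sqrt_sq (by positivity), Real.sqrt_div (by norm_num)]
          congr 2
          rw [show (9 : ℝ) = 3 ^ 2 by norm_num, Real.sqrt_sq (by norm_num)]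
        rw [Real.sqrt_mul (by positivity), e9, mul_pow, Real.sqrt_mul (by positivity)]
        ring
    _ ≤ (K : ℝ) * (3 / √(z : ℝ)) * (T * U) ^ K := by
        apply mul_le_mul_of_nonneg_left _ (by positivity)
        have h1 : 1 ≤ (T * U) ^ K := one_le_pow₀ hTU
        rw [Real.sqrt_le_left (by positivity)]
        nlinarith

end Pool.Agent.L0h42.PP
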