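import Mathlib
import Pool.Agent.L0h42.EG.E8
import Pool.Agent.L0h42.TB.B13
import Pool.Agent.H373R2.T7.BilLam

/-! Statements of the modules of the project PP (almost all `n`, many primes along polynomials). -/

set_option autoImplicit false

namespace Pool.Agent.L0h42.PP
open Finset
open Pool.Agent.L0h42.TB
open Pool.Agent.H373R2.T7

open Classical in
/-- the conflicts, weighted by divisor functions -/
def S_WC : Prop := ∀ (κ : Type) [Fintype κ] [DecidableEq κ] (j z R : ℕ), 1 ≤ z → 1 ≤ R →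
    ∑ x ∈ (PD κ z R ×ˢ PD κ z R).filter (fun x => Conf x), (∏ l, ((lc x l).divisors.card : ℝ) ^ j) * (1 / (∏ l, lc x l : ℕ)) ≤
      (Fintype.card κ : ℝ) * (3 / √(z : ℝ)) *
        ((1 + Real.log R) ^ 3 * (1 + 2 * Real.log R) ^ (2 ^ (2 * j + 2))) ^ (Fintype.card κ)

/-- the values of a polynomial in a residue class to a squarefree modulus without small prime factors -/
def S_PC : Prop := ∀ (f : Polynomial ℤ), 1 ≤ f.natDegree → ∃ w0 : ℕ, ∀ P : ℕ, Squarefree P → (∀ p, p.Prime → p ∣ P → w0 < p) →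
    ∀ (r : ℤ) (x : ℕ), (((Icc 1 x).filter (fun t : ℕ => (P : ℤ) ∣ f.eval (t : ℤ) - r)).card : ℝ) ≤
      (f.natDegree : ℝ) ^ P.primeFactors.card * (x / P + 1)

/-- the prime part along the values of a polynomial -/
def S_PR : Prop := ∀ (k A B : ℕ), 1 ≤ k → ∀ (f : Polynomial ℤ), 1 ≤ f.natDegree → 0 < f.leadingCoeff → ∀ B1 : ℕ, 1 ≤ B1 →
    ∃ E0 : ℕ, ∀ E : ℕ, ∃ N0 : ℕ, ∀ N : ℕ, N0 ≤ N → ∀ z R Y x : ℕ,
    Real.log N ^ E0 ≤ z → (z : ℝ) ≤ Real.log N ^ E → 1 ≤ R → R ^ 80 ≤ N → 6 * Y ≤ N → z ≤ Y →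
    N ≤ B1 * x ^ f.natDegree → x ^ f.natDegree ≤ B1 * N → ∀ σ : ℤ, (σ = 1 ∨ σ = -1) →
    ∀ h : Fin k → ℕ, Function.Injective h → (∀ l, h l ≤ z) → ∀ K ⊆ Icc 1 x, ∀ I : Finset ℕ, (∀ a ∈ I, 1 ≤ a ∧ a ≤ B1 * N) →
    (∀ a ∈ I, ∀ t ∈ K, (Y : ℤ) < a + σ * f.eval (t : ℤ) ∧ a + σ * f.eval (t : ℤ) ≤ 5 * Y) →
    ∀ (i : Fin k) (Λ : (Fin k → ℕ) → ℝ),
    (∀ d ∈ PD (Fin k) z R, |Λ d| ≤ Real.log N ^ B) → (∀ d, Λ d ≠ 0 → ∏ l, d l ≤ R ∧ d i = 1) →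
    ∑ a ∈ I, |∑ t ∈ K, Df z R h i Λ ((a : ℤ) + σ * f.eval (t : ℤ)).toNat| ≤ N * x / Real.log N ^ A

end Pool.Agent.L0h42.PP
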