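import Mathlib
import Pool.Agent.L0h42.PP.Stm
import Pool.Agent.L0h42.CP.C5

/-! The main terms along a progression over a family, with weights for the conflicts. -/

set_option autoImplicit false
set_option linter.unusedSectionVars false
set_option linter.unusedVariables false

namespace Pool.Agent.L0h42.PP
open Finset
open Pool.Agent.L0h42.TB
open Pool.Agent.L0h42.EG
open Pool.Agent.L0h42.CP
open Pool.Agent.H373R2.T7

section gen
variable {κ : Type} [Fintype κ] [DecidableEq κ]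

/-- the weight of a pair -/
noncomputable def rho (j : ℕ) (x : (κ → ℕ) × (κ → ℕ)) : ℝ := ∏ l, ((lc x l).divisors.card : ℝ) ^ j

lemma one_le_rho (j : ℕ) (x : (κ → ℕ) × (κ → ℕ)) (h : ∀ l, 1 ≤ lc x l) : 1 ≤ rho j x := by
  unfold rho
  have h1 : ∏ _l : κ, (1 : ℝ) ≤ ∏ l, ((lc x l).divisors.card : ℝ) ^ j := by
    apply prod_le_prod
    · intro _ _; norm_num
    · intro l _
      apply one_le_pow₀
      have : 0 < (lc x l).divisors.card := card_pos.2 ⟨1, Nat.one_mem_divisors.2 (by have := h l; omega)⟩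
      exact_mod_cast this
  rwa [prod_const_one] at h1

open Classical in
/-- **the main terms.** -/
theorem main_gen_w (hWC : S_WC) {τ : Type*} (T : Finset τ) (c : τ → κ → ℤ) (j z R y1 y2 N r K Q : ℕ) (hy : y1 ≤ y2) (hyN : y2 ≤ N)
    (hK : Fintype.card κ ≤ K) (hK1 : 1 ≤ K) (hz : 1 ≤ z) (hR : 1 ≤ R)
    (Λ : (κ → ℕ) → ℝ) (W : ℝ) (hW : 0 ≤ W) (hΛ : ∀ d ∈ PD κ z R, |Λ d| ≤ W) (hs : ∀ d, Λ d ≠ 0 → ∏ l, d l ≤ Q)
    (Γ : ℝ) (hΓ : 0 ≤ Γ) (hconf : ∀ x ∈ PD κ z R ×ˢ PD κ z R, Λ x.1 ≠ 0 → Λ x.2 ≠ 0 → Conf x →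
      ∑ t ∈ T, (((Ioc y1 y2).filter (fun a => Hit (c t) (lc x) a)).card : ℝ) ≤ Γ * (rho j x * (1 / (∏ l, lc x l : ℕ)))) :
    ∑ t ∈ T, |∑ a ∈ Ioc y1 y2, Gr z (c t) a * SS z R Λ (c t) a ^ 2 - ((y2 : ℝ) - y1) * VV z (c t) * Qf z R Λ| ≤
      W * W * ((1 + Real.log R) ^ 3 * (1 + 2 * Real.log R) ^ (2 ^ (2 * j + 2))) ^ (Fintype.card κ) *
        (T.card * (2 * (((z : ℝ) + 1) ^ r * (K : ℝ) ^ r * (Q * Q)) + 4 * N * Real.exp (3 * (K * (1 + Real.log z)) - r)) +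
          (Γ + T.card * N) * (K * (3 / √(z : ℝ)))) := by
  obtain ⟨PP, hPP⟩ : ∃ PP, PP = PD κ z R ×ˢ PD κ z R := ⟨_, rfl⟩
  have hyr : (0 : ℝ) ≤ (y2 : ℝ) - y1 := by
    have : (y1 : ℝ) ≤ y2 := by exact_mod_cast hy
    linarith
  have hyN' : (y2 : ℝ) - y1 ≤ N := by
    have : (y2 : ℝ) ≤ N := by exact_mod_cast hyN
    have h0 : (0 : ℝ) ≤ y1 := Nat.cast_nonneg _
    linarith
  have g1 : ∀ t ∈ T, |∑ a ∈ Ioc y1 y2, Gr z (c t) a * SS z R Λ (c t) a ^ 2 - ((y2 : ℝ) - y1) * VV z (c t) * Qf z R Λ| ≤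
      ∑ x ∈ PP, |Λ x.1 * Λ x.2| * |(((Ioc y1 y2).filter (fun a => Hit (c t) (lc x) a ∧ Rgh z (c t) a)).card : ℝ) -
        ((y2 : ℝ) - y1) / (∏ l, lc x l : ℕ) * VV z (c t)| := by
    intro t _
    have e2 : ((y2 : ℝ) - y1) * VV z (c t) * Qf z R Λ = ∑ x ∈ PP, Λ x.1 * Λ x.2 * (((y2 : ℝ) - y1) / (∏ l, lc x l : ℕ) * VV z (c t)) := by
      rw [Qf_lc, ← hPP, mul_sum]
      apply sum_congr rfl
      intro x _
      ring
    rw [expandG, e2, ← hPP, ← sum_sub_distrib]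
    refine (abs_sum_le_sum_abs _ _).trans (le_of_eq ?_)
    apply sum_congr rfl
    intro x _
    rw [← mul_sub, abs_mul]
  refine (sum_le_sum g1).trans ?_
  rw [sum_comm]
  obtain ⟨εr, hεr⟩ : ∃ εr : ℝ, εr = 2 * (((z : ℝ) + 1) ^ r * (K : ℝ) ^ r * (Q * Q)) + 4 * N * Real.exp (3 * (K * (1 + Real.log z)) - r) := ⟨_, rfl⟩
  have hεr0 : 0 ≤ εr := by rw [hεr]; positivity
  have g2 : ∀ x ∈ PP, ∑ t ∈ T, |Λ x.1 * Λ x.2| * |(((Ioc y1 y2).filter (fun a => Hit (c t) (lc x) a ∧ Rgh z (c t) a)).card : ℝ) -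
        ((y2 : ℝ) - y1) / (∏ l, lc x l : ℕ) * VV z (c t)| ≤
      W * W * (T.card * εr) * (1 / (∏ l, lc x l : ℕ)) +
      (if Conf x then W * W * (Γ + T.card * N) * (rho j x * (1 / (∏ l, lc x l : ℕ))) else 0) := by
    intro x hx
    have hx' := hx
    rw [hPP] at hx'
    rw [hPP, mem_product] at hx
    obtain ⟨a1, a2, a3⟩ := lc_rough hx.1 hx.2
    have hρ1 : 1 ≤ rho j x := one_le_rho j x a1
    have hρ0 : 0 ≤ rho j x := by linarith
    have hrhs : 0 ≤ W * W * (T.card * εr) * (1 / (∏ l, lc x l : ℕ)) +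
      (if Conf x then W * W * (Γ + T.card * N) * (rho j x * (1 / (∏ l, lc x l : ℕ))) else 0) := by
      apply add_nonneg
      · positivity
      · split_ifs
        · positivity
        · exact le_rfl
    rw [← mul_sum]
    by_cases hz1 : Λ x.1 = 0
    · rw [hz1, zero_mul, abs_zero, zero_mul]; exact hrhs
    by_cases hz2 : Λ x.2 = 0
    · rw [hz2, mul_zero, abs_zero, zero_mul]; exact hrhs
    have hD1 : 1 ≤ ∏ l, lc x l := Nat.pos_of_ne_zero (prod_ne_zero_iff.2 fun l _ => by have := a1 l; omega)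
    have hD0 : (0 : ℝ) < (∏ l, lc x l : ℕ) := by exact_mod_cast hD1
    have hLL : |Λ x.1 * Λ x.2| ≤ W * W := by
      rw [abs_mul]
      exact mul_le_mul (hΛ _ hx.1) (hΛ _ hx.2) (abs_nonneg _) hW
    have hd : ∏ l, lc x l ≤ Q * Q := (lc_prod_le x).trans (Nat.mul_le_mul (hs _ hz1) (hs _ hz2))
    by_cases hc : Conf x
    · rw [if_pos hc]
      have p1 := hconf x hx' hz1 hz2 hc
      have p2 : ∑ t ∈ T, |(((Ioc y1 y2).filter (fun a => Hit (c t) (lc x) a ∧ Rgh z (c t) a)).card : ℝ) - ((y2 : ℝ) - y1) / (∏ l, lc x l : ℕ) * VV z (c t)| ≤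
          (Γ + T.card * N) * (rho j x * (1 / (∏ l, lc x l : ℕ))) := by
        calc _ ≤ ∑ t ∈ T, ((((Ioc y1 y2).filter (fun a => Hit (c t) (lc x) a)).card : ℝ) + (N : ℝ) / (∏ l, lc x l : ℕ)) := by
              apply sum_le_sum
              intro t _
              have q1 := VV_nonneg z (c t)
              have q2 := VV_le_one z (c t)
              have q3 : (0 : ℝ) ≤ ((y2 : ℝ) - y1) / (∏ l, lc x l : ℕ) := by positivity
              have q4 : ((y2 : ℝ) - y1) / (∏ l, lc x l : ℕ) ≤ (N : ℝ) / (∏ l, lc x l : ℕ) := div_le_div_of_nonneg_right hyN' hD0.le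
              refine (abs_sub _ _).trans ?_
              rw [Nat.abs_cast, abs_of_nonneg (mul_nonneg q3 q1)]
              have q5 := mul_le_mul_of_nonneg_left q2 q3
              have q6 : (((Ioc y1 y2).filter (fun a => Hit (c t) (lc x) a ∧ Rgh z (c t) a)).card : ℝ) ≤
                  (((Ioc y1 y2).filter (fun a => Hit (c t) (lc x) a)).card : ℝ) := by
                exact_mod_cast card_le_card (by
                  intro a ha
                  rw [mem_filter] at ha ⊢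
                  exact ⟨ha.1, ha.2.1⟩)
              linarith
          _ ≤ Γ * (rho j x * (1 / (∏ l, lc x l : ℕ))) + T.card * ((N : ℝ) / (∏ l, lc x l : ℕ)) := by
              rw [sum_add_distrib]
              apply add_le_add p1
              rw [sum_const, nsmul_eq_mul]
          _ ≤ Γ * (rho j x * (1 / (∏ l, lc x l : ℕ))) + T.card * (N * (rho j x * (1 / (∏ l, lc x l : ℕ)))) := by
              apply add_le_add le_rfl
              apply mul_le_mul_of_nonneg_left _ (Nat.cast_nonneg _)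
              rw [div_eq_mul_one_div]
              apply mul_le_mul_of_nonneg_left _ (Nat.cast_nonneg _)
              exact le_mul_of_one_le_left (by positivity) hρ1
          _ = (Γ + T.card * N) * (rho j x * (1 / (∏ l, lc x l : ℕ))) := by ring
      have p3 : 0 ≤ W * W * (T.card * εr) * (1 / (∏ l, lc x l : ℕ)) := by positivity
      calc _ ≤ W * W * ((Γ + T.card * N) * (rho j x * (1 / (∏ l, lc x l : ℕ)))) :=
            mul_le_mul hLL p2 (sum_nonneg fun _ _ => abs_nonneg _) (by positivity)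
        _ = W * W * (Γ + T.card * N) * (rho j x * (1 / (∏ l, lc x l : ℕ))) := by ring
        _ ≤ _ := by linarith
    · rw [if_neg hc, add_zero]
      unfold Conf at hc
      push Not at hc
      have p1 : ∀ t ∈ T, |(((Ioc y1 y2).filter (fun a => Hit (c t) (lc x) a ∧ Rgh z (c t) a)).card : ℝ) - ((y2 : ℝ) - y1) / (∏ l, lc x l : ℕ) * VV z (c t)| ≤
          εr * (1 / (∏ l, lc x l : ℕ)) := by
        intro t _
        refine (int_count (c t) (lc x) z y1 y2 N r K hy hyN hK hK1 a1 a2 hc).trans ?_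
        have q1 : (1 : ℝ) ≤ (Q * Q) * (1 / (∏ l, lc x l : ℕ)) := by
          rw [mul_one_div, one_le_div hD0]
          exact_mod_cast hd
        have q2 : ((z : ℝ) + 1) ^ r * (K : ℝ) ^ r ≤ ((z : ℝ) + 1) ^ r * (K : ℝ) ^ r * ((Q * Q) * (1 / (∏ l, lc x l : ℕ))) :=
          le_mul_of_one_le_right (by positivity) q1
        rw [hεr]
        calc _ ≤ 2 * (((z : ℝ) + 1) ^ r * (K : ℝ) ^ r * ((Q * Q) * (1 / (∏ l, lc x l : ℕ)))) +
              4 * ((N : ℝ) / (∏ l, lc x l : ℕ)) * Real.exp (3 * (K * (1 + Real.log z)) - r) := by linarith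
          _ = _ := by ring
      have p2 : ∑ t ∈ T, |(((Ioc y1 y2).filter (fun a => Hit (c t) (lc x) a ∧ Rgh z (c t) a)).card : ℝ) - ((y2 : ℝ) - y1) / (∏ l, lc x l : ℕ) * VV z (c t)| ≤
          T.card * (εr * (1 / (∏ l, lc x l : ℕ))) := by
        refine (sum_le_sum p1).trans (le_of_eq ?_)
        rw [sum_const, nsmul_eq_mul]
      calc _ ≤ W * W * (T.card * (εr * (1 / (∏ l, lc x l : ℕ)))) :=
            mul_le_mul hLL p2 (sum_nonneg fun _ _ => abs_nonneg _) (by positivity)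
        _ = _ := by ring
  refine (sum_le_sum g2).trans ?_
  rw [sum_add_distrib, ← mul_sum, ← sum_filter, ← mul_sum]
  have s1 := sum_lc_gen (κ := κ) z R
  have s2 := hWC κ j z R hz hR
  have hKr : (Fintype.card κ : ℝ) ≤ K := by exact_mod_cast hK
  have hRr : (1 : ℝ) ≤ R := by exact_mod_cast hR
  have hlR := Real.log_nonneg hRr
  obtain ⟨T1, hT1⟩ : ∃ T1, T1 = ((1 + Real.log R) ^ 3 * (1 + 2 * Real.log R) ^ (2 ^ (2 * j + 2))) ^ (Fintype.card κ) := ⟨_, rfl⟩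
  have hT10 : 0 ≤ T1 := by rw [hT1]; positivity
  have s0 : ((1 + Real.log R) ^ 3) ^ (Fintype.card κ) ≤ T1 := by
    rw [hT1]
    apply pow_le_pow_left₀ (by positivity)
    apply le_mul_of_one_le_right (by positivity)
    exact one_le_pow₀ (by linarith)
  have s3 : ∑ x ∈ PP.filter (fun x => Conf x), rho j x * (1 / (∏ l, lc x l : ℕ)) ≤ (K : ℝ) * (3 / √(z : ℝ)) * T1 := by
    rw [hPP, hT1]
    unfold rho
    refine le_trans (le_of_eq ?_) (s2.trans ?_)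
    · congr!
    · gcongr
  rw [← hPP] at s1
  rw [← hT1]
  calc _ ≤ W * W * (T.card * εr) * T1 +
        W * W * (Γ + T.card * N) * ((K : ℝ) * (3 / √(z : ℝ)) * T1) := by
        apply add_le_add
        · exact mul_le_mul_of_nonneg_left (s1.trans s0) (by positivity)
        · exact mul_le_mul_of_nonneg_left s3 (by positivity)
    _ = _ := by rw [hεr]; ring


variable {w z R Z : ℕ} {u v : ℤ} {g : ℕ}

open Classical in
/-- **the main terms along a progression, over a family.** -/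
theorem main_aff_w (hWC : S_WC) [Nonempty κ] {τ : Type*} (T : Finset τ) (c : τ → κ → ℤ) (j w z R y1 y2 N r K Q g : ℕ) (hy : y1 ≤ y2) (hyN : y2 ≤ N)
    (hwz : w ≤ z) (hg : ∀ t ∈ T, ∀ x, ∀ p ∈ pz w, ¬ (p : ℤ) ∣ (g : ℤ) - c t x)
    (hK : Fintype.card κ ≤ K) (hK1 : 1 ≤ K) (hz : 1 ≤ z) (hR : 1 ≤ R)
    (Λ : (κ → ℕ) → ℝ) (W : ℝ) (hW : 0 ≤ W) (hΛ : ∀ d ∈ PD κ z R, |Λ d| ≤ W) (hs : ∀ d, Λ d ≠ 0 → ∏ l, d l ≤ Q)
    (Γ : ℝ) (hΓ : 0 ≤ Γ) (hconf : ∀ x ∈ PD κ z R ×ˢ PD κ z R, Λ x.1 ≠ 0 → Λ x.2 ≠ 0 → Conf x →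
      ∑ t ∈ T, (((Ioc y1 y2).filter (fun a => Hit (c t) (lc x) (Wp w * a + g))).card : ℝ) ≤ Γ * (rho j x * (1 / (∏ l, lc x l : ℕ)))) :
    ∑ t ∈ T, |∑ a ∈ Ioc y1 y2, Gr z (c t) (Wp w * a + g) * SS z R Λ (c t) (Wp w * a + g) ^ 2 - ((y2 : ℝ) - y1) * Vr w z (c t) * Qf z R Λ| ≤
      (Vz w)⁻¹ * (W * W * ((1 + Real.log R) ^ 3 * (1 + 2 * Real.log R) ^ (2 ^ (2 * j + 2))) ^ (Fintype.card κ) *
        (T.card * (2 * (((z : ℝ) + 1) ^ r * (K : ℝ) ^ r * (Q * Q)) + 4 * N * Real.exp (3 * (K * (1 + Real.log z)) - r)) +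
          (Γ + T.card * N) * (K * (3 / √(z : ℝ))))) := by
  obtain ⟨Z, hZ⟩ : ∃ Z, Z = max z R := ⟨_, rfl⟩
  have hzZ : z ≤ Z := by rw [hZ]; exact le_max_left _ _
  have hRZ : R ≤ Z := by rw [hZ]; exact le_max_right _ _
  obtain ⟨u, v, huv⟩ : ∃ u v : ℤ, (Wp w : ℤ) * u + Qp w Z * v = 1 := by
    obtain ⟨a, b, hab⟩ := Nat.isCoprime_iff_coprime.2 (cop_WQ w Z)
    exact ⟨a, b, by linarith⟩
  have hW0 : (0 : ℝ) < Wp w := by exact_mod_cast Wp_pos w
  have hV0 := Vz_pos w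
  obtain ⟨P, hP⟩ : ∃ P, P = Wp w := ⟨_, rfl⟩
  have key := main_gen_w hWC (T ×ˢ range (Wp w)) (fun t => cs u v (Wp w) (Qp w Z) g t.2 (c t.1)) j z R y1 y2 N r K Q hy hyN hK hK1 hz hR Λ W hW hΛ hs
    (Wp w * Γ) (by positivity) (by
      intro x hx h1 h2 h3
      have h4 := hconf x hx h1 h2 h3
      rw [sum_product]
      have h5 : ∀ t ∈ T, ∑ r ∈ range (Wp w), (((Ioc y1 y2).filter (fun a => Hit (cs u v (Wp w) (Qp w Z) g r (c t)) (lc x) a)).card : ℝ) =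
          Wp w * (((Ioc y1 y2).filter (fun a => Hit (c t) (lc x) (Wp w * a + g))).card : ℝ) := by
        intro t _
        have h6 : ∀ r ∈ range (Wp w), (((Ioc y1 y2).filter (fun a => Hit (cs u v (Wp w) (Qp w Z) g r (c t)) (lc x) a)).card : ℝ) =
            (((Ioc y1 y2).filter (fun a => Hit (c t) (lc x) (Wp w * a + g))).card : ℝ) := by
          intro r _
          congr 2
          apply filter_congr
          intro a _
          exact hitlc_cs huv hwz hRZ r (c t) x hx a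
        rw [sum_congr rfl h6, sum_const, card_range, nsmul_eq_mul]
      rw [sum_congr rfl h5, ← mul_sum, mul_assoc]
      exact mul_le_mul_of_nonneg_left h4 hW0.le)
  rw [card_product, card_range, sum_product] at key
  have low : ∀ t ∈ T, (Wp w * Vz w) * |∑ a ∈ Ioc y1 y2, Gr z (c t) (Wp w * a + g) * SS z R Λ (c t) (Wp w * a + g) ^ 2 -
        ((y2 : ℝ) - y1) * Vr w z (c t) * Qf z R Λ| ≤
      ∑ r ∈ range (Wp w), |∑ a ∈ Ioc y1 y2, Gr z (cs u v (Wp w) (Qp w Z) g r (c t)) a * SS z R Λ (cs u v (Wp w) (Qp w Z) g r (c t)) a ^ 2 -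
        ((y2 : ℝ) - y1) * VV z (cs u v (Wp w) (Qp w Z) g r (c t)) * Qf z R Λ| := by
    intro t ht
    refine le_trans (le_of_eq ?_) (abs_sum_le_sum_abs _ _)
    rw [sum_sub_distrib]
    have e1 : ∑ r ∈ range (Wp w), ∑ a ∈ Ioc y1 y2, Gr z (cs u v (Wp w) (Qp w Z) g r (c t)) a * SS z R Λ (cs u v (Wp w) (Qp w Z) g r (c t)) a ^ 2 =
        (Wp w * Vz w) * ∑ a ∈ Ioc y1 y2, Gr z (c t) (Wp w * a + g) * SS z R Λ (c t) (Wp w * a + g) ^ 2 := by
      rw [sum_comm, mul_sum]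
      apply sum_congr rfl
      intro a _
      have e2 : ∀ r ∈ range (Wp w), Gr z (cs u v (Wp w) (Qp w Z) g r (c t)) a * SS z R Λ (cs u v (Wp w) (Qp w Z) g r (c t)) a ^ 2 =
          Gr z (cs u v (Wp w) (Qp w Z) g r (c t)) a * SS z R Λ (c t) (Wp w * a + g) ^ 2 := by
        intro r _
        rw [SS_cs huv hwz hRZ r (c t) Λ a]
      rw [sum_congr rfl e2, ← sum_mul, Gr_cs huv hwz hzZ (c t) (hg t ht) a]
      ring
    have e3 : ∑ r ∈ range (Wp w), ((y2 : ℝ) - y1) * VV z (cs u v (Wp w) (Qp w Z) g r (c t)) * Qf z R Λ =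
        (Wp w * Vz w) * (((y2 : ℝ) - y1) * Vr w z (c t) * Qf z R Λ) := by
      have e4 : ∀ r ∈ range (Wp w), ((y2 : ℝ) - y1) * VV z (cs u v (Wp w) (Qp w Z) g r (c t)) * Qf z R Λ =
          ((y2 : ℝ) - y1) * (Vz w * Vr w z (c t)) * Qf z R Λ := by
        intro r _
        rw [VV_cs huv hwz hzZ r (c t)]
      rw [sum_congr rfl e4, sum_const, card_range, nsmul_eq_mul]
      ring
    rw [e1, e3, ← mul_sub, abs_mul, abs_of_pos (mul_pos hW0 hV0)]
  have h1 := (sum_le_sum low).trans key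
  rw [← mul_sum] at h1
  rw [← div_eq_inv_mul, le_div_iff₀ hV0]
  have h2 : (Wp w : ℝ) * ((∑ t ∈ T, |∑ a ∈ Ioc y1 y2, Gr z (c t) (Wp w * a + g) * SS z R Λ (c t) (Wp w * a + g) ^ 2 -
        ((y2 : ℝ) - y1) * Vr w z (c t) * Qf z R Λ|) * Vz w) ≤
      Wp w * (W * W * ((1 + Real.log R) ^ 3 * (1 + 2 * Real.log R) ^ (2 ^ (2 * j + 2))) ^ (Fintype.card κ) *
        (T.card * (2 * (((z : ℝ) + 1) ^ r * (K : ℝ) ^ r * (Q * Q)) + 4 * N * Real.exp (3 * (K * (1 + Real.log z)) - r)) +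
          (Γ + T.card * N) * (K * (3 / √(z : ℝ))))) := by
    refine le_trans (le_of_eq ?_) (h1.trans (le_of_eq ?_))
    · ring
    · push_cast
      ring
  exact le_of_mul_le_mul_left h2 hW0


end gen

lemma setup_w (j κc B A : ℕ) (hκ : 1 ≤ κc) : ∃ E0 : ℕ, ∀ E : ℕ, ∃ N0 : ℕ, ∀ N : ℕ, N0 ≤ N → ∀ z R : ℕ,
    Real.log N ^ E0 ≤ z → (z : ℝ) ≤ Real.log N ^ E → 1 ≤ R → R ^ 80 ≤ N → 1 ≤ z ∧ 1 ≤ Real.log N ∧ R * R ≤ N ∧ ∃ r : ℕ,
      (Real.log N ^ B * Real.log N ^ B) * ((1 + Real.log R) ^ 3 * (1 + 2 * Real.log R) ^ (2 ^ (2 * j + 2))) ^ κc *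
        ((2 * (((z : ℝ) + 1) ^ r * (κc : ℝ) ^ r * ((R * R : ℕ) * (R * R : ℕ))) + 4 * N * Real.exp (3 * (κc * (1 + Real.log z)) - r)) +
        9 * N * ((κc : ℝ) * (3 / √(z : ℝ)))) ≤ N / Real.log N ^ A := by
  obtain ⟨U, hU⟩ : ∃ U, U = A + 2 * B + (3 + 2 ^ (2 * j + 2)) * κc + 1 := ⟨_, rfl⟩
  refine ⟨2 * U, fun E => ?_⟩
  obtain ⟨m2, h2⟩ := choice κc E U 40
  obtain ⟨m3, h3⟩ := log_le_t (U + (3 * (κc * (1 + E)) + U + 1) * κc)
  obtain ⟨m4, h4⟩ := ev_L' (27 * κc + 6)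
  refine ⟨max m2 (max m3 (max m4 3)), ?_⟩
  intro N hN z R hz1 hz2 hR1 hR
  have n2 : m2 ≤ N := le_trans (le_max_left _ _) hN
  have nn := le_trans (le_max_right m2 _) hN
  have n3 : m3 ≤ N := le_trans (le_max_left _ _) nn
  have n4 : m4 ≤ N := le_trans (le_trans (le_max_left _ _) (le_max_right _ _)) nn
  have hN3 : 3 ≤ N := le_trans (le_trans (le_max_right _ _) (le_max_right _ _)) nn
  have hN1 : 1 ≤ N := by omega
  have hN0 : (0 : ℝ) < N := by exact_mod_cast hN1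
  obtain ⟨t, ht0, ht40, hsq⟩ := exists_t N hN1
  have hLm := h3 N n3 t ht0 ht40 hsq
  have hL8 := h4 N n4
  obtain ⟨r, hr1, hr2, hr3⟩ := h2 N n2 z hz2
  set L := Real.log N with hLd
  have hkk : (0 : ℝ) ≤ 27 * (κc : ℝ) := by positivity
  have hL1 : 1 ≤ L := by linarith
  have hL0 : 0 < L := by linarith
  have hz0 : (0 : ℝ) < z := lt_of_lt_of_le (by positivity) hz1
  have hz : 1 ≤ z := by exact_mod_cast hz0
  have hRr : (1 : ℝ) ≤ R := by exact_mod_cast hR1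
  have hlR0 : 0 ≤ Real.log R := Real.log_nonneg hRr
  have hlogR : 1 + Real.log R ≤ L := by
    have e1 : Real.log ((R : ℝ) ^ 80) ≤ L := Real.log_le_log (by positivity) (by exact_mod_cast hR)
    rw [Real.log_pow] at e1
    push_cast at e1
    nlinarith
  have ht1 : 1 ≤ t := by
    have : L ≤ t := le_trans (le_self_pow₀ hL1 (by omega)) hLm
    linarith
  have hzt : ((z : ℝ) + 1) ^ r ≤ t := by
    apply le_of_pow_le_pow_left₀ (n := 40) (by norm_num) ht0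
    rw [ht40]
    exact hr2
  have hRt : (R : ℝ) * R ≤ t := by
    apply le_of_pow_le_pow_left₀ (n := 40) (by norm_num) ht0
    rw [ht40]
    have e1 : ((R : ℝ) * R) ^ 40 = (R : ℝ) ^ 80 := by ring
    rw [e1]
    exact_mod_cast hR
  have hkr2 : (κc : ℝ) ^ r * L ^ U ≤ t := by
    calc (κc : ℝ) ^ r * L ^ U ≤ L ^ ((3 * (κc * (1 + E)) + U + 1) * κc) * L ^ U := mul_le_mul_of_nonneg_right (hr3 κc) (by positivity)
      _ = L ^ (U + (3 * (κc * (1 + E)) + U + 1) * κc) := by rw [← pow_add, add_comm]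
      _ ≤ t := hLm
  have hR2N : R * R ≤ N := by
    have : (R : ℝ) * R ≤ N := by
      calc (R : ℝ) * R ≤ t := hRt
        _ ≤ t ^ 40 := le_self_pow₀ ht1 (by norm_num)
        _ = N := ht40
    exact_mod_cast this
  refine ⟨hz, hL1, hR2N, r, ?_⟩
  have hT : ((1 + Real.log R) ^ 3 * (1 + 2 * Real.log R) ^ (2 ^ (2 * j + 2))) ^ κc ≤ L ^ ((3 + 2 ^ (2 * j + 2)) * κc) := by
    have hlogR2 : 1 + 2 * Real.log R ≤ L := by
      have e1 : Real.log ((R : ℝ) ^ 80) ≤ L := Real.log_le_log (by positivity) (by exact_mod_cast hR)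
      rw [Real.log_pow] at e1
      push_cast at e1
      nlinarith
    calc ((1 + Real.log R) ^ 3 * (1 + 2 * Real.log R) ^ (2 ^ (2 * j + 2))) ^ κc ≤ (L ^ 3 * L ^ (2 ^ (2 * j + 2))) ^ κc := by
          apply pow_le_pow_left₀ (by positivity)
          apply mul_le_mul (pow_le_pow_left₀ (by positivity) hlogR 3) (pow_le_pow_left₀ (by positivity) hlogR2 _) (by positivity) (by positivity)
      _ = L ^ ((3 + 2 ^ (2 * j + 2)) * κc) := by rw [← pow_add, ← pow_mul]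
  have q1 : ((z : ℝ) + 1) ^ r * (κc : ℝ) ^ r * ((R * R : ℕ) * (R * R : ℕ)) ≤ N / L ^ U := by
    rw [le_div_iff₀ (by positivity)]
    push_cast
    calc ((z : ℝ) + 1) ^ r * (κc : ℝ) ^ r * ((R * R) * (R * R)) * L ^ U =
          ((z : ℝ) + 1) ^ r * ((κc : ℝ) ^ r * L ^ U) * ((R * R) * (R * R)) := by ring
      _ ≤ t * t * (t * t) := by gcongr
      _ = t ^ 4 := by ring
      _ ≤ t ^ 40 := pow_le_pow_right₀ ht1 (by norm_num)
      _ = N := ht40
  have q2 : 4 * (N : ℝ) * Real.exp (3 * (κc * (1 + Real.log z)) - r) ≤ 4 * (N / L ^ U) := by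
    calc 4 * (N : ℝ) * Real.exp (3 * (κc * (1 + Real.log z)) - r) ≤ 4 * N * (1 / L ^ U) := by
          apply mul_le_mul_of_nonneg_left hr1 (by positivity)
      _ = _ := by ring
  have hsz : L ^ U ≤ √(z : ℝ) := by
    apply Real.le_sqrt_of_sq_le
    rw [← pow_mul, mul_comm]
    exact hz1
  have q3 : 9 * (N : ℝ) * ((κc : ℝ) * (3 / √(z : ℝ))) ≤ 27 * κc * (N / L ^ U) := by
    have q4 : (3 : ℝ) / √(z : ℝ) ≤ 3 / L ^ U := div_le_div_of_nonneg_left (by norm_num) (by positivity) hsz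
    calc 9 * (N : ℝ) * ((κc : ℝ) * (3 / √(z : ℝ))) ≤ 9 * N * ((κc : ℝ) * (3 / L ^ U)) := by gcongr
      _ = _ := by ring
  have hW : (0 : ℝ) ≤ (L ^ B * L ^ B) * L ^ ((3 + 2 ^ (2 * j + 2)) * κc) := by positivity
  calc _ ≤ (L ^ B * L ^ B) * L ^ ((3 + 2 ^ (2 * j + 2)) * κc) * ((6 + 27 * κc) * (N / L ^ U)) := by
        apply mul_le_mul (mul_le_mul_of_nonneg_left hT (by positivity)) _ (by positivity) hW
        linarith
    _ = (27 * κc + 6) / L * (N / L ^ A) := by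
        rw [hU]
        have e3 : L ^ (A + 2 * B + (3 + 2 ^ (2 * j + 2)) * κc + 1) = L ^ A * (L ^ B * L ^ B) * L ^ ((3 + 2 ^ (2 * j + 2)) * κc) * L := by
          rw [pow_add, pow_add, pow_add, pow_one, mul_comm 2 B, pow_mul]
          ring
        rw [e3]
        field_simp
        ring
    _ ≤ 1 * (N / L ^ A) := by
        apply mul_le_mul_of_nonneg_right _ (by positivity)
        rw [div_le_one (by positivity)]
        exact hL8
    _ = _ := one_mul _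

end Pool.Agent.L0h42.PP
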