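import Mathlib
import Pool.Agent.L0h42.PP.P1

/-! The second moment of the sieve sums along a progression and a sequence. -/

set_option autoImplicit false
set_option linter.unusedSectionVars false
set_option linter.unusedVariables false

namespace Pool.Agent.L0h42.PP
open Finset
open Pool.Agent.L0h42.TB
open Pool.Agent.L0h42.EG
open Pool.Agent.L0h42.CP
open Pool.Agent.H373R2.T7

lemma two_pow_omega {n : ℕ} (hn : n ≠ 0) : (2 : ℝ) ^ n.primeFactors.card ≤ n.divisors.card := by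
  rw [Nat.card_divisors hn]
  push_cast
  rw [← prod_const]
  apply prod_le_prod
  · intro _ _; norm_num
  · intro p hp
    have h1 := Nat.Prime.factorization_pos_of_dvd (Nat.prime_of_mem_primeFactors hp) hn (Nat.dvd_of_mem_primeFactors hp)
    have : (1 : ℝ) ≤ n.factorization p := by exact_mod_cast h1
    linarith

lemma pf_card {ι : Type*} [DecidableEq ι] (s : Finset ι) (D : ι → ℕ) (hD : ∀ l ∈ s, D l ≠ 0) :
    (∏ l ∈ s, D l).primeFactors.card ≤ ∑ l ∈ s, (D l).primeFactors.card := by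
  induction s using Finset.induction_on with
  | empty => simp
  | insert a s ha ih =>
    rw [prod_insert ha, sum_insert ha, Nat.primeFactors_mul (hD a (mem_insert_self a s))
      (prod_ne_zero_iff.2 fun l hl => hD l (mem_insert_of_mem hl))]
    exact (card_union_le _ _).trans (add_le_add le_rfl (ih fun l hl => hD l (mem_insert_of_mem hl)))

lemma sqf_prod {ι : Type*} [DecidableEq ι] (s : Finset ι) (D : ι → ℕ) (hD : ∀ l ∈ s, Squarefree (D l))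
    (hc : ∀ l ∈ s, ∀ m ∈ s, l ≠ m → (D l).Coprime (D m)) : Squarefree (∏ l ∈ s, D l) := by
  induction s using Finset.induction_on with
  | empty => simp
  | insert a s ha ih =>
    rw [prod_insert ha]
    have h1 : (D a).Coprime (∏ l ∈ s, D l) := Nat.Coprime.prod_right fun l hl =>
      hc a (mem_insert_self a s) l (mem_insert_of_mem hl) (by rintro rfl; exact ha hl)
    rw [Nat.squarefree_mul h1]
    exact ⟨hD a (mem_insert_self a s), ih (fun l hl => hD l (mem_insert_of_mem hl))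
      (fun l hl m hm => hc l (mem_insert_of_mem hl) m (mem_insert_of_mem hm))⟩

lemma omega_le {k : ℕ} (e : ℕ) (he : 1 ≤ e) (D : Fin k → ℕ) (hD : ∀ l, D l ≠ 0) :
    (e : ℝ) ^ (∏ l, D l).primeFactors.card ≤ ∏ l, ((D l).divisors.card : ℝ) ^ e := by
  have h1 : (∏ l, D l).primeFactors.card ≤ ∑ l, (D l).primeFactors.card := pf_card univ D fun l _ => hD l
  have he1 : (1 : ℝ) ≤ e := by exact_mod_cast he
  calc (e : ℝ) ^ (∏ l, D l).primeFactors.card ≤ (e : ℝ) ^ (∑ l, (D l).primeFactors.card) := pow_le_pow_right₀ he1 h1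
    _ = ∏ l, (e : ℝ) ^ (D l).primeFactors.card := by rw [← prod_pow_eq_pow_sum]
    _ ≤ _ := by
        apply prod_le_prod
        · intro _ _; positivity
        · intro l _
          have h2 : (e : ℝ) ≤ 2 ^ e := by exact_mod_cast Nat.lt_two_pow_self.le
          calc (e : ℝ) ^ (D l).primeFactors.card ≤ (2 ^ e) ^ (D l).primeFactors.card := pow_le_pow_left₀ (by positivity) h2 _
            _ = (2 ^ (D l).primeFactors.card) ^ e := by rw [← pow_mul, ← pow_mul, mul_comm]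
            _ ≤ _ := pow_le_pow_left₀ (by positivity) (two_pow_omega (hD l)) _

section cnt
variable {k : ℕ}

/-- few members of the sequence in a residue class to a modulus without small prime factors -/
def Few (e w X : ℕ) (K : Finset ℕ) (S : ℕ → ℕ) : Prop :=
  ∀ P : ℕ, Squarefree P → (∀ p, p.Prime → p ∣ P → w < p) → ∀ r : ℤ,
    ((K.filter (fun t => (P : ℤ) ∣ (Wp w : ℤ) * S t - r)).card : ℝ) ≤ (e : ℝ) ^ P.primeFactors.card * (X / P + 1)

open Classical in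
lemma tcount_w (e : ℕ) (he : 1 ≤ e) (z R Y w g X : ℕ) (hwz : w ≤ z) (h : Fin k → ℕ) (hinj : Function.Injective h) (hz : ∀ l, h l ≤ z)
    (K : Finset ℕ) (S : ℕ → ℕ) (hS : ∀ t ∈ K, 1 ≤ S t ∧ S t ≤ Y) (hF : Few e w X K S)
    (y : (Fin k → ℕ) × (Fin k → ℕ)) (h1 : y.1 ∈ PD (Fin k) z R) (h2 : y.2 ∈ PD (Fin k) z R) (hDX : ∏ l, lc y l ≤ X) (n : ℕ)
    (hn : n ∈ Ioc (2 * Y) (4 * Y)) :
    ∑ t ∈ K, (if Hit (cneg h) (lc y) (Wp w * (n - S t) + g) then (1 : ℝ) else 0) ≤ 2 * X * (rho e y * (1 / (∏ l, lc y l : ℕ))) := by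
  rw [mem_Ioc] at hn
  rw [← sum_filter, sum_const, nsmul_eq_mul, mul_one]
  obtain ⟨a1, a2, a3⟩ := lc_rough h1 h2
  have hρ := one_le_rho e y a1
  have hrhs : 0 ≤ 2 * X * (rho e y * (1 / (∏ l, lc y l : ℕ))) := by positivity
  rcases (K.filter (fun t => Hit (cneg h) (lc y) (Wp w * (n - S t) + g))).eq_empty_or_nonempty with hemp | ⟨t0, ht0⟩
  · rw [hemp, card_empty, Nat.cast_zero]
    exact hrhs
  rw [mem_filter] at ht0
  have hcop := hit_coprime hinj hz h1 h2 ht0.2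
  have hP1 : 1 ≤ ∏ l, lc y l := Nat.pos_of_ne_zero (prod_ne_zero_iff.2 fun l _ => by have := a1 l; omega)
  have hPs : Squarefree (∏ l, lc y l) := sqf_prod univ (lc y) (fun l _ => a3 l) (fun u _ v _ huv => hcop u v huv)
  have hPr : ∀ p, p.Prime → p ∣ ∏ l, lc y l → w < p := by
    intro p hp hpd
    obtain ⟨l, _, hl⟩ := (Prime.dvd_finsetProd_iff hp.prime _).1 hpd
    by_contra hcon
    exact a2 l p (mem_pz.2 ⟨by omega, hp⟩) hl
  have hsub : (K.filter (fun t => Hit (cneg h) (lc y) (Wp w * (n - S t) + g))).card ≤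
      (K.filter (fun t => ((∏ l, lc y l : ℕ) : ℤ) ∣ (Wp w : ℤ) * S t - ((Wp w : ℤ) * S t0))).card := by
    apply card_le_card
    intro t ht
    rw [mem_filter] at ht ⊢
    refine ⟨ht.1, ?_⟩
    have j1 := hS t ht.1
    have j0 := hS t0 ht0.1
    push_cast
    apply Finset.prod_dvd_of_coprime
    · intro u _ v _ huv
      exact Nat.isCoprime_iff_coprime.2 (hcop u v huv)
    · intro l _
      have q1 := ht.2 l
      have q0 := ht0.2 l
      have q2 := dvd_sub q0 q1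
      have e1 : (((Wp w * (n - S t0) + g : ℕ)) : ℤ) - cneg h l - ((((Wp w * (n - S t) + g : ℕ)) : ℤ) - cneg h l) =
          (Wp w : ℤ) * S t - ((Wp w : ℤ) * S t0) := by
        push_cast [Nat.cast_sub (show S t ≤ n by omega), Nat.cast_sub (show S t0 ≤ n by omega)]
        ring
      rwa [e1] at q2
  have hcnt := hF (∏ l, lc y l) hPs hPr ((Wp w : ℤ) * S t0)
  have hP0 : (0 : ℝ) < ((∏ l, lc y l : ℕ) : ℝ) := by exact_mod_cast hP1
  have hom := omega_le e he (lc y) (fun l => by have := a1 l; omega)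
  have hXP : (X : ℝ) / (∏ l, lc y l : ℕ) + 1 ≤ 2 * X * (1 / (∏ l, lc y l : ℕ)) := by
    have : (1 : ℝ) ≤ X / (∏ l, lc y l : ℕ) := by
      rw [one_le_div hP0]
      exact_mod_cast hDX
    have e2 : 2 * (X : ℝ) * (1 / (∏ l, lc y l : ℕ)) = X / (∏ l, lc y l : ℕ) + X / (∏ l, lc y l : ℕ) := by ring
    rw [e2]
    linarith
  calc (((K.filter (fun t => Hit (cneg h) (lc y) (Wp w * (n - S t) + g))).card : ℕ) : ℝ) ≤
      ((K.filter (fun t => ((∏ l, lc y l : ℕ) : ℤ) ∣ (Wp w : ℤ) * S t - ((Wp w : ℤ) * S t0))).card : ℝ) := by exact_mod_cast hsub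
    _ ≤ (e : ℝ) ^ (∏ l, lc y l).primeFactors.card * (X / (∏ l, lc y l : ℕ) + 1) := hcnt
    _ ≤ rho e y * (2 * X * (1 / (∏ l, lc y l : ℕ))) := by
        exact mul_le_mul hom hXP (by positivity) (le_trans zero_le_one hρ)
    _ = _ := by ring

lemma rho_split (e : ℕ) (x : (Fin k ⊕ Fin k → ℕ) × (Fin k ⊕ Fin k → ℕ)) : rho e x = rho e (xl x) * rho e (xr x) := by
  unfold rho
  rw [Fintype.prod_sum_type]
  rfl

open Classical in
lemma pair_count_w (e : ℕ) (he : 1 ≤ e) (z R N Y w g X : ℕ) (hwz : w ≤ z) (h : Fin k → ℕ) (hinj : Function.Injective h) (hz : ∀ l, h l ≤ z)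
    (hN : Wp w * (4 * Y) + g ≤ N) (K : Finset ℕ) (S : ℕ → ℕ) (hS : ∀ t ∈ K, 1 ≤ S t ∧ S t ≤ Y) (hF : Few e w X K S)
    (x : (Fin k ⊕ Fin k → ℕ) × (Fin k ⊕ Fin k → ℕ)) (h1 : x.1 ∈ PD (Fin k ⊕ Fin k) z R) (h2 : x.2 ∈ PD (Fin k ⊕ Fin k) z R)
    (hDl : ∏ l, lc (xl x) l ≤ X) (hDr : ∏ l, lc (xr x) l ≤ X) :
    ∑ t ∈ K ×ˢ K, (((Ioc (2 * Y) (4 * Y)).filter
      (fun n => Hit (c2 h (-((Wp w : ℤ) * S t.1)) (-((Wp w : ℤ) * S t.2))) (lc x) (Wp w * n + g))).card : ℝ) ≤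
      4 * N * X ^ 2 * (rho e x * (1 / (∏ l, lc x l : ℕ))) := by
  have hW := Wp_pos w
  have hl1 : (xl x).1 ∈ PD (Fin k) z R := mem_PD.2 fun l => mem_PD.1 h1 _
  have hl2 : (xl x).2 ∈ PD (Fin k) z R := mem_PD.2 fun l => mem_PD.1 h2 _
  have hr1 : (xr x).1 ∈ PD (Fin k) z R := mem_PD.2 fun l => mem_PD.1 h1 _
  have hr2 : (xr x).2 ∈ PD (Fin k) z R := mem_PD.2 fun l => mem_PD.1 h2 _
  have e1 : ∀ t ∈ K ×ˢ K, (((Ioc (2 * Y) (4 * Y)).filter
      (fun n => Hit (c2 h (-((Wp w : ℤ) * S t.1)) (-((Wp w : ℤ) * S t.2))) (lc x) (Wp w * n + g))).card : ℝ) =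
      ∑ n ∈ Ioc (2 * Y) (4 * Y), (if Hit (cneg h) (lc (xl x)) (Wp w * (n - S t.1) + g) then (1 : ℝ) else 0) *
        (if Hit (cneg h) (lc (xr x)) (Wp w * (n - S t.2) + g) then (1 : ℝ) else 0) := by
    intro t ht
    rw [mem_product] at ht
    have j1 := hS t.1 ht.1
    have j2 := hS t.2 ht.2
    rw [card_filter]
    push_cast
    apply sum_congr rfl
    intro n hn
    rw [mem_Ioc] at hn
    have q := hit_c2 h (n := Wp w * n + g) (a := Wp w * (n - S t.1) + g) (a' := Wp w * (n - S t.2) + g) (s := -((Wp w : ℤ) * S t.1)) (s' := -((Wp w : ℤ) * S t.2))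
      (pt_cast (by omega)) (pt_cast (by omega)) (lc x)
    have q2 : (Hit (cneg h) (fun l => lc x (Sum.inl l)) (Wp w * (n - S t.1) + g) ↔ Hit (cneg h) (lc (xl x)) (Wp w * (n - S t.1) + g)) := Iff.rfl
    have q3 : (Hit (cneg h) (fun l => lc x (Sum.inr l)) (Wp w * (n - S t.2) + g) ↔ Hit (cneg h) (lc (xr x)) (Wp w * (n - S t.2) + g)) := Iff.rfl
    rw [q2, q3] at q
    by_cases q4 : Hit (cneg h) (lc (xl x)) (Wp w * (n - S t.1) + g)
    · by_cases q5 : Hit (cneg h) (lc (xr x)) (Wp w * (n - S t.2) + g)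
      · rw [if_pos q4, if_pos q5, if_pos (q.2 ⟨q4, q5⟩), mul_one]
      · rw [if_neg q5, if_neg fun q6 => q5 (q.1 q6).2, mul_zero]
    · rw [if_neg q4, if_neg fun q6 => q4 (q.1 q6).1, zero_mul]
  rw [sum_congr rfl e1, sum_comm]
  have hρl := one_le_rho e (xl x) (lc_rough hl1 hl2).1
  have hρr := one_le_rho e (xr x) (lc_rough hr1 hr2).1
  have e2 : ∀ n ∈ Ioc (2 * Y) (4 * Y), ∑ t ∈ K ×ˢ K, (if Hit (cneg h) (lc (xl x)) (Wp w * (n - S t.1) + g) then (1 : ℝ) else 0) *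
        (if Hit (cneg h) (lc (xr x)) (Wp w * (n - S t.2) + g) then (1 : ℝ) else 0) ≤
        (2 * X * (rho e (xl x) * (1 / (∏ l, lc (xl x) l : ℕ)))) * (2 * X * (rho e (xr x) * (1 / (∏ l, lc (xr x) l : ℕ)))) := by
    intro n hn
    rw [sum_prod_mul K K (fun s => if Hit (cneg h) (lc (xl x)) (Wp w * (n - S s) + g) then (1 : ℝ) else 0)
      (fun s => if Hit (cneg h) (lc (xr x)) (Wp w * (n - S s) + g) then (1 : ℝ) else 0)]
    apply mul_le_mul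
    · exact tcount_w e he z R Y w g X hwz h hinj hz K S hS hF (xl x) hl1 hl2 hDl n hn
    · exact tcount_w e he z R Y w g X hwz h hinj hz K S hS hF (xr x) hr1 hr2 hDr n hn
    · exact sum_nonneg fun _ _ => by split_ifs <;> norm_num
    · positivity
  refine (sum_le_sum e2).trans ?_
  rw [sum_const, Nat.card_Ioc, nsmul_eq_mul, lc_prod, rho_split]
  have hc : ((4 * Y - 2 * Y : ℕ) : ℝ) ≤ N := by
    have h9 : 1 * (4 * Y) ≤ Wp w * (4 * Y) := Nat.mul_le_mul_right _ hW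
    have : 4 * Y - 2 * Y ≤ N := by omega
    exact_mod_cast this
  obtain ⟨a, ha⟩ : ∃ a, a = rho e (xl x) := ⟨_, rfl⟩
  obtain ⟨b, hb⟩ : ∃ b, b = rho e (xr x) := ⟨_, rfl⟩
  rw [← ha, ← hb]
  rw [← ha] at hρl
  rw [← hb] at hρr
  push_cast
  calc ((4 * Y - 2 * Y : ℕ) : ℝ) * ((2 * X * (a * (1 / ∏ l, (lc (xl x) l : ℝ)))) * (2 * X * (b * (1 / ∏ l, (lc (xr x) l : ℝ))))) ≤
      N * ((2 * X * (a * (1 / ∏ l, (lc (xl x) l : ℝ)))) * (2 * X * (b * (1 / ∏ l, (lc (xr x) l : ℝ))))) := by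
        apply mul_le_mul_of_nonneg_right hc
        positivity
    _ = _ := by
        rw [one_div, one_div, one_div, mul_inv]
        ring

/-- **the second moment.** -/
theorem second_w (hWC : S_WC) (k A B e : ℕ) (hk : 1 ≤ k) (he : 1 ≤ e) : ∃ E0 : ℕ, ∀ E : ℕ, ∃ N0 : ℕ, ∀ N : ℕ, N0 ≤ N → ∀ z R Y w g X : ℕ,
    Real.log N ^ E0 ≤ z → (z : ℝ) ≤ Real.log N ^ E → 1 ≤ R → R ^ 80 ≤ N → R * (R * (R * R)) ≤ X → Wp w * (4 * Y) + g ≤ N → 1 ≤ w → w ≤ z →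
    ∀ h : Fin k → ℕ, Function.Injective h → (∀ l, h l ≤ z) → (∀ l, ∀ p ∈ pz w, ¬ p ∣ g + h l) →
    ∀ K : Finset ℕ, K.card ≤ X → ∀ S : ℕ → ℕ, (∀ t ∈ K, 1 ≤ S t ∧ S t ≤ Y) → Few e w X K S → ∀ Λ : (Fin k → ℕ) → ℝ,
    (∀ d ∈ PD (Fin k) z R, |Λ d| ≤ Real.log N ^ B) → (∀ d, Λ d ≠ 0 → ∏ l, d l ≤ R) →
    ∑ t ∈ K ×ˢ K, |∑ n ∈ Ioc (2 * Y) (4 * Y),
        FF z R h Λ (Wp w * (n - S t.1) + g) * FF z R h Λ (Wp w * (n - S t.2) + g) -
      2 * Y * Vr w z (c2 h (-((Wp w : ℤ) * S t.1)) (-((Wp w : ℤ) * S t.2))) * (Qf z R Λ * Qf z R Λ)| ≤ N * X ^ 2 / Real.log N ^ A := by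
  classical
  obtain ⟨E0, hE0⟩ := setup_w e (2 * k) (2 * B) (A + 1) (by omega)
  refine ⟨E0, fun E => ?_⟩
  obtain ⟨N0, h0⟩ := hE0 E
  obtain ⟨N1, h1⟩ := Vz_inv_small E
  refine ⟨max N0 N1, ?_⟩
  intro N hN z R Y w g X hz1 hz2 hR1 hR hRX hY hw1 hwz h hinj hhz hg K hK S hS hF Λ hΛ hs
  obtain ⟨hz, hL1, hR2N, r, hr⟩ := h0 N (le_trans (le_max_left _ _) hN) z R hz1 hz2 hR1 hR
  have hVw := h1 N (le_trans (le_max_right _ _) hN) w hw1 (le_trans (by exact_mod_cast hwz) hz2)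
  set L := Real.log N with hLd
  have hL0 : 0 < L := by linarith
  have hB0 : (0 : ℝ) ≤ L ^ B := by positivity
  have hLB : L ^ (2 * B) = L ^ B * L ^ B := by ring
  have hW1 : 1 ≤ Wp w := Wp_pos w
  have hR2X : R * R ≤ X := by
    refine le_trans ?_ hRX
    calc R * R = R * (R * 1) := by ring
      _ ≤ R * (R * (R * R)) := by
          apply Nat.mul_le_mul_left
          apply Nat.mul_le_mul_left
          nlinarith
  obtain ⟨Λj, hΛj⟩ : ∃ Λj, Λj = Lj Λ Λ := ⟨_, rfl⟩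
  have hj1 : ∀ δ ∈ PD (Fin k ⊕ Fin k) z R, |Λj δ| ≤ L ^ (2 * B) := by
    intro δ hδ
    rw [hΛj, hLB]
    unfold Lj
    rw [abs_mul]
    exact mul_le_mul (hΛ _ (mem_PD.2 fun l => mem_PD.1 hδ _)) (hΛ _ (mem_PD.2 fun l => mem_PD.1 hδ _)) (abs_nonneg _) hB0
  have hj2 : ∀ δ, Λj δ ≠ 0 → ∏ l, δ (Sum.inl l) ≤ R ∧ ∏ l, δ (Sum.inr l) ≤ R := by
    intro δ hδ
    rw [hΛj] at hδ
    unfold Lj at hδ
    exact ⟨hs _ (left_ne_zero_of_mul hδ), hs _ (right_ne_zero_of_mul hδ)⟩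
  have hj3 : ∀ δ, Λj δ ≠ 0 → ∏ l, δ l ≤ R * R := by
    intro δ hδ
    rw [Fintype.prod_sum_type]
    exact Nat.mul_le_mul (hj2 δ hδ).1 (hj2 δ hδ).2
  have hcard : Fintype.card (Fin k ⊕ Fin k) = 2 * k := by simp; omega
  have : Nonempty (Fin k ⊕ Fin k) := ⟨Sum.inl ⟨0, hk⟩⟩
  obtain ⟨TT, hTT⟩ : ∃ TT, TT = K ×ˢ K := ⟨_, rfl⟩
  have hYN : 4 * Y ≤ N := by nlinarith
  have key := main_aff_w hWC TT (fun t => c2 h (-((Wp w : ℤ) * S t.1)) (-((Wp w : ℤ) * S t.2))) e w z R (2 * Y) (4 * Y) N r (2 * k) (R * R) g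
    (by omega) hYN hwz (by
      intro t _ x p hp
      rcases x with l | l
      · exact small_free w h g hg (S t.1) l p hp
      · exact small_free w h g hg (S t.2) l p hp) hcard.le (by omega) hz hR1 Λj (L ^ (2 * B)) (by positivity) hj1 hj3 (4 * N * X ^ 2) (by positivity) (by
      intro x hx hx1 hx2 _
      rw [mem_product] at hx
      rw [hTT]
      exact pair_count_w e he z R N Y w g X hwz h hinj hhz hY K S hS hF x hx.1 hx.2
        (((lc_prod_le (xl x)).trans (Nat.mul_le_mul (hj2 _ hx1).1 (hj2 _ hx2).1)).trans hR2X)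
        (((lc_prod_le (xr x)).trans (Nat.mul_le_mul (hj2 _ hx1).2 (hj2 _ hx2).2)).trans hR2X))
  rw [hcard] at key
  have e1 : ∀ t ∈ TT, |∑ n ∈ Ioc (2 * Y) (4 * Y),
        FF z R h Λ (Wp w * (n - S t.1) + g) * FF z R h Λ (Wp w * (n - S t.2) + g) -
      2 * Y * Vr w z (c2 h (-((Wp w : ℤ) * S t.1)) (-((Wp w : ℤ) * S t.2))) * (Qf z R Λ * Qf z R Λ)| =
      |∑ a ∈ Ioc (2 * Y) (4 * Y), Gr z (c2 h (-((Wp w : ℤ) * S t.1)) (-((Wp w : ℤ) * S t.2))) (Wp w * a + g) *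
        SS z R Λj (c2 h (-((Wp w : ℤ) * S t.1)) (-((Wp w : ℤ) * S t.2))) (Wp w * a + g) ^ 2 -
        (((4 * Y : ℕ) : ℝ) - ((2 * Y : ℕ) : ℝ)) * Vr w z (c2 h (-((Wp w : ℤ) * S t.1)) (-((Wp w : ℤ) * S t.2))) * Qf z R Λj| := by
    intro t ht
    rw [hTT, mem_product] at ht
    have j1 := hS t.1 ht.1
    have j2 := hS t.2 ht.2
    congr 1
    rw [hΛj, Qf_joint]
    have e2 : (((4 * Y : ℕ) : ℝ) - ((2 * Y : ℕ) : ℝ)) = 2 * Y := by push_cast; ring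
    rw [e2]
    congr 1
    apply sum_congr rfl
    intro n hn
    rw [mem_Ioc] at hn
    exact (FF_c2 z R Λ h (n := Wp w * n + g) (a := Wp w * (n - S t.1) + g) (a' := Wp w * (n - S t.2) + g) (s := -((Wp w : ℤ) * S t.1)) (s' := -((Wp w : ℤ) * S t.2))
      (pt_cast (by omega)) (pt_cast (by omega))).symm
  rw [← hTT, sum_congr rfl e1]
  refine key.trans ?_
  have hc1 : (TT.card : ℝ) ≤ X ^ 2 := by
    have : TT.card ≤ X ^ 2 := by
      rw [hTT, card_product]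
      have h1 : K.card ≤ X := hK
      calc K.card * K.card ≤ X * X := Nat.mul_le_mul h1 h1
        _ = _ := by ring
    exact_mod_cast this
  have hRr : (1 : ℝ) ≤ R := by exact_mod_cast hR1
  have hlR0 : 0 ≤ Real.log R := Real.log_nonneg hRr
  have hVi : 0 ≤ (Vz w)⁻¹ := (inv_pos.2 (Vz_pos w)).le
  have hUN : (0 : ℝ) ≤ (X : ℝ) ^ 2 := by positivity
  calc _ ≤ L * (L ^ (2 * B) * L ^ (2 * B) * ((1 + Real.log R) ^ 3 * (1 + 2 * Real.log R) ^ (2 ^ (2 * e + 2))) ^ (2 * k) *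
        ((X ^ 2) * (2 * (((z : ℝ) + 1) ^ r * ((2 * k : ℕ) : ℝ) ^ r * ((R * R : ℕ) * (R * R : ℕ))) + 4 * N * Real.exp (3 * (((2 * k : ℕ) : ℝ) * (1 + Real.log z)) - r)) +
          (4 * N * X ^ 2 + (X ^ 2) * N) * (((2 * k : ℕ) : ℝ) * (3 / √(z : ℝ))))) := by
        gcongr
    _ = (L * X ^ 2) * (L ^ (2 * B) * L ^ (2 * B) * ((1 + Real.log R) ^ 3 * (1 + 2 * Real.log R) ^ (2 ^ (2 * e + 2))) ^ (2 * k) *
        ((2 * (((z : ℝ) + 1) ^ r * ((2 * k : ℕ) : ℝ) ^ r * ((R * R : ℕ) * (R * R : ℕ))) + 4 * N * Real.exp (3 * (((2 * k : ℕ) : ℝ) * (1 + Real.log z)) - r)) +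
          5 * N * (((2 * k : ℕ) : ℝ) * (3 / √(z : ℝ))))) := by ring
    _ ≤ (L * X ^ 2) * (L ^ (2 * B) * L ^ (2 * B) * ((1 + Real.log R) ^ 3 * (1 + 2 * Real.log R) ^ (2 ^ (2 * e + 2))) ^ (2 * k) *
        ((2 * (((z : ℝ) + 1) ^ r * ((2 * k : ℕ) : ℝ) ^ r * ((R * R : ℕ) * (R * R : ℕ))) + 4 * N * Real.exp (3 * (((2 * k : ℕ) : ℝ) * (1 + Real.log z)) - r)) +
          9 * N * (((2 * k : ℕ) : ℝ) * (3 / √(z : ℝ))))) := by
        gcongr
        norm_num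
    _ ≤ (L * X ^ 2) * (N / L ^ (A + 1)) := mul_le_mul_of_nonneg_left hr (by positivity)
    _ = _ := by
        field_simp
        ring

end cnt

end Pool.Agent.L0h42.PP
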