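import Mathlib
import Pool.Agent.L0h42.PP.P2

/-! The singular factor on average over pairs of members of a sequence. -/

set_option autoImplicit false
set_option linter.unusedSectionVars false
set_option linter.unusedVariables false

namespace Pool.Agent.L0h42.PP
open Finset
open Pool.Agent.L0h42.TB
open Pool.Agent.L0h42.EG
open Pool.Agent.L0h42.CP
open Pool.Agent.H373R2.T7

section pairs
variable {k : ℕ}

open Classical in
lemma few_pairs (e w X z : ℕ) (K : Finset ℕ) (S : ℕ → ℕ) (hF : Few e w X K S) (h : Fin k → ℕ) (s : ℕ) (P0 : Finset ℕ) (hP0 : P0 ⊆ pz z \ pz w) :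
    ((K.filter (fun t => ∀ p ∈ P0, Som (cd h (-((Wp w : ℤ) * S t) - (-((Wp w : ℤ) * s)))) p 0)).card : ℝ) ≤
      (((k ^ 2 : ℕ) : ℝ) * e) ^ P0.card * (X / (∏ p ∈ P0, p : ℕ) + 1) := by
  have hpr : ∀ p ∈ P0, p.Prime := fun p hp => (lt_of_mem (hP0 hp)).1
  have hsq : Squarefree (∏ p ∈ P0, p) := sqf_prod P0 (fun p => p) (fun p hp => (hpr p hp).squarefree) (fun p hp q hq hne =>
    (Nat.coprime_primes (hpr p hp) (hpr q hq)).2 hne)
  have hlt : ∀ p, p.Prime → p ∣ ∏ p ∈ P0, p → w < p := by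
    intro p hp hd
    obtain ⟨q, hq, hpq⟩ := (Prime.dvd_finsetProd_iff hp.prime _).1 hd
    rw [(Nat.prime_dvd_prime_iff_eq hp (hpr q hq)).1 hpq]
    exact (lt_of_mem (hP0 hq)).2
  have hω : (∏ p ∈ P0, p).primeFactors.card = P0.card := by rw [Nat.primeFactors_prod hpr]
  obtain ⟨Φ, hΦ⟩ : ∃ Φ : Finset ((p : ℕ) → p ∈ P0 → Fin k × Fin k), Φ = P0.pi (fun _ => (univ : Finset (Fin k × Fin k))) := ⟨_, rfl⟩
  have hΦc : Φ.card = (k ^ 2) ^ P0.card := by
    rw [hΦ, card_pi, prod_const, card_univ, Fintype.card_prod, Fintype.card_fin, sq]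
  have hcov : K.filter (fun t => ∀ p ∈ P0, Som (cd h (-((Wp w : ℤ) * S t) - (-((Wp w : ℤ) * s)))) p 0) ⊆
      Φ.biUnion (fun φ => K.filter (fun t => ∀ p, ∀ hp : p ∈ P0, (p : ℤ) ∣ ((0 : ℕ) : ℤ) - cd h (-((Wp w : ℤ) * S t) - (-((Wp w : ℤ) * s))) (φ p hp))) := by
    intro t ht
    rw [mem_filter] at ht
    rw [mem_biUnion]
    choose φ hφ using ht.2
    refine ⟨φ, ?_, mem_filter.2 ⟨ht.1, fun p hp => hφ p hp⟩⟩
    rw [hΦ, mem_pi]
    exact fun _ _ => mem_univ _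
  have hone : ∀ φ ∈ Φ, ((K.filter (fun t => ∀ p, ∀ hp : p ∈ P0, (p : ℤ) ∣ ((0 : ℕ) : ℤ) - cd h (-((Wp w : ℤ) * S t) - (-((Wp w : ℤ) * s))) (φ p hp))).card : ℝ) ≤
      (e : ℝ) ^ P0.card * (X / (∏ p ∈ P0, p : ℕ) + 1) := by
    intro φ _
    rcases (K.filter (fun t => ∀ p, ∀ hp : p ∈ P0, (p : ℤ) ∣ ((0 : ℕ) : ℤ) - cd h (-((Wp w : ℤ) * S t) - (-((Wp w : ℤ) * s))) (φ p hp))).eq_empty_or_nonempty with hemp | ⟨t0, ht0⟩
    · rw [hemp, card_empty, Nat.cast_zero]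
      positivity
    rw [mem_filter] at ht0
    have h1 := hF (∏ p ∈ P0, p) hsq hlt ((Wp w : ℤ) * S t0)
    rw [hω] at h1
    refine le_trans ?_ h1
    rw [Nat.cast_le]
    apply card_le_card
    intro t ht
    rw [mem_filter] at ht ⊢
    refine ⟨ht.1, ?_⟩
    push_cast
    apply Finset.prod_dvd_of_coprime
    · intro p hp q hq hne
      exact Nat.isCoprime_iff_coprime.2 ((Nat.coprime_primes (hpr p hp) (hpr q hq)).2 hne)
    · intro p hp
      have q1 := ht.2 p hp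
      have q0 := ht0.2 p hp
      have q2 := dvd_sub q0 q1
      unfold cd at q2
      have e1 : ((0 : ℕ) : ℤ) - ((h (φ p hp).1 : ℤ) - h (φ p hp).2 - (-((Wp w : ℤ) * S t0) - (-((Wp w : ℤ) * s)))) -
          (((0 : ℕ) : ℤ) - ((h (φ p hp).1 : ℤ) - h (φ p hp).2 - (-((Wp w : ℤ) * S t) - (-((Wp w : ℤ) * s))))) =
          (Wp w : ℤ) * S t - ((Wp w : ℤ) * S t0) := by ring
      rwa [e1] at q2
  calc _ ≤ ((Φ.biUnion (fun φ => K.filter (fun t => ∀ p, ∀ hp : p ∈ P0, (p : ℤ) ∣ ((0 : ℕ) : ℤ) - cd h (-((Wp w : ℤ) * S t) - (-((Wp w : ℤ) * s))) (φ p hp)))).card : ℝ) := by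
        exact_mod_cast card_le_card hcov
    _ ≤ ∑ φ ∈ Φ, ((K.filter (fun t => ∀ p, ∀ hp : p ∈ P0, (p : ℤ) ∣ ((0 : ℕ) : ℤ) - cd h (-((Wp w : ℤ) * S t) - (-((Wp w : ℤ) * s))) (φ p hp))).card : ℝ) := by
        exact_mod_cast card_biUnion_le
    _ ≤ ∑ _φ ∈ Φ, (e : ℝ) ^ P0.card * (X / (∏ p ∈ P0, p : ℕ) + 1) := sum_le_sum hone
    _ = _ := by
        rw [sum_const, nsmul_eq_mul, hΦc, mul_pow]
        push_cast
        ring

open Classical in
lemma rare_w (e z w X v : ℕ) (h : Fin k → ℕ) (s : ℕ) (K : Finset ℕ) (S : ℕ → ℕ) (hF : Few e w X K S) (S0 : ℝ) (hS0 : ∑ p ∈ pz z, 1 / (p : ℝ) ≤ S0) :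
    ((K.filter (fun t => v ≤ (bad w z h s (S t)).card)).card : ℝ) ≤
      X * Real.exp (3 * ((k ^ 2 * e : ℕ) * S0) - v) + ((z : ℝ) + 1) ^ v * ((k ^ 2 * e : ℕ) : ℝ) ^ v := by
  have h1 : ∀ t ∈ K, (if v ≤ (bad w z h s (S t)).card then (1 : ℝ) else 0) ≤
      ∑ P0 ∈ (pz z \ pz w).powersetCard v, (if ∀ p ∈ P0, Som (cd h (-((Wp w : ℤ) * S t) - (-((Wp w : ℤ) * s)))) p 0 then 1 else 0) := by
    intro t _
    split_ifs with h2
    · obtain ⟨P0, hP1, hP2⟩ := exists_subset_card_eq h2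
      unfold bad at hP1
      have h3 : P0 ∈ (pz z \ pz w).powersetCard v := by
        rw [mem_powersetCard]
        exact ⟨hP1.trans (filter_subset _ _), hP2⟩
      have h4 : ∀ p ∈ P0, Som (cd h (-((Wp w : ℤ) * S t) - (-((Wp w : ℤ) * s)))) p 0 := fun p hp => (mem_filter.1 (hP1 hp)).2
      refine le_trans ?_ (single_le_sum (f := fun P0 => if ∀ p ∈ P0, Som (cd h (-((Wp w : ℤ) * S t) - (-((Wp w : ℤ) * s)))) p 0 then (1 : ℝ) else 0) (fun _ _ => by split_ifs <;> norm_num) h3)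
      rw [if_pos h4]
    · exact sum_nonneg fun _ _ => by split_ifs <;> norm_num
  have h2 := sum_le_sum h1
  rw [← sum_filter, sum_const, nsmul_eq_mul, mul_one, sum_comm] at h2
  refine h2.trans ?_
  have h3 : ∀ P0 ∈ (pz z \ pz w).powersetCard v, ∑ t ∈ K, (if ∀ p ∈ P0, Som (cd h (-((Wp w : ℤ) * S t) - (-((Wp w : ℤ) * s)))) p 0 then (1 : ℝ) else 0) ≤
      X * ∏ p ∈ P0, (((k ^ 2 * e : ℕ) : ℝ) / p) + ((k ^ 2 * e : ℕ) : ℝ) ^ v := by
    intro P0 hP0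
    rw [mem_powersetCard] at hP0
    rw [← sum_filter, sum_const, nsmul_eq_mul, mul_one]
    have h4 := few_pairs e w X z K S hF h s P0 hP0.1
    refine h4.trans (le_of_eq ?_)
    rw [hP0.2, prod_div_distrib, prod_const, hP0.2]
    push_cast
    ring
  refine (sum_le_sum h3).trans ?_
  rw [sum_add_distrib, ← mul_sum, sum_const, nsmul_eq_mul]
  apply add_le_add
  · apply mul_le_mul_of_nonneg_left _ (Nat.cast_nonneg _)
    have h5 := es_le (x := fun p => ((k ^ 2 * e : ℕ) : ℝ) / p) (T := pz z \ pz w) (fun p _ => by positivity) v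
    unfold es at h5
    refine h5.trans (Real.exp_le_exp.2 ?_)
    have h6 : ∑ p ∈ pz z \ pz w, ((k ^ 2 * e : ℕ) : ℝ) / p ≤ (k ^ 2 * e : ℕ) * S0 := by
      calc ∑ p ∈ pz z \ pz w, ((k ^ 2 * e : ℕ) : ℝ) / p = (k ^ 2 * e : ℕ) * ∑ p ∈ pz z \ pz w, 1 / (p : ℝ) := by
            rw [mul_sum]
            apply sum_congr rfl
            intro p _
            ring
        _ ≤ (k ^ 2 * e : ℕ) * ∑ p ∈ pz z, 1 / (p : ℝ) := by
            apply mul_le_mul_of_nonneg_left _ (Nat.cast_nonneg _)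
            exact sum_le_sum_of_subset_of_nonneg sdiff_subset fun _ _ _ => by positivity
        _ ≤ _ := mul_le_mul_of_nonneg_left hS0 (Nat.cast_nonneg _)
    linarith
  · apply mul_le_mul_of_nonneg_right _ (by positivity)
    rw [card_powersetCard]
    have h6 : (pz z \ pz w).card.choose v ≤ (z + 1) ^ v := by
      refine (Nat.choose_le_pow _ _).trans (Nat.pow_le_pow_left ?_ _)
      have := card_pz_le z
      have h7 := card_le_card (sdiff_subset (s := pz z) (t := pz w))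
      omega
    exact_mod_cast h6

end pairs

lemma exists_root (e : ℕ) (he : 1 ≤ e) (N : ℕ) : ∃ t : ℝ, 0 ≤ t ∧ t ^ (40 * e) = N := by
  refine ⟨(N : ℝ) ^ (1 / ((40 * e : ℕ) : ℝ)), by positivity, ?_⟩
  rw [← Real.rpow_natCast, ← Real.rpow_mul (Nat.cast_nonneg _)]
  have : ((40 * e : ℕ) : ℝ) ≠ 0 := by positivity
  rw [one_div_mul_cancel this, Real.rpow_one]

open Classical in
/-- **the sum of the singular factor.** -/
theorem sing_w (k A e : ℕ) (hk : 1 ≤ k) (he : 1 ≤ e) (δ : ℝ) (hδ : 0 < δ) (hδ1 : δ ≤ 1) :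
    ∃ K0 : ℕ, 1 ≤ K0 ∧ ∀ E : ℕ, ∃ N0 : ℕ, ∀ N : ℕ, N0 ≤ N → ∀ z X w : ℕ, Real.log N ≤ z → (z : ℝ) ≤ Real.log N ^ E →
    K0 * Real.log (Real.log N) ≤ w → w ≤ z → N ≤ X ^ (20 * e) → ∀ h : Fin k → ℕ, ∀ (K : Finset ℕ) (S : ℕ → ℕ), Few e w X K S →
    X / Real.log N ^ A ≤ K.card →
    2 * k ≤ w ∧ 1 / Real.log N ^ (2 * k) ≤ Vr w z (cneg h) ∧
    ∑ t ∈ K ×ˢ K, Vr w z (c2 h (-((Wp w : ℤ) * S t.1)) (-((Wp w : ℤ) * S t.2))) ≤ (1 + 12 * δ) * (K.card) ^ 2 * Vr w z (cneg h) ^ 2 := by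
  obtain ⟨A2, hA2⟩ : ∃ A2, A2 = A + 4 * k + 1 := ⟨_, rfl⟩
  obtain ⟨C, hC⟩ : ∃ C, C = 3 * (k ^ 2 * e) + A2 := ⟨_, rfl⟩
  have hlδ : 0 < Real.log (1 + δ) := Real.log_pos (by linarith)
  obtain ⟨K1, hK1⟩ := exists_nat_ge (2 * k * ((C : ℝ) + 1) / Real.log (1 + δ))
  refine ⟨K1 + 2 * k + 1, by omega, fun E => ?_⟩
  obtain ⟨m1, g1⟩ := sum_inv_pz E
  obtain ⟨m2, g2⟩ := ll_small (40 * e * ((E + 2) * (C + 1)))
  obtain ⟨m3, g3⟩ := ev_log' (A2 * (40 * e)) 1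
  obtain ⟨m4, g4⟩ := ev_L' (max (2 * (k ^ 2 * e) + 3) (2 / δ))
  refine ⟨max (max m1 m2) (max m3 (max m4 1)), ?_⟩
  intro N hN z X w hz1 hz2 hw hwz hXN h K S hF hMc
  have n1 := le_trans (le_trans (le_max_left _ _) (le_max_left _ _)) hN
  have n2 := le_trans (le_trans (le_max_right _ _) (le_max_left _ _)) hN
  have nn := le_trans (le_max_right _ _) hN
  have n3 := le_trans (le_max_left _ _) nn
  have n4 := le_trans (le_trans (le_max_left _ _) (le_max_right _ _)) nn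
  have hN1 : 1 ≤ N := le_trans (le_trans (le_max_right _ _) (le_max_right _ _)) nn
  have hN0 : (0 : ℝ) < N := by exact_mod_cast hN1
  obtain ⟨hll, hll1⟩ := g2 N n2
  obtain ⟨t, ht0, ht40⟩ := exists_root e he N
  have b3 := g3 N n3
  have b4 := g4 N n4
  have hLk : (2 * (k ^ 2 * e) + 3 : ℝ) ≤ Real.log N := le_trans (le_max_left _ _) b4
  have hLδ : 2 / δ ≤ Real.log N := le_trans (le_max_right _ _) b4
  obtain ⟨L, hL⟩ : ∃ L, L = Real.log (N : ℝ) := ⟨_, rfl⟩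
  obtain ⟨l, hl⟩ : ∃ l, l = Real.log (Real.log (N : ℝ)) := ⟨_, rfl⟩
  have hk2 : (0 : ℝ) ≤ 2 * ((k : ℝ) ^ 2 * e) := by positivity
  rw [← hL] at hLk hLδ hz1 hz2 b3 hMc
  have hL3 : 3 ≤ L := by linarith
  have hL0 : 0 < L := by linarith
  have hL1 : 1 ≤ L := by linarith
  have he40 : 40 * e ≠ 0 := by omega
  have hLt : L ^ A2 ≤ t := by
    apply le_of_pow_le_pow_left₀ he40 ht0
    rw [ht40, ← pow_mul]
    rw [one_mul] at b3
    refine b3.trans ?_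
    apply aux_sqrt
    exact_mod_cast hN1
  have hexl : Real.exp l = L := by rw [hl, hL, Real.exp_log]; rw [← hL]; exact hL0
  have hzr : (1 : ℝ) ≤ z := by linarith
  have hz : 1 ≤ z := by exact_mod_cast hzr
  have hS0 := g1 N n1 z hz (by rw [← hL]; exact hz2)
  rw [← hl] at hS0 hll hll1 hw
  rw [← hL] at hll
  have hw0 : (0 : ℝ) < w := by
    refine lt_of_lt_of_le ?_ hw
    have : (0 : ℝ) < ((K1 + 2 * k + 1 : ℕ) : ℝ) := by positivity
    nlinarith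
  have hw1 : 1 ≤ w := by exact_mod_cast hw0
  have hKw : (K1 : ℝ) * l ≤ w ∧ (2 * k : ℝ) ≤ w := by
    push_cast at hw
    have q1 : (0 : ℝ) ≤ K1 := Nat.cast_nonneg _
    have q2 : (0 : ℝ) ≤ k := Nat.cast_nonneg _
    constructor
    · nlinarith
    · nlinarith
  have hwk : 2 * k ≤ w := by exact_mod_cast hKw.2
  obtain ⟨v, hv⟩ : ∃ v, v = ⌈(C : ℝ) * l⌉₊ := ⟨_, rfl⟩
  have hv1 : (C : ℝ) * l ≤ v := by rw [hv]; exact Nat.le_ceil _
  have hv2 : (v : ℝ) ≤ (C + 1) * l := by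
    have : (v : ℝ) < C * l + 1 := by
      rw [hv]
      exact Nat.ceil_lt_add_one (by positivity)
    linarith
  obtain ⟨V, hV⟩ : ∃ V, V = Vr w z (cneg h) := ⟨_, rfl⟩
  rw [← hV]
  have hVlow : 1 / L ^ (2 * k) ≤ V := by
    rw [hV]
    refine le_trans (le_of_eq ?_) (Vr_low w z hwk h l hS0)
    rw [Real.exp_neg, one_div]
    congr 1
    rw [← hexl, ← Real.exp_nat_mul]
    congr 1
    push_cast
    ring
  rw [hL] at hVlow
  refine ⟨hwk, hVlow, ?_⟩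
  rw [← hL] at hVlow
  have hV0 : 0 < V := lt_of_lt_of_le (by positivity) hVlow
  have ht1 : 1 ≤ t := by
    have : (1 : ℝ) ≤ L ^ A2 := one_le_pow₀ hL1
    linarith
  -- few bad primes
  have hexp : Real.exp (2 * k * v / w) ≤ 1 + δ := by
    rw [← Real.exp_log (show (0 : ℝ) < 1 + δ by linarith)]
    apply Real.exp_le_exp.2
    rw [div_le_iff₀ hw0]
    have q1 : 2 * k * ((C : ℝ) + 1) ≤ K1 * Real.log (1 + δ) := by rwa [div_le_iff₀ hlδ] at hK1
    calc (2 * k * v : ℝ) ≤ 2 * k * ((C + 1) * l) := by gcongr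
      _ = (2 * k * ((C : ℝ) + 1)) * l := by ring
      _ ≤ (K1 * Real.log (1 + δ)) * l := by
          apply mul_le_mul_of_nonneg_right q1 (by linarith)
      _ = Real.log (1 + δ) * (K1 * l) := by ring
      _ ≤ _ := mul_le_mul_of_nonneg_left hKw.1 hlδ.le
  -- the rare part
  have hrare : (X : ℝ) * Real.exp (3 * ((k ^ 2 * e : ℕ) * l) - v) + ((z : ℝ) + 1) ^ v * ((k ^ 2 * e : ℕ) : ℝ) ^ v ≤ δ * K.card * V ^ 2 := by
    have q1 : Real.exp (3 * ((k ^ 2 * e : ℕ) * l) - v) ≤ 1 / L ^ A2 := by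
      rw [one_div, ← hexl, ← Real.exp_nat_mul, ← Real.exp_neg]
      apply Real.exp_le_exp.2
      have : (C : ℝ) = 3 * (k ^ 2 * e : ℕ) + A2 := by rw [hC]; push_cast; ring
      rw [this] at hv1
      push_cast at hv1 ⊢
      linarith
    have q2 : ((z : ℝ) + 1) ^ v * ((k ^ 2 * e : ℕ) : ℝ) ^ v ≤ t := by
      apply le_of_pow_le_pow_left₀ he40 ht0
      rw [ht40, ← mul_pow, ← pow_mul]
      have q3 : ((z : ℝ) + 1) * ((k ^ 2 * e : ℕ) : ℝ) ≤ L ^ (E + 2) := by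
        have q4 : ((k ^ 2 * e : ℕ) : ℝ) ≤ L := by push_cast; linarith
        have q5 : (z : ℝ) + 1 ≤ L ^ E * L := by
          have : (1 : ℝ) ≤ L ^ E := le_trans hzr hz2
          nlinarith
        calc ((z : ℝ) + 1) * ((k ^ 2 * e : ℕ) : ℝ) ≤ (L ^ E * L) * L := mul_le_mul q5 q4 (Nat.cast_nonneg _) (by positivity)
          _ = _ := by ring
      calc (((z : ℝ) + 1) * ((k ^ 2 * e : ℕ) : ℝ)) ^ (v * (40 * e)) ≤ (L ^ (E + 2)) ^ (v * (40 * e)) := pow_le_pow_left₀ (by positivity) q3 _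
        _ = Real.exp (((E + 2) * (v * (40 * e)) : ℕ) * l) := by rw [← pow_mul, ← hexl, ← Real.exp_nat_mul]
        _ ≤ Real.exp (Real.log N) := by
            apply Real.exp_le_exp.2
            rw [← hL]
            refine le_trans ?_ hll
            push_cast
            have q6 : ((E : ℝ) + 2) * (v * (40 * e)) * l ≤ ((E : ℝ) + 2) * (((C + 1) * l) * (40 * e)) * l := by gcongr
            refine q6.trans (le_of_eq ?_)
            ring
        _ = N := Real.exp_log hN0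
    have hX0 : (0 : ℝ) ≤ X := Nat.cast_nonneg _
    have q3 : t ≤ X / L ^ A2 := by
      rw [le_div_iff₀ (by positivity)]
      have ht2 : t ^ 2 ≤ X := by
        apply le_of_pow_le_pow_left₀ (n := 20 * e) (by omega) hX0
        rw [← pow_mul, show 2 * (20 * e) = 40 * e by ring, ht40]
        exact_mod_cast hXN
      calc t * L ^ A2 ≤ t * t := mul_le_mul_of_nonneg_left hLt ht0
        _ = t ^ 2 := by ring
        _ ≤ X := ht2
    have q4 : (X : ℝ) / L ^ A2 + X / L ^ A2 ≤ δ * K.card * V ^ 2 := by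
      have q5 : (1 / L ^ (2 * k)) ^ 2 ≤ V ^ 2 := pow_le_pow_left₀ (by positivity) hVlow 2
      have q6 : δ * (X / L ^ A) * (1 / L ^ (2 * k)) ^ 2 ≤ δ * K.card * V ^ 2 := by gcongr
      refine le_trans ?_ q6
      have e1 : L ^ A2 = L ^ A * (L ^ (2 * k)) ^ 2 * L := by rw [hA2]; ring
      have e2 : (X : ℝ) / L ^ A2 + X / L ^ A2 = (2 / δ) / L * (δ * (X / L ^ A) * (1 / L ^ (2 * k)) ^ 2) := by
        rw [e1]
        field_simp
        ring
      rw [e2]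
      have e3 : (2 / δ) / L ≤ 1 := by rw [div_le_one hL0]; exact hLδ
      calc _ ≤ 1 * (δ * ((X : ℝ) / L ^ A) * (1 / L ^ (2 * k)) ^ 2) := mul_le_mul_of_nonneg_right e3 (by positivity)
        _ = _ := one_mul _
    calc _ ≤ (X : ℝ) * (1 / L ^ A2) + t := add_le_add (mul_le_mul_of_nonneg_left q1 hX0) q2
      _ = X / L ^ A2 + t := by ring
      _ ≤ X / L ^ A2 + X / L ^ A2 := by linarith
      _ ≤ _ := q4
  -- one point
  have hone : ∀ s ∈ K, ∑ s' ∈ K, Vr w z (c2 h (-((Wp w : ℤ) * S s)) (-((Wp w : ℤ) * S s'))) ≤ (1 + 12 * δ) * K.card * V ^ 2 := by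
    intro s _
    rw [← sum_filter_add_sum_filter_not K (fun s' => v ≤ (bad w z h (S s) (S s')).card)]
    have h1 : ∑ s' ∈ K.filter (fun s' => v ≤ (bad w z h (S s) (S s')).card), Vr w z (c2 h (-((Wp w : ℤ) * S s)) (-((Wp w : ℤ) * S s'))) ≤ δ * K.card * V ^ 2 := by
      refine le_trans ?_ ((rare_w e z w X v h (S s) K S hF l hS0).trans hrare)
      rw [card_eq_sum_ones]
      push_cast
      exact sum_le_sum fun _ _ => Vr_le_one _ _ _
    have h2 : ∑ s' ∈ K.filter (fun s' => ¬ v ≤ (bad w z h (S s) (S s')).card), Vr w z (c2 h (-((Wp w : ℤ) * S s)) (-((Wp w : ℤ) * S s'))) ≤ K.card * (V ^ 2 * (1 + δ)) := by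
      have h3 : ∀ s' ∈ K.filter (fun s' => ¬ v ≤ (bad w z h (S s) (S s')).card), Vr w z (c2 h (-((Wp w : ℤ) * S s)) (-((Wp w : ℤ) * S s'))) ≤ V ^ 2 * (1 + δ) := by
        intro s' hs'
        rw [mem_filter] at hs'
        refine (pair_fac w z v hw1 hwk h (S s) (S s') (not_le.1 hs'.2)).trans ?_
        rw [← hV]
        exact mul_le_mul_of_nonneg_left hexp (sq_nonneg _)
      refine (sum_le_sum h3).trans ?_
      rw [sum_const, nsmul_eq_mul]
      apply mul_le_mul_of_nonneg_right _ (by positivity)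
      exact_mod_cast card_filter_le _ _
    have h4 : (0 : ℝ) ≤ K.card * V ^ 2 := by positivity
    nlinarith
  rw [sum_product]
  refine (sum_le_sum hone).trans (le_of_eq ?_)
  rw [sum_const, nsmul_eq_mul]
  ring

end Pool.Agent.L0h42.PP
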