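import Mathlib
import Pool.Agent.L0h42.PP.P3

/-! The variance along a progression and a sequence. -/

set_option autoImplicit false
set_option linter.unusedSectionVars false
set_option linter.unusedVariables false

namespace Pool.Agent.L0h42.PP
open Finset
open Pool.Agent.L0h42.TB
open Pool.Agent.L0h42.EG
open Pool.Agent.L0h42.CP
open Pool.Agent.H373R2.T7

/-- the sum over the shifted points -/
noncomputable def TS {k : ℕ} (z R W g : ℕ) (K : Finset ℕ) (S : ℕ → ℕ) (h : Fin k → ℕ) (Λ : (Fin k → ℕ) → ℝ) (n : ℕ) : ℝ :=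
  ∑ t ∈ K, FF z R h Λ (W * (n - S t) + g)

open Classical in
/-- **the variance.** -/
theorem variance_w (hWC : S_WC) (k A B e K' : ℕ) (hk : 1 ≤ k) (he : 1 ≤ e) :
    ∃ E0 : ℕ, ∀ E : ℕ, ∀ δ : ℝ, 0 < δ → δ ≤ 1 → ∃ N0 : ℕ, ∀ N : ℕ, N0 ≤ N → ∀ z R Y w g X : ℕ,
    Real.log N ^ E0 ≤ z → (z : ℝ) ≤ Real.log N ^ E → 1 ≤ R → R ^ 80 ≤ N → R * (R * (R * R)) ≤ X → Wp w * (4 * Y) + g ≤ N → N / Real.log N ^ K' ≤ Y →
    1 ≤ w → w ≤ z → ∀ h : Fin k → ℕ, Function.Injective h → (∀ l, h l ≤ z) → (∀ l, ∀ p ∈ pz w, ¬ p ∣ g + h l) →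
    ∀ K : Finset ℕ, K.card ≤ X → X / Real.log N ^ A ≤ K.card → ∀ S : ℕ → ℕ, (∀ t ∈ K, 1 ≤ S t ∧ S t ≤ Y) → Few e w X K S → 1 / Real.log N ^ (2 * k) ≤ Vr w z (cneg h) →
    (∑ t ∈ K ×ˢ K, Vr w z (c2 h (-((Wp w : ℤ) * S t.1)) (-((Wp w : ℤ) * S t.2))) ≤ (1 + 12 * δ) * (K.card) ^ 2 * Vr w z (cneg h) ^ 2) →
    ∀ Λ : (Fin k → ℕ) → ℝ,
    (∀ d ∈ PD (Fin k) z R, |Λ d| ≤ Real.log N ^ B) → (∀ d, Λ d ≠ 0 → ∏ l, d l ≤ R) → 1 ≤ Qf z R Λ →
    (((Ioc (2 * Y) (4 * Y)).filter (fun n => K.card * Vr w z (cneg h) * Qf z R Λ / 2 <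
      |TS z R (Wp w) g K S h Λ n - K.card * Vr w z (cneg h) * Qf z R Λ|)).card : ℝ) ≤ 104 * δ * Y := by
  obtain ⟨A', hA'⟩ : ∃ A', A' = 3 * K' + 2 * A + 4 * k + 1 := ⟨_, rfl⟩
  obtain ⟨e1, he1⟩ := second_w hWC k A' B e hk he
  obtain ⟨e2, he2⟩ := first_aff k A' B hk
  refine ⟨max e1 e2, fun E δ hδ hδ1 => ?_⟩
  obtain ⟨m1, h1⟩ := he1 E
  obtain ⟨m2, h2⟩ := he2 E
  obtain ⟨m4, h4⟩ := ev_L' (max 3 (2 / δ))
  refine ⟨max (max m1 m2) (max m4 3), ?_⟩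
  intro N hN z R Y w g X hz1 hz2 hR1 hR hRX hY hYN hw1 hwz h hinj hhz hg K hK hMc S hS hF hVz g3 Λ hΛ hs hQ
  have n1 : m1 ≤ N := le_trans (le_trans (le_max_left _ _) (le_max_left _ _)) hN
  have n2 : m2 ≤ N := le_trans (le_trans (le_max_right _ _) (le_max_left _ _)) hN
  have nn := le_trans (le_max_right _ _) hN
  have n4 : m4 ≤ N := le_trans (le_max_left _ _) nn
  have hN3 : 3 ≤ N := le_trans (le_max_right _ _) nn
  have hN1 : 1 ≤ N := by omega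
  have hN0 : (0 : ℝ) < N := by exact_mod_cast hN1
  have b4 := h4 N n4
  set L := Real.log N with hLd
  have hL3 : (3 : ℝ) ≤ L := le_trans (le_max_left _ _) b4
  have hLδ : 2 / δ ≤ L := le_trans (le_max_right _ _) b4
  have hL0 : 0 < L := by linarith
  have hL1 : 1 ≤ L := by linarith
  have hze1 : L ^ e1 ≤ z := (pow_le_pow_right₀ hL1 (le_max_left _ _)).trans hz1
  have hze2 : L ^ e2 ≤ z := (pow_le_pow_right₀ hL1 (le_max_right _ _)).trans hz1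
  have g1 := h1 N n1 z R Y w g X hze1 hz2 hR1 hR hRX hY hw1 hwz h hinj hhz hg K hK S hS hF Λ hΛ hs
  have g2 := h2 N n2 z R Y w g hze2 hz2 hR1 hR hY hw1 hwz h hinj hhz hg Λ hΛ hs
  obtain ⟨V, hV⟩ : ∃ V, V = Vr w z (cneg h) := ⟨_, rfl⟩
  obtain ⟨Q, hQd⟩ : ∃ Q, Q = Qf z R Λ := ⟨_, rfl⟩
  rw [← hV] at hVz g2 g3 ⊢
  rw [← hQd] at g1 g2 hQ ⊢
  have hV0 : 0 < V := lt_of_lt_of_le (by positivity) hVz
  have hQ0 : 0 < Q := by linarith
  have hY0 : (0 : ℝ) < Y := lt_of_lt_of_le (by positivity) hYN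
  have hX1 : 1 ≤ X := by
    refine le_trans ?_ hRX
    have : 0 < R * (R * (R * R)) := by positivity
    exact this
  have hX0 : (0 : ℝ) < X := by exact_mod_cast hX1
  have hMc0 : (0 : ℝ) < K.card := lt_of_lt_of_le (by positivity) hMc
  obtain ⟨μ, hμ⟩ : ∃ μ, μ = K.card * V := ⟨_, rfl⟩
  have hμ0 : 0 < μ := by rw [hμ]; positivity
  rw [← hμ]
  -- the second moment
  have s2 : ∑ n ∈ Ioc (2 * Y) (4 * Y), TS z R (Wp w) g K S h Λ n ^ 2 ≤ 2 * Y * ((1 + 12 * δ) * μ ^ 2) * Q ^ 2 + N * X ^ 2 / L ^ A' := by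
    have e1 : ∑ n ∈ Ioc (2 * Y) (4 * Y), TS z R (Wp w) g K S h Λ n ^ 2 =
        ∑ t ∈ K ×ˢ K, ∑ n ∈ Ioc (2 * Y) (4 * Y), FF z R h Λ (Wp w * (n - S t.1) + g) * FF z R h Λ (Wp w * (n - S t.2) + g) := by
      rw [sum_comm]
      apply sum_congr rfl
      intro n _
      unfold TS
      rw [sum_prod_mul K K (fun s => FF z R h Λ (Wp w * (n - S s) + g)) (fun s => FF z R h Λ (Wp w * (n - S s) + g)), sq]
    rw [e1]
    have e2 : ∀ t ∈ K ×ˢ K, ∑ n ∈ Ioc (2 * Y) (4 * Y), FF z R h Λ (Wp w * (n - S t.1) + g) * FF z R h Λ (Wp w * (n - S t.2) + g) ≤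
        2 * Y * Q ^ 2 * Vr w z (c2 h (-((Wp w : ℤ) * S t.1)) (-((Wp w : ℤ) * S t.2))) +
        |∑ n ∈ Ioc (2 * Y) (4 * Y), FF z R h Λ (Wp w * (n - S t.1) + g) * FF z R h Λ (Wp w * (n - S t.2) + g) -
          2 * Y * Vr w z (c2 h (-((Wp w : ℤ) * S t.1)) (-((Wp w : ℤ) * S t.2))) * (Q * Q)| := by
      intro t _
      have := le_abs_self (∑ n ∈ Ioc (2 * Y) (4 * Y), FF z R h Λ (Wp w * (n - S t.1) + g) * FF z R h Λ (Wp w * (n - S t.2) + g) -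
          2 * Y * Vr w z (c2 h (-((Wp w : ℤ) * S t.1)) (-((Wp w : ℤ) * S t.2))) * (Q * Q))
      linarith
    refine (sum_le_sum e2).trans ?_
    rw [sum_add_distrib, ← mul_sum]
    apply add_le_add _ g1
    calc 2 * Y * Q ^ 2 * ∑ t ∈ K ×ˢ K, Vr w z (c2 h (-((Wp w : ℤ) * S t.1)) (-((Wp w : ℤ) * S t.2))) ≤
        2 * Y * Q ^ 2 * ((1 + 12 * δ) * (K.card) ^ 2 * V ^ 2) := mul_le_mul_of_nonneg_left g3 (by positivity)
      _ = _ := by rw [hμ]; ring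
  -- the first moment
  have s1 : 2 * Y * μ * Q - K.card * (N / L ^ A') ≤ ∑ n ∈ Ioc (2 * Y) (4 * Y), TS z R (Wp w) g K S h Λ n := by
    unfold TS
    rw [sum_comm]
    have e1 : ∀ s ∈ K, 2 * Y * V * Q - N / L ^ A' ≤ ∑ n ∈ Ioc (2 * Y) (4 * Y), FF z R h Λ (Wp w * (n - S s) + g) := by
      intro s hs'
      have j1 := hS s hs'
      have := (abs_le.1 (g2 (S s) j1.1 j1.2)).1
      linarith
    refine le_trans (le_of_eq ?_) (sum_le_sum e1)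
    rw [sum_const, nsmul_eq_mul, hμ]
    ring
  -- the variance
  have hvar : ∑ n ∈ Ioc (2 * Y) (4 * Y), (TS z R (Wp w) g K S h Λ n - μ * Q) ^ 2 ≤ 26 * δ * Y * (μ * Q) ^ 2 := by
    have e1 : ∑ n ∈ Ioc (2 * Y) (4 * Y), (TS z R (Wp w) g K S h Λ n - μ * Q) ^ 2 =
        ∑ n ∈ Ioc (2 * Y) (4 * Y), TS z R (Wp w) g K S h Λ n ^ 2 - 2 * (μ * Q) * ∑ n ∈ Ioc (2 * Y) (4 * Y), TS z R (Wp w) g K S h Λ n + 2 * Y * (μ * Q) ^ 2 := by
      have e2 : ∀ n ∈ Ioc (2 * Y) (4 * Y), (TS z R (Wp w) g K S h Λ n - μ * Q) ^ 2 = TS z R (Wp w) g K S h Λ n ^ 2 - 2 * (μ * Q) * TS z R (Wp w) g K S h Λ n + (μ * Q) ^ 2 := by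
        intro n _; ring
      rw [sum_congr rfl e2, sum_add_distrib, sum_sub_distrib, ← mul_sum, sum_const, Nat.card_Ioc, nsmul_eq_mul]
      have : 4 * Y - 2 * Y = 2 * Y := by omega
      rw [this]
      push_cast
      ring
    rw [e1]
    have s1' := mul_le_mul_of_nonneg_left s1 (show 0 ≤ 2 * (μ * Q) by positivity)
    have e5 : (2 / δ) / L ≤ 1 := by rw [div_le_one hL0]; exact hLδ
    have q1 : (K.card : ℝ) * (1 / L ^ (2 * k)) ≤ μ * Q := by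
      rw [hμ]
      calc (K.card : ℝ) * (1 / L ^ (2 * k)) ≤ K.card * V := by gcongr
        _ = K.card * V * 1 := by ring
        _ ≤ K.card * V * Q := mul_le_mul_of_nonneg_left hQ (by positivity)
    have t1 : (N : ℝ) * X ^ 2 / L ^ A' ≤ δ * Y * (μ * Q) ^ 2 := by
      have q0 : (X : ℝ) / L ^ A * (1 / L ^ (2 * k)) ≤ μ * Q := by
        refine le_trans ?_ q1
        gcongr
      have q2 : δ * (N / L ^ K') * ((X : ℝ) / L ^ A * (1 / L ^ (2 * k))) ^ 2 ≤ δ * Y * (μ * Q) ^ 2 := by gcongr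
      refine le_trans ?_ q2
      have e3 : L ^ A' = L ^ K' * (L ^ A) ^ 2 * (L ^ (2 * k)) ^ 2 * (L * L ^ (2 * K')) := by rw [hA']; ring
      have e4 : (N : ℝ) * X ^ 2 / L ^ A' = (1 / 2) * ((2 / δ) / L) * (1 / L ^ (2 * K')) * (δ * (N / L ^ K') * ((X : ℝ) / L ^ A * (1 / L ^ (2 * k))) ^ 2) := by
        rw [e3]
        field_simp
      rw [e4]
      have e5' : 1 / L ^ (2 * K') ≤ 1 := by
        rw [div_le_one (by positivity)]
        exact one_le_pow₀ hL1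
      have e6 : (1 / 2) * ((2 / δ) / L) * (1 / L ^ (2 * K')) ≤ 1 := by
        have e7 : (1 / 2) * ((2 / δ) / L) ≤ 1 := by linarith
        exact mul_le_one₀ e7 (by positivity) e5'
      calc _ ≤ 1 * (δ * (N / L ^ K') * ((X : ℝ) / L ^ A * (1 / L ^ (2 * k))) ^ 2) := mul_le_mul_of_nonneg_right e6 (by positivity)
        _ = _ := one_mul _
    have t2 : 2 * (μ * Q) * (K.card * (N / L ^ A')) ≤ δ * Y * (μ * Q) ^ 2 := by
      have q1' : 2 * (K.card * (N / L ^ A')) ≤ δ * Y * (μ * Q) := by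
        have q3 : δ * (N / L ^ K') * ((K.card : ℝ) * (1 / L ^ (2 * k))) ≤ δ * Y * (μ * Q) := by gcongr
        refine le_trans ?_ q3
        have e3 : L ^ A' = L ^ (2 * K' + 2 * A + 2 * k) * L ^ K' * L ^ (2 * k) * L := by rw [hA']; ring
        have e4 : 2 * ((K.card : ℝ) * (N / L ^ A')) = (2 / δ) / L * (1 / L ^ (2 * K' + 2 * A + 2 * k)) * (δ * (N / L ^ K') * ((K.card : ℝ) * (1 / L ^ (2 * k)))) := by
          rw [e3]
          field_simp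
        rw [e4]
        have e6 : 1 / L ^ (2 * K' + 2 * A + 2 * k) ≤ 1 := by
          rw [div_le_one (by positivity)]
          exact one_le_pow₀ hL1
        have e7 : (2 / δ) / L * (1 / L ^ (2 * K' + 2 * A + 2 * k)) ≤ 1 := mul_le_one₀ e5 (by positivity) e6
        calc _ ≤ 1 * (δ * (N / L ^ K') * ((K.card : ℝ) * (1 / L ^ (2 * k)))) := mul_le_mul_of_nonneg_right e7 (by positivity)
          _ = _ := one_mul _
      calc 2 * (μ * Q) * (K.card * (N / L ^ A')) = (μ * Q) * (2 * (K.card * (N / L ^ A'))) := by ring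
        _ ≤ (μ * Q) * (δ * Y * (μ * Q)) := mul_le_mul_of_nonneg_left q1' (by positivity)
        _ = _ := by ring
    nlinarith
  have hmk := markov (Ioc (2 * Y) (4 * Y)) (fun n => (TS z R (Wp w) g K S h Λ n - μ * Q) ^ 2) (fun n _ => sq_nonneg _) ((μ * Q / 2) ^ 2) (by positivity) _ hvar
    (fun n => μ * Q / 2 < |TS z R (Wp w) g K S h Λ n - μ * Q|) (by
      intro n _ hn
      rw [← sq_abs (TS z R (Wp w) g K S h Λ n - μ * Q)]
      exact pow_le_pow_left₀ (by positivity) hn.le 2)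
  refine hmk.trans (le_of_eq ?_)
  field_simp
  ring

end Pool.Agent.L0h42.PP
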