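import Mathlib

set_option autoImplicit false

namespace Pool.Agent.L0h42.PP
open Finset

/-- roots modulo a prime that does not divide the leading coefficient -/
lemma pc_prime (f : Polynomial ℤ) (hd : 1 ≤ f.natDegree) (r : ℤ) (p : ℕ) (hp : p.Prime)
    (hlt : f.leadingCoeff.natAbs < p) :
    ((range p).filter (fun t : ℕ => (p : ℤ) ∣ f.eval (t : ℤ) - r)).card ≤ f.natDegree := by
  classical
  haveI : Fact p.Prime := ⟨hp⟩
  set g : Polynomial ℤ := f - Polynomial.C r with hg
  have hgd : g.natDegree = f.natDegree := Polynomial.natDegree_sub_C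
  have hgc : g.coeff f.natDegree = f.leadingCoeff := by
    rw [hg, Polynomial.coeff_sub, Polynomial.coeff_C, if_neg (by omega), sub_zero]
    rfl
  have hf0 : f ≠ 0 := by rintro rfl; simp at hd
  have hc0 : f.leadingCoeff ≠ 0 := Polynomial.leadingCoeff_ne_zero.2 hf0
  set gp := g.map (Int.castRingHom (ZMod p)) with hgp
  have hgp0 : gp ≠ 0 := by
    intro h0
    have h1 : gp.coeff f.natDegree = 0 := by rw [h0]; simp
    rw [hgp, Polynomial.coeff_map, hgc] at h1
    have h2 : (p : ℤ) ∣ f.leadingCoeff := by
      rw [← ZMod.intCast_zmod_eq_zero_iff_dvd]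
      simpa using h1
    have h3 : p ∣ f.leadingCoeff.natAbs := Int.natCast_dvd.1 h2
    have h4 : 0 < f.leadingCoeff.natAbs := Int.natAbs_pos.2 hc0
    exact absurd (Nat.le_of_dvd h4 h3) (by omega)
  calc ((range p).filter (fun t : ℕ => (p : ℤ) ∣ f.eval (t : ℤ) - r)).card
      ≤ gp.roots.toFinset.card := by
        apply card_le_card_of_injOn (fun t : ℕ => (t : ZMod p))
        · intro t ht
          rw [mem_coe, mem_filter, mem_range] at ht
          rw [mem_coe, Multiset.mem_toFinset, Polynomial.mem_roots hgp0, Polynomial.IsRoot.def, hgp]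
          have e1 := Polynomial.eval_intCast_map (Int.castRingHom (ZMod p)) g (t : ℤ)
          have e2 : ((t : ℤ) : ZMod p) = (t : ZMod p) := by push_cast; rfl
          rw [e2] at e1
          rw [e1]
          have e3 : (Int.castRingHom (ZMod p)) (g.eval (t : ℤ)) = 0 := by
            have : g.eval (t : ℤ) = f.eval (t : ℤ) - r := by rw [hg]; simp
            rw [this]
            show ((f.eval (t : ℤ) - r : ℤ) : ZMod p) = 0
            rw [ZMod.intCast_zmod_eq_zero_iff_dvd]
            exact ht.2
          simpa using e3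
        · intro t ht t' ht' h
          rw [mem_coe, mem_filter, mem_range] at ht ht'
          have h1 : (t : ZMod p) = (t' : ZMod p) := h
          rw [ZMod.natCast_eq_natCast_iff'] at h1
          rwa [Nat.mod_eq_of_lt ht.1, Nat.mod_eq_of_lt ht'.1] at h1
    _ ≤ Multiset.card gp.roots := Multiset.toFinset_card_le _
    _ ≤ gp.natDegree := Polynomial.card_roots' _
    _ ≤ g.natDegree := Polynomial.natDegree_map_le
    _ = f.natDegree := hgd

lemma pc_mod (f : Polynomial ℤ) (hd : 1 ≤ f.natDegree) (r : ℤ) (P : ℕ) (hP : Squarefree P)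
    (hpr : ∀ p, p.Prime → p ∣ P → f.leadingCoeff.natAbs < p) :
    ((range P).filter (fun t : ℕ => (P : ℤ) ∣ f.eval (t : ℤ) - r)).card ≤
      f.natDegree ^ P.primeFactors.card := by
  classical
  have hprod : ∏ p ∈ P.primeFactors, p = P := Nat.prod_primeFactors_of_squarefree hP
  calc ((range P).filter (fun t : ℕ => (P : ℤ) ∣ f.eval (t : ℤ) - r)).card
      ≤ (P.primeFactors.pi (fun p => (range p).filter (fun t : ℕ => (p : ℤ) ∣ f.eval (t : ℤ) - r))).card := by
        apply card_le_card_of_injOn (fun t : ℕ => fun p _ => t % p)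
        · intro t ht
          rw [mem_coe, mem_filter, mem_range] at ht
          rw [mem_coe, mem_pi]
          intro p hp
          have hpp := Nat.prime_of_mem_primeFactors hp
          have hpd := Nat.dvd_of_mem_primeFactors hp
          rw [mem_filter, mem_range]
          refine ⟨Nat.mod_lt _ hpp.pos, ?_⟩
          have h1 : (p : ℤ) ∣ f.eval (t : ℤ) - r := (Int.natCast_dvd_natCast.2 hpd).trans ht.2
          have h2 : ((t : ℤ) - ((t % p : ℕ) : ℤ)) ∣ f.eval (t : ℤ) - f.eval ((t % p : ℕ) : ℤ) :=
            Polynomial.sub_dvd_eval_sub _ _ _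
          have h3 : (p : ℤ) ∣ ((t : ℤ) - ((t % p : ℕ) : ℤ)) := by
            push_cast
            exact Int.dvd_self_sub_emod
          have h4 := h3.trans h2
          have h5 := dvd_sub h1 h4
          have e : f.eval (t : ℤ) - r - (f.eval (t : ℤ) - f.eval ((t % p : ℕ) : ℤ)) = f.eval ((t % p : ℕ) : ℤ) - r := by ring
          rwa [e] at h5
        · intro t ht t' ht' h
          rw [mem_coe, mem_filter, mem_range] at ht ht'
          have h0 : ∀ p ∈ P.primeFactors, t % p = t' % p := fun p hp => congrFun (congrFun h p) hp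
          wlog hle : t ≤ t' generalizing t t'
          · exact (this ht' ht h.symm (fun p hp => (h0 p hp).symm) (by omega)).symm
          have h1 : P ∣ t' - t := by
            rw [← hprod]
            apply Finset.prod_primes_dvd
            · intro p hp
              exact (Nat.prime_of_mem_primeFactors hp).prime
            · intro p hp
              exact (Nat.modEq_iff_dvd' hle).1 (h0 p hp)
          rcases Nat.eq_zero_or_pos (t' - t) with h2 | h2
          · omega
          · have := Nat.le_of_dvd h2 h1
            omega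
    _ = ∏ p ∈ P.primeFactors, ((range p).filter (fun t : ℕ => (p : ℤ) ∣ f.eval (t : ℤ) - r)).card := card_pi _ _
    _ ≤ ∏ _p ∈ P.primeFactors, f.natDegree := by
        apply prod_le_prod'
        intro p hp
        exact pc_prime f hd r p (Nat.prime_of_mem_primeFactors hp) (hpr p (Nat.prime_of_mem_primeFactors hp) (Nat.dvd_of_mem_primeFactors hp))
    _ = _ := by rw [prod_const]

lemma pc_count (f : Polynomial ℤ) (hd : 1 ≤ f.natDegree) (r : ℤ) (P : ℕ) (hP : Squarefree P)
    (hpr : ∀ p, p.Prime → p ∣ P → f.leadingCoeff.natAbs < p) (x : ℕ) :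
    (((Icc 1 x).filter (fun t : ℕ => (P : ℤ) ∣ f.eval (t : ℤ) - r)).card : ℝ) ≤
      (f.natDegree : ℝ) ^ P.primeFactors.card * (x / P + 1) := by
  classical
  have hP0 : 0 < P := Nat.pos_of_ne_zero hP.ne_zero
  set S := (range P).filter (fun t : ℕ => (P : ℤ) ∣ f.eval (t : ℤ) - r) with hS
  have h1 : ((Icc 1 x).filter (fun t : ℕ => (P : ℤ) ∣ f.eval (t : ℤ) - r)).card ≤ S.card * (x / P + 1) := by
    rw [mul_comm]
    apply card_le_mul_card_image_of_maps_to (f := fun t => t % P)
    · intro t ht
      rw [mem_filter, mem_Icc] at ht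
      rw [hS, mem_filter, mem_range]
      refine ⟨Nat.mod_lt _ hP0, ?_⟩
      have h2 : ((t : ℤ) - ((t % P : ℕ) : ℤ)) ∣ f.eval (t : ℤ) - f.eval ((t % P : ℕ) : ℤ) :=
        Polynomial.sub_dvd_eval_sub _ _ _
      have h3 : (P : ℤ) ∣ ((t : ℤ) - ((t % P : ℕ) : ℤ)) := by
        push_cast
        exact Int.dvd_self_sub_emod
      have h5 := dvd_sub ht.2 (h3.trans h2)
      have e : f.eval (t : ℤ) - r - (f.eval (t : ℤ) - f.eval ((t % P : ℕ) : ℤ)) = f.eval ((t % P : ℕ) : ℤ) - r := by ring
      rwa [e] at h5
    · intro s _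
      calc _ ≤ (range (x / P + 1)).card := by
            apply card_le_card_of_injOn (fun t => t / P)
            · intro t ht
              rw [mem_coe, mem_filter, mem_filter, mem_Icc] at ht
              rw [mem_coe, mem_range]
              exact Nat.lt_succ_of_le (Nat.div_le_div_right ht.1.1.2)
            · intro t ht t' ht' h
              rw [mem_coe, mem_filter] at ht ht'
              have h : t / P = t' / P := h
              have e1 := Nat.div_add_mod t P
              have e2 := Nat.div_add_mod t' P
              rw [h, ht.2] at e1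
              rw [ht'.2] at e2
              omega
        _ = x / P + 1 := card_range _
  have h2 := pc_mod f hd r P hP hpr
  have h3 : ((x / P : ℕ) : ℝ) ≤ (x : ℝ) / P := Nat.cast_div_le
  calc (((Icc 1 x).filter (fun t : ℕ => (P : ℤ) ∣ f.eval (t : ℤ) - r)).card : ℝ)
      ≤ ((S.card * (x / P + 1) : ℕ) : ℝ) := by exact_mod_cast h1
    _ = (S.card : ℝ) * (((x / P : ℕ) : ℝ) + 1) := by push_cast; ring
    _ ≤ ((f.natDegree ^ P.primeFactors.card : ℕ) : ℝ) * ((x : ℝ) / P + 1) := by
        apply mul_le_mul (by exact_mod_cast h2) (by linarith) (by positivity) (by positivity)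
    _ = _ := by push_cast; ring

end Pool.Agent.L0h42.PP
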