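import Mathlib
import Pool.Agent.L0h42.PP.P4
import Pool.Agent.L0h42.PP.PCa

/-! Many primes after the differences with a sequence, along a progression. -/

set_option autoImplicit false
set_option linter.unusedSectionVars false
set_option linter.unusedVariables false

namespace Pool.Agent.L0h42.PP
open Finset
open Pool.Agent.L0h42.TB
open Pool.Agent.L0h42.EG
open Pool.Agent.L0h42.CP
open Pool.Agent.H373R2.T7

lemma ll_large (c : ℝ) : ∃ N0 : ℕ, ∀ N : ℕ, N0 ≤ N → c ≤ Real.log (Real.log N) := by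
  have hlim : Filter.Tendsto (fun N : ℕ => Real.log (Real.log (N : ℝ))) Filter.atTop Filter.atTop :=
    Real.tendsto_log_atTop.comp (Real.tendsto_log_atTop.comp (tendsto_natCast_atTop_atTop (R := ℝ)))
  obtain ⟨N0, h0⟩ := Filter.eventually_atTop.1 (hlim.eventually_ge_atTop c)
  exact ⟨N0, h0⟩

lemma class_fiber (P W s g X : ℕ) (hc : P.Coprime W) (hP : 0 < P) (hW : 0 < W) :
    ((Icc 1 X).filter (fun t => t % P = s ∧ t % W = g)).card ≤ X / W / P + 1 := by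
  calc _ ≤ (range (X / W / P + 1)).card := by
        apply card_le_card_of_injOn (fun t => t / (W * P))
        · intro t ht
          rw [mem_coe, mem_filter, mem_Icc] at ht
          rw [mem_coe, mem_range]
          show t / (W * P) < X / W / P + 1
          rw [Nat.div_div_eq_div_mul]
          exact Nat.lt_succ_of_le (Nat.div_le_div_right ht.1.2)
        · intro t ht t' ht' h
          rw [mem_coe, mem_filter] at ht ht'
          have h : t / (W * P) = t' / (W * P) := h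
          have h1 : t ≡ t' [MOD P] := by
            show t % P = t' % P
            rw [ht.2.1, ht'.2.1]
          have h2 : t ≡ t' [MOD W] := by
            show t % W = t' % W
            rw [ht.2.2, ht'.2.2]
          have h3 : t % (W * P) = t' % (W * P) := (Nat.modEq_and_modEq_iff_modEq_mul hc.symm).1 ⟨h2, h1⟩
          have e1 := Nat.div_add_mod t (W * P)
          have e2 := Nat.div_add_mod t' (W * P)
          rw [h, h3] at e1
          omega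
    _ = _ := card_range _

/-- few members in a class, for the values of a polynomial at the integers of a class -/
lemma few_poly (f : Polynomial ℤ) {e : ℕ} (he : 1 ≤ e) (hfe : f.natDegree = e) (w : ℕ) (hw : f.leadingCoeff.natAbs ≤ w) (X U t0 : ℕ) (hU : X / Wp w ≤ U)
    (K : Finset ℕ) (hK : K ⊆ Icc 1 X) (hKt : ∀ t ∈ K, t % Wp w = t0)
    (σ : ℤ) (hσ : σ = 1 ∨ σ = -1) (c : ℤ) (S : ℕ → ℕ) (hS : ∀ t ∈ K, (Wp w : ℤ) * S t = c - σ * f.eval (t : ℤ)) : Few e w U K S := by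
  classical
  intro P hP1 hP2 r
  have hP0 : 0 < P := Nat.pos_of_ne_zero hP1.ne_zero
  have hcop : P.Coprime (Wp w) := by
    apply Nat.Coprime.symm
    unfold Wp
    apply Nat.Coprime.prod_left
    intro p hp
    rw [mem_pz] at hp
    refine (Nat.Prime.coprime_iff_not_dvd hp.2).2 fun hd => ?_
    have := hP2 p hp.2 hd
    omega
  have h2 := pc_mod f (by omega) (σ * (c - r)) P hP1 (fun p hp hd => lt_of_le_of_lt hw (hP2 p hp hd))
  rw [hfe] at h2
  obtain ⟨Rt, hRt⟩ : ∃ Rt, Rt = (range P).filter (fun t : ℕ => (P : ℤ) ∣ f.eval (t : ℤ) - σ * (c - r)) := ⟨_, rfl⟩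
  rw [← hRt] at h2
  have h1 : (K.filter (fun t => (P : ℤ) ∣ (Wp w : ℤ) * S t - r)).card ≤ Rt.card * (U / P + 1) := by
    rw [mul_comm]
    apply card_le_mul_card_image_of_maps_to (f := fun t => t % P)
    · intro t ht
      rw [mem_filter] at ht
      have h2 := ht.2
      rw [hS t ht.1] at h2
      have hq : (P : ℤ) ∣ f.eval (t : ℤ) - σ * (c - r) := by
        rcases hσ with h | h
        · rw [h] at h2 ⊢
          have e1 : f.eval (t : ℤ) - 1 * (c - r) = -(c - 1 * f.eval (t : ℤ) - r) := by ring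
          rw [e1]
          exact (dvd_neg).2 h2
        · rw [h] at h2 ⊢
          have e1 : f.eval (t : ℤ) - (-1) * (c - r) = c - (-1) * f.eval (t : ℤ) - r := by ring
          rw [e1]
          exact h2
      rw [hRt, mem_filter, mem_range]
      refine ⟨Nat.mod_lt _ hP0, ?_⟩
      have h3 : ((t : ℤ) - ((t % P : ℕ) : ℤ)) ∣ f.eval (t : ℤ) - f.eval ((t % P : ℕ) : ℤ) :=
        Polynomial.sub_dvd_eval_sub _ _ _
      have h4 : (P : ℤ) ∣ ((t : ℤ) - ((t % P : ℕ) : ℤ)) := by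
        push_cast
        exact Int.dvd_self_sub_emod
      have h5 := dvd_sub hq (h4.trans h3)
      have e : f.eval (t : ℤ) - σ * (c - r) - (f.eval (t : ℤ) - f.eval ((t % P : ℕ) : ℤ)) = f.eval ((t % P : ℕ) : ℤ) - σ * (c - r) := by ring
      rwa [e] at h5
    · intro s _
      calc _ ≤ ((Icc 1 X).filter (fun t => t % P = s ∧ t % Wp w = t0)).card := by
            apply card_le_card
            intro t ht
            rw [mem_filter, mem_filter] at ht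
            rw [mem_filter]
            exact ⟨hK ht.1.1, ht.2, hKt t ht.1.1⟩
        _ ≤ X / Wp w / P + 1 := class_fiber P (Wp w) s t0 X hcop hP0 (Wp_pos w)
        _ ≤ U / P + 1 := by
            have := Nat.div_le_div_right (c := P) hU
            omega
  have h3 : ((U / P : ℕ) : ℝ) ≤ (U : ℝ) / P := Nat.cast_div_le
  calc ((K.filter (fun t => (P : ℤ) ∣ (Wp w : ℤ) * S t - r)).card : ℝ)
      ≤ ((Rt.card * (U / P + 1) : ℕ) : ℝ) := by exact_mod_cast h1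
    _ = (Rt.card : ℝ) * (((U / P : ℕ) : ℝ) + 1) := by push_cast; ring
    _ ≤ ((e ^ P.primeFactors.card : ℕ) : ℝ) * ((U : ℝ) / P + 1) := by
        apply mul_le_mul (by exact_mod_cast h2) (by linarith) (by positivity) (by positivity)
    _ = _ := by push_cast; ring

/-- the prime part along the progression -/
lemma prime_w {k : ℕ} (N A1 : ℕ) (f : Polynomial ℤ) (B1 z R Y W g X : ℕ) (hW : 2 ≤ W) (hY : 6 * (W * Y + g + 1) ≤ N) (hY1 : 1 ≤ Y)
    (σ c : ℤ) (hc : |c| ≤ W * (2 * Y)) (K : Finset ℕ) (S : ℕ → ℕ)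
    (hS : ∀ t ∈ K, 1 ≤ S t ∧ S t ≤ Y ∧ (W : ℤ) * S t = c - σ * f.eval (t : ℤ)) (h : Fin k → ℕ) (i : Fin k) (Λ : (Fin k → ℕ) → ℝ)
    (key : ∀ Y1 : ℕ, 6 * Y1 ≤ N → Y ≤ Y1 → ∀ I : Finset ℕ, (∀ a ∈ I, 1 ≤ a ∧ a ≤ (B1 + 2) * N) →
      (∀ a ∈ I, ∀ t ∈ K, (Y1 : ℤ) < a + σ * f.eval (t : ℤ) ∧ a + σ * f.eval (t : ℤ) ≤ 5 * Y1) →
      ∑ a ∈ I, |∑ t ∈ K, Df z R h i Λ ((a : ℤ) + σ * f.eval (t : ℤ)).toNat| ≤ N * X / Real.log N ^ A1) :
    ∑ n ∈ Ioc (2 * Y) (4 * Y), |∑ t ∈ K, Df z R h i Λ (W * (n - S t) + g)| ≤ N * X / Real.log N ^ A1 := by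
  classical
  obtain ⟨Y1, hY1d⟩ : ∃ Y1, Y1 = W * Y + (g + 3) / 4 := ⟨_, rfl⟩
  have hWY : Y ≤ W * Y := Nat.le_mul_of_pos_left Y (by omega)
  have hcb := abs_le.1 hc
  have hn1 : ∀ n ∈ Ioc (2 * Y) (4 * Y), (W : ℤ) * (2 * Y) + W ≤ W * n ∧ (W : ℤ) * n ≤ W * (4 * Y) := by
    intro n hn
    rw [mem_Ioc] at hn
    constructor
    · have h1 : W * (2 * Y + 1) ≤ W * n := Nat.mul_le_mul_left _ (by omega)
      have h2 : W * (2 * Y + 1) = W * (2 * Y) + W := by ring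
      rw [h2] at h1
      exact_mod_cast h1
    · have h1 : W * n ≤ W * (4 * Y) := Nat.mul_le_mul_left _ hn.2
      exact_mod_cast h1
  have hWYZ : (W : ℤ) * (4 * Y) = 4 * ((W * Y : ℕ) : ℤ) := by push_cast; ring
  have hWYZ2 : (W : ℤ) * (2 * Y) = 2 * ((W * Y : ℕ) : ℤ) := by push_cast; ring
  have hWZ : (2 : ℤ) ≤ W := by exact_mod_cast hW
  have hYN : 6 * (((W * Y : ℕ) : ℤ) + g + 1) ≤ N := by exact_mod_cast hY
  have hcast : ∀ n ∈ Ioc (2 * Y) (4 * Y), (((W * n : ℕ) + (g : ℤ) - c).toNat : ℤ) = (W : ℤ) * n + g - c := by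
    intro n hn
    obtain ⟨q1, q2⟩ := hn1 n hn
    rw [Int.toNat_of_nonneg]
    · push_cast; ring
    · push_cast
      linarith
  have hval : ∀ n ∈ Ioc (2 * Y) (4 * Y), ∀ t ∈ K, (((W * n : ℕ) + (g : ℤ) - c).toNat : ℤ) + σ * f.eval (t : ℤ) = ((W * (n - S t) + g : ℕ) : ℤ) := by
    intro n hn t ht
    have hSt := hS t ht
    rw [hcast n hn]
    rw [mem_Ioc] at hn
    have e1 : ((W * (n - S t) + g : ℕ) : ℤ) = W * n - W * S t + g := by
      push_cast [Nat.cast_sub (show S t ≤ n by omega)]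
      ring
    rw [e1, hSt.2.2]
    ring
  have hinj : Set.InjOn (fun n : ℕ => ((W * n : ℕ) + (g : ℤ) - c).toNat) (Ioc (2 * Y) (4 * Y) : Finset ℕ) := by
    intro n hn n' hn' hnn
    have h1 := hcast n (mem_coe.1 hn)
    have h2 := hcast n' (mem_coe.1 hn')
    simp only at hnn
    rw [hnn, h2] at h1
    have h3 : (W : ℤ) * n' = W * n := by linarith
    have h4 : (n' : ℤ) = n := mul_left_cancel₀ (by linarith) h3
    exact_mod_cast h4.symm
  have k1 := key Y1 (by omega) (by omega) ((Ioc (2 * Y) (4 * Y)).image (fun n : ℕ => ((W * n : ℕ) + (g : ℤ) - c).toNat)) (by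
    intro a ha
    rw [mem_image] at ha
    obtain ⟨n, hn, rfl⟩ := ha
    obtain ⟨q1, q2⟩ := hn1 n hn
    have q3 := hcast n hn
    constructor
    · have : (1 : ℤ) ≤ (((W * n : ℕ) + (g : ℤ) - c).toNat : ℤ) := by
        rw [q3]
        have := Int.natCast_nonneg g
        linarith
      exact_mod_cast this
    · have : (((W * n : ℕ) + (g : ℤ) - c).toNat : ℤ) ≤ (((B1 + 2) * N : ℕ) : ℤ) := by
        rw [q3]
        push_cast
        have g1 : (0 : ℤ) ≤ (B1 : ℤ) * N := by positivity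
        have g2 : (0 : ℤ) ≤ ((W * Y : ℕ) : ℤ) := Int.natCast_nonneg _
        have g3 := Int.natCast_nonneg g
        nlinarith
      exact_mod_cast this) (by
    intro a ha t ht
    rw [mem_image] at ha
    obtain ⟨n, hn, rfl⟩ := ha
    rw [hval n hn t ht]
    rw [mem_Ioc] at hn
    have hSt := hS t ht
    have g1 : W * (Y + 1) ≤ W * (n - S t) := Nat.mul_le_mul_left _ (by omega)
    have g2 : W * (n - S t) ≤ W * (4 * Y) := Nat.mul_le_mul_left _ (by omega)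
    have g3 : W * (Y + 1) = W * Y + W := by ring
    have g4 : W * (4 * Y) = 4 * (W * Y) := by ring
    constructor
    · have : Y1 < W * (n - S t) + g := by omega
      exact_mod_cast this
    · have : W * (n - S t) + g ≤ 5 * Y1 := by omega
      exact_mod_cast this)
  rw [sum_image hinj] at k1
  refine le_trans (le_of_eq ?_) k1
  apply sum_congr rfl
  intro n hn
  congr 1
  apply sum_congr rfl
  intro t ht
  rw [hval n hn t ht, Int.toNat_natCast]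

open Classical in
/-- a good point has many primes. -/
lemma point_w {k : ℕ} (m A sm K' D N z R Y w g X : ℕ) (hm : 1 ≤ m) (K : Finset ℕ) (S : ℕ → ℕ) (h : Fin k → ℕ) (Λ : (Fin k → ℕ) → ℝ) (n : ℕ)
    (L V μ t2 : ℝ) (hLd : L = Real.log N) (hL1 : 1 ≤ L) (hhz : ∀ l, h l ≤ z) (hzY : z ≤ Y) (hRY : R ≤ Y)
    (hpt : ∀ s ∈ K, Y < Wp w * (n - S s) + g ∧ Wp w * (n - S s) + g + Y ≤ N) (hμ : μ = K.card * V) (hμ0 : 0 < μ)
    (ht2 : t2 = K.card * L ^ (sm + K' + 1)) (hVlow : 1 / L ^ (2 * k) ≤ V) (hMc : X / L ^ A ≤ K.card) (hX : 1 ≤ X)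
    (hDd : D = sm + K' + 3 + A + 4 * k + 1) (hkL : (k : ℝ) ^ 2 < L) (hv1 : 1 ≤ (Vz z)⁻¹) (w3 : 1 ≤ Qf z R Λ)
    (hratio : 4 * m * L * Qf z R Λ ≤ (Vz z)⁻¹ * ∑ i, Qf z R (Lr Λ i))
    (c1 : |TS z R (Wp w) g K S h Λ n - μ * Qf z R Λ| ≤ μ * Qf z R Λ / 2)
    (c2 : ∑ i : Fin k, |∑ s ∈ K, Df z R h i (Lr Λ i) (Wp w * (n - S s) + g)| < μ)
    (c4 : ∑ s ∈ K, FF z R h Λ (Wp w * (n - S s) + g) ^ 2 < t2)
    (c3' : ∀ i, |TS z R (Wp w) g K S h (Lr Λ i) n - μ * Qf z R (Lr Λ i)| ≤ μ * Qf z R (Lr Λ i) / 2)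
    (hbad : ((K.filter (fun s => m ≤ np h (Wp w * (n - S s) + g))).card : ℝ) < X / L ^ D) : False := by
  have hL0 : 0 < L := by linarith
  have hmr : (1 : ℝ) ≤ m := by exact_mod_cast hm
  have hXr : (0 : ℝ) < X := by exact_mod_cast hX
  have hMc0 : (0 : ℝ) < K.card := lt_of_lt_of_le (by positivity) hMc
  have hV0 : 0 < V := lt_of_lt_of_le (by positivity) hVlow
  obtain ⟨Er, hEr⟩ : ∃ Er, Er = ∑ i : Fin k, |∑ s ∈ K, Df z R h i (Lr Λ i) (Wp w * (n - S s) + g)| := ⟨_, rfl⟩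
  rw [← hEr] at c2
  -- the sum is small
  obtain ⟨G, hG⟩ : ∃ G, G = K.filter (fun s => m ≤ np h (Wp w * (n - S s) + g)) := ⟨_, rfl⟩
  rw [← hG] at hbad
  obtain ⟨Sg, hSg⟩ : ∃ Sg, Sg = ∑ s ∈ G, FF z R h Λ (Wp w * (n - S s) + g) := ⟨_, rfl⟩
  have hSg0 : 0 ≤ Sg := by rw [hSg]; exact sum_nonneg fun _ _ => FF_nonneg _ _ _ _ _
  have p1 : ∑ s ∈ K, FF z R h Λ (Wp w * (n - S s) + g) * (∑ i, pl (Wp w * (n - S s) + g + h i) - (m - 1) * L) ≤ k * L * Sg := by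
    have e0 : k * L * Sg = ∑ s ∈ K, (if m ≤ np h (Wp w * (n - S s) + g) then k * L * FF z R h Λ (Wp w * (n - S s) + g) else 0) := by
      rw [← sum_filter, ← hG, ← mul_sum, ← hSg]
    rw [e0]
    apply sum_le_sum
    intro s hs'
    obtain ⟨hj1, hj2⟩ := hpt s hs'
    have q1 := sum_pl_le h (Wp w * (n - S s) + g) N (by omega) (fun l => by have := hhz l; omega)
    rw [← hLd] at q1
    have f0 := FF_nonneg z R h Λ (Wp w * (n - S s) + g)
    have hm1 : (0 : ℝ) ≤ (m - 1) * L := mul_nonneg (by linarith) hL0.le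
    split_ifs with hc
    · have q2 : (np h (Wp w * (n - S s) + g) : ℝ) ≤ k := by exact_mod_cast np_le h _
      have q3 := mul_le_mul_of_nonneg_right q2 hL0.le
      calc _ ≤ FF z R h Λ (Wp w * (n - S s) + g) * (k * L) := mul_le_mul_of_nonneg_left (by linarith) f0
        _ = _ := by ring
    · apply mul_nonpos_of_nonneg_of_nonpos f0
      have q3 : (np h (Wp w * (n - S s) + g) : ℝ) ≤ m - 1 := by
        have : np h (Wp w * (n - S s) + g) + 1 ≤ m := by omega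
        have : ((np h (Wp w * (n - S s) + g) + 1 : ℕ) : ℝ) ≤ m := by exact_mod_cast this
        push_cast at this
        linarith
      have q4 := mul_le_mul_of_nonneg_right q3 hL0.le
      linarith
  have p0 : Sg ^ 2 ≤ (X / L ^ D) * t2 := by
    have h1 := sq_sum_le_card_mul_sum_sq (s := G) (f := fun s => FF z R h Λ (Wp w * (n - S s) + g))
    rw [← hSg] at h1
    refine h1.trans ?_
    apply mul_le_mul hbad.le _ (sum_nonneg fun _ _ => by positivity) (by positivity)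
    refine le_trans ?_ c4.le
    rw [hG]
    exact sum_le_sum_of_subset_of_nonneg (filter_subset _ _) fun _ _ _ => by positivity
  -- the expansion
  have p2 : ∑ s ∈ K, FF z R h Λ (Wp w * (n - S s) + g) * (∑ i, pl (Wp w * (n - S s) + g + h i) - (m - 1) * L) =
      ∑ i : Fin k, (∑ s ∈ K, Df z R h i (Lr Λ i) (Wp w * (n - S s) + g) + (Vz z)⁻¹ * TS z R (Wp w) g K S h (Lr Λ i) n) -
        (m - 1) * L * TS z R (Wp w) g K S h Λ n := by
    have q1 : ∀ s ∈ K, FF z R h Λ (Wp w * (n - S s) + g) * (∑ i, pl (Wp w * (n - S s) + g + h i) - (m - 1) * L) =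
        ∑ i : Fin k, (Df z R h i (Lr Λ i) (Wp w * (n - S s) + g) + (Vz z)⁻¹ * FF z R h (Lr Λ i) (Wp w * (n - S s) + g)) -
          (m - 1) * L * FF z R h Λ (Wp w * (n - S s) + g) := by
      intro s hs'
      obtain ⟨hj1, hj2⟩ := hpt s hs'
      rw [mul_sub, mul_sum]
      congr 1
      · apply sum_congr rfl
        intro i _
        exact Df_eq z R h i Λ (Wp w * (n - S s) + g) (by omega)
      · ring
    rw [sum_congr rfl q1, sum_sub_distrib, sum_comm, ← mul_sum]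
    congr 1
    apply sum_congr rfl
    intro i _
    rw [sum_add_distrib, ← mul_sum]
    rfl
  have hVi : 0 < (Vz z)⁻¹ := by linarith
  -- lower bounds
  have p3 : ∑ i : Fin k, (-|∑ s ∈ K, Df z R h i (Lr Λ i) (Wp w * (n - S s) + g)| + (Vz z)⁻¹ * (μ * Qf z R (Lr Λ i) / 2)) ≤
      ∑ i : Fin k, (∑ s ∈ K, Df z R h i (Lr Λ i) (Wp w * (n - S s) + g) + (Vz z)⁻¹ * TS z R (Wp w) g K S h (Lr Λ i) n) := by
    apply sum_le_sum
    intro i _
    apply add_le_add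
    · exact neg_abs_le _
    · apply mul_le_mul_of_nonneg_left _ hVi.le
      have := (abs_le.1 (c3' i)).1
      linarith
  have p4 : ∑ i : Fin k, (-|∑ s ∈ K, Df z R h i (Lr Λ i) (Wp w * (n - S s) + g)| + (Vz z)⁻¹ * (μ * Qf z R (Lr Λ i) / 2)) =
      -Er + μ / 2 * ((Vz z)⁻¹ * ∑ i, Qf z R (Lr Λ i)) := by
    rw [sum_add_distrib, sum_neg_distrib, hEr, mul_sum, mul_sum]
    congr 1
    apply sum_congr rfl
    intro i _
    ring
  have p5 : TS z R (Wp w) g K S h Λ n ≤ 3 / 2 * (μ * Qf z R Λ) := by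
    have := (abs_le.1 c1).2
    linarith
  have p6 := mul_le_mul_of_nonneg_left hratio (show 0 ≤ μ / 2 by positivity)
  have hm1 : (0 : ℝ) ≤ (m - 1) * L := mul_nonneg (by linarith) hL0.le
  have p7 := mul_le_mul_of_nonneg_left p5 hm1
  have hQL : 1 ≤ L * Qf z R Λ := one_le_mul_of_one_le_of_one_le hL1 w3
  have p8 : 2 * μ ≤ μ / 2 * (4 * m * L * Qf z R Λ) - (m - 1) * L * (3 / 2 * (μ * Qf z R Λ)) := by
    have e1 : μ / 2 * (4 * m * L * Qf z R Λ) - (m - 1) * L * (3 / 2 * (μ * Qf z R Λ)) = 2 * μ * ((m / 4 + 3 / 4) * (L * Qf z R Λ)) := by ring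
    rw [e1]
    apply le_mul_of_one_le_right (by linarith)
    exact one_le_mul_of_one_le_of_one_le (by linarith only [hmr]) hQL
  rw [p2] at p1
  have p9 : μ ≤ k * L * Sg := by linarith
  have p10 : μ ^ 2 ≤ (k * L * Sg) ^ 2 := pow_le_pow_left₀ hμ0.le p9 2
  have p11 : (k * L * Sg) ^ 2 ≤ (k * L) ^ 2 * ((X / L ^ D) * t2) := by
    calc (k * L * Sg) ^ 2 = (k * L) ^ 2 * Sg ^ 2 := by ring
      _ ≤ _ := mul_le_mul_of_nonneg_left p0 (by positivity)
  have p12 : (K.card : ℝ) * (X / L ^ A) * (1 / L ^ (2 * k)) ^ 2 ≤ μ ^ 2 := by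
    rw [hμ]
    calc (K.card : ℝ) * (X / L ^ A) * (1 / L ^ (2 * k)) ^ 2 ≤ K.card * K.card * V ^ 2 := by gcongr
      _ = _ := by ring
  have p13 := p12.trans (p10.trans p11)
  have e1 : (k * L) ^ 2 * ((X / L ^ D) * t2) = (k ^ 2 / L) * ((K.card : ℝ) * (X / L ^ A) * (1 / L ^ (2 * k)) ^ 2) := by
    have e2 : L ^ D = L ^ (sm + K' + 1) * L ^ 2 * L ^ A * (L ^ (2 * k)) ^ 2 * L := by rw [hDd]; ring
    rw [ht2, e2]
    field_simp
  rw [e1] at p13
  have hpos : 0 < (K.card : ℝ) * (X / L ^ A) * (1 / L ^ (2 * k)) ^ 2 := by positivity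
  have p14 : (k : ℝ) ^ 2 / L < 1 := by
    rw [div_lt_one hL0]
    linarith
  have p15 := mul_lt_mul_of_pos_right p14 hpos
  linarith

set_option maxHeartbeats 4000000 in
open Classical in
/-- **the core.** -/
theorem core_w (hWC : S_WC) (hPR : S_PR) (m e : ℕ) (hm : 1 ≤ m) (he : 1 ≤ e) : ∃ k : ℕ, 1 ≤ k ∧
    ∀ f : Polynomial ℤ, f.natDegree = e → 0 < f.leadingCoeff → ∀ (B1 A : ℕ) (δ : ℝ), 1 ≤ B1 → 0 < δ → δ ≤ 1 →
    ∃ K0 : ℕ, 1 ≤ K0 ∧ ∀ K' : ℕ, ∃ D N0 : ℕ, ∀ N : ℕ, N0 ≤ N →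
    ∀ Y w g X U t0 : ℕ, K0 * Real.log (Real.log N) ≤ w → (w : ℝ) ≤ Real.log N → 6 * (Wp w * Y + g + 1) ≤ N → N / Real.log N ^ K' ≤ Y →
    N ≤ B1 * X ^ e → X ^ e ≤ B1 * N → X / Wp w + 1 ≤ U → (X : ℝ) ≤ Real.log N ^ K' * U →
    ∀ h : Fin k → ℕ, Function.Injective h → (∀ l, (h l : ℝ) ≤ Real.log N) → (∀ l, ∀ p ∈ pz w, ¬ p ∣ g + h l) →
    ∀ σ : ℤ, (σ = 1 ∨ σ = -1) → ∀ c : ℤ, |c| ≤ Wp w * (2 * Y) → ∀ K ⊆ Icc 1 X, (∀ t ∈ K, t % Wp w = t0) → U / Real.log N ^ A ≤ K.card →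
    ∀ S : ℕ → ℕ, (∀ t ∈ K, 1 ≤ S t ∧ S t ≤ Y ∧ (Wp w : ℤ) * S t = c - σ * f.eval (t : ℤ)) →
    (((Ioc (2 * Y) (4 * Y)).filter (fun n => ((K.filter (fun t => m ≤ np h (Wp w * (n - S t) + g))).card : ℝ) < U / Real.log N ^ D)).card : ℝ) ≤ δ * Y := by
  obtain ⟨C, hC1, hC⟩ := mertens_up
  obtain ⟨J, hJ⟩ : ∃ J, J = 288 * C ^ 2 * (320 * (2 * (m * e))) := ⟨_, rfl⟩
  obtain ⟨k, hk2⟩ : ∃ k, k = 2 ^ J := ⟨_, rfl⟩
  obtain ⟨W, hW⟩ : ∃ W, W = k + 8 * k * C * (J + 1) := ⟨_, rfl⟩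
  have hk : 1 ≤ k := by rw [hk2]; exact Nat.one_le_two_pow
  have hW1 : 1 ≤ W := by omega
  refine ⟨k, hk, fun f hfe hfl B1 A δ hB11 hδ hδ1 => ?_⟩
  obtain ⟨w0, hw00⟩ : ∃ w0, w0 = f.leadingCoeff.natAbs := ⟨_, rfl⟩
  obtain ⟨Bw, hBw⟩ : ∃ Bw, Bw = 3 * k := ⟨_, rfl⟩
  obtain ⟨δ', hδ'⟩ : ∃ δ' : ℝ, δ' = δ / (104 * (k + 3)) := ⟨_, rfl⟩
  have hkr : (1 : ℝ) ≤ k := by exact_mod_cast hk
  have hδ'0 : 0 < δ' := by rw [hδ']; positivity
  have hδ'1 : δ' ≤ 1 := by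
    rw [hδ', div_le_one (by positivity)]
    nlinarith
  obtain ⟨K0, hK0, hsing⟩ := sing_w k A e hk he δ' hδ'0 hδ'1
  refine ⟨K0, hK0, fun K' => ?_⟩
  obtain ⟨A1, hA1⟩ : ∃ A1, A1 = 2 * K' + A + 2 * k + 1 := ⟨_, rfl⟩
  obtain ⟨sm, hsm⟩ : ∃ sm, sm = 4 * Bw + 1 + 2 * 2 ^ (4 * k) := ⟨_, rfl⟩
  obtain ⟨D, hDd⟩ : ∃ D, D = sm + K' + 3 + A + 4 * k + 1 := ⟨_, rfl⟩
  obtain ⟨e0, hE0⟩ := variance_w hWC k A Bw e K' hk he
  obtain ⟨e1, hE1⟩ := hPR k A1 Bw hk f (by omega) hfl (B1 + 2) (by omega)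
  obtain ⟨E0, hE0d⟩ : ∃ E0, E0 = max e0 e1 + 1 := ⟨_, rfl⟩
  obtain ⟨m0, h0⟩ := hE0 (E0 + 1) δ' hδ'0 hδ'1
  obtain ⟨m1, h1⟩ := hE1 (E0 + 1)
  obtain ⟨m2, h2⟩ := Vz_inv_small (E0 + 1)
  obtain ⟨m3, h3⟩ := ev_log' ((E0 + 1) * (W * 80 * e)) 1
  obtain ⟨m4, h4⟩ := ev_L' (max (max (2 * C ^ 2 + 8 : ℝ) (k ^ 2 + k + 1 : ℝ)) (k * (k + 3) / δ))
  obtain ⟨m5, h5⟩ := ev_log' (E0 + 1 + K') 28
  obtain ⟨m6, h6⟩ := hsing (E0 + 1)
  obtain ⟨m7, h7⟩ := ll_large w0
  obtain ⟨m8, h8⟩ := ev_log' (K' * e) B1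
  refine ⟨D, max (max (max m0 m1) m2) (max m3 (max m4 (max m5 (max m6 (max 16 (max m8 m7)))))), ?_⟩
  intro N hN Y w g X U t0 hw0 hwL hY1 hY2 hX1 hX2 hU1 hU2 h hinj hh hg σ hσ c hc K hM hKt hMc S hS
  have n0 : m0 ≤ N := le_trans (le_trans (le_trans (le_max_left _ _) (le_max_left _ _)) (le_max_left _ _)) hN
  have n1 : m1 ≤ N := le_trans (le_trans (le_trans (le_max_right _ _) (le_max_left _ _)) (le_max_left _ _)) hN
  have n2 : m2 ≤ N := le_trans (le_trans (le_max_right _ _) (le_max_left _ _)) hN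
  have n3 : m3 ≤ N := le_trans (le_trans (le_max_left _ _) (le_max_right _ _)) hN
  have nn := le_trans (le_max_right m3 _) (le_trans (le_max_right _ _) hN)
  have n4 : m4 ≤ N := le_trans (le_max_left _ _) nn
  have n5 : m5 ≤ N := le_trans (le_trans (le_max_left _ _) (le_max_right _ _)) nn
  have nn' := le_trans (le_max_right m5 _) (le_trans (le_max_right _ _) nn)
  have n6 : m6 ≤ N := le_trans (le_max_left _ _) nn'
  have nn2 := le_trans (le_max_right m6 _) nn'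
  have hN16 : 16 ≤ N := le_trans (le_max_left _ _) nn2
  have nn3 := le_trans (le_max_right 16 _) nn2
  have n8 : m8 ≤ N := le_trans (le_max_left _ _) nn3
  have n7 : m7 ≤ N := le_trans (le_max_right _ _) nn3
  have hN0 : (0 : ℝ) < N := by exact_mod_cast (show 0 < N by omega)
  have b3 := h3 N n3
  have b4 := h4 N n4
  have b5 := h5 N n5
  have hvar := h0 N n0
  have hpp := h1 N n1
  have hVz := h2 N n2
  have hsi6 := h6 N n6
  have b8 := h8 N n8
  set L := Real.log N with hL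
  have l1 : (2 * C ^ 2 + 8 : ℝ) ≤ L := le_trans (le_trans (le_max_left _ _) (le_max_left _ _)) b4
  have l4 : (k ^ 2 + k + 1 : ℝ) ≤ L := le_trans (le_trans (le_max_right _ _) (le_max_left _ _)) b4
  have l2 : k * (k + 3) / δ ≤ L := le_trans (le_max_right _ _) b4
  have hmr : (1 : ℝ) ≤ m := by exact_mod_cast hm
  have hCr : (1 : ℝ) ≤ C := by exact_mod_cast hC1
  have hL8 : 8 ≤ L := by
    have hC2 := sq_nonneg (C : ℝ)
    linarith only [hC2, l1]
  have hL1 : 1 ≤ L := by linarith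
  have hL0 : 0 < L := by linarith
  -- the parameter `z`
  obtain ⟨z, hz⟩ : ∃ z, z = ⌈L ^ E0⌉₊ := ⟨_, rfl⟩
  have hz1 : L ^ E0 ≤ z := by rw [hz]; exact Nat.le_ceil _
  have hz1' : L ≤ z := (le_self_pow₀ hL1 (by omega)).trans hz1
  have hz2 : (z : ℝ) + 1 ≤ L ^ (E0 + 1) := by
    have g1 := (Nat.ceil_lt_add_one (show 0 ≤ L ^ E0 by positivity)).le
    rw [← hz] at g1
    have g2 : 1 ≤ L ^ E0 := one_le_pow₀ hL1
    rw [pow_succ]
    exact aux_z g1 g2 hL8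
  have hz2' : (z : ℝ) ≤ L ^ (E0 + 1) := by linarith
  have hz8 : 8 ≤ z := by
    have : (8 : ℝ) ≤ z := by linarith
    exact_mod_cast this
  have hze0 : L ^ e0 ≤ z := (pow_le_pow_right₀ hL1 (by have := le_max_left e0 e1; omega)).trans hz1
  have hze1 : L ^ e1 ≤ z := (pow_le_pow_right₀ hL1 (by have := le_max_right e0 e1; omega)).trans hz1
  have hhz : ∀ l, h l ≤ z := fun l => by exact_mod_cast (hh l).trans hz1'
  -- the parameters `x` and `R`
  obtain ⟨x, hx1, hx2, hx3⟩ := root_exists (W * 80 * e) N (by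
    have : 0 < W * 80 * e := by positivity
    omega) (by omega)
  have hsq : √(N : ℝ) ≤ N := aux_sqrt (by exact_mod_cast (show 1 ≤ N by omega))
  have hzx : z ≤ x := by
    by_contra hcon
    have g1 : (x + 1) ^ (W * 80 * e) ≤ (z + 1) ^ (W * 80 * e) := Nat.pow_le_pow_left (by omega) _
    have g2 : ((z : ℝ) + 1) ^ (W * 80 * e) ≤ N := by
      calc ((z : ℝ) + 1) ^ (W * 80 * e) ≤ (L ^ (E0 + 1)) ^ (W * 80 * e) := pow_le_pow_left₀ (by positivity) hz2 _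
        _ = 1 * L ^ ((E0 + 1) * (W * 80 * e)) := by rw [one_mul, ← pow_mul]
        _ ≤ √N := b3
        _ ≤ N := hsq
    have g3 : (z + 1) ^ (W * 80 * e) ≤ N := by exact_mod_cast g2
    omega
  have hx3' : 3 ≤ x := by omega
  obtain ⟨R, hRd⟩ : ∃ R, R = x ^ W := ⟨_, rfl⟩
  have hR80e : R ^ (80 * e) ≤ N := by rw [hRd, ← pow_mul, ← mul_assoc]; exact hx2
  have hR80 : R ^ 80 ≤ N := by
    refine le_trans (Nat.pow_le_pow_right ?_ (Nat.le_mul_of_pos_right 80 he)) hR80e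
    rw [hRd]
    exact Nat.pow_pos (by omega)
  have hX1' : 1 ≤ U := le_trans (Nat.le_add_left 1 _) hU1
  have hXN : N ≤ U ^ (20 * e) := by
    have g1 : (N : ℝ) ≤ B1 * (L ^ K' * U) ^ e := by
      have g2 : ((N : ℕ) : ℝ) ≤ ((B1 * X ^ e : ℕ) : ℝ) := by exact_mod_cast hX1
      push_cast at g2
      refine g2.trans ?_
      gcongr
    have g3 : (N : ℝ) ≤ √N * U ^ e := by
      refine g1.trans ?_
      rw [mul_pow, ← pow_mul, ← mul_assoc]
      exact mul_le_mul_of_nonneg_right b8 (by positivity)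
    have g4 : √(N : ℝ) ≤ (U : ℝ) ^ e := by
      have g5 : √(N : ℝ) * √N ≤ √N * U ^ e := by rwa [Real.mul_self_sqrt hN0.le]
      exact le_of_mul_le_mul_left g5 (Real.sqrt_pos.2 hN0)
    have g6 : (N : ℝ) ≤ ((U : ℝ) ^ e) ^ 2 := by
      calc (N : ℝ) = √N ^ 2 := (Real.sq_sqrt hN0.le).symm
        _ ≤ _ := pow_le_pow_left₀ (Real.sqrt_nonneg _) g4 2
    have g7 : N ≤ (U ^ e) ^ 2 := by exact_mod_cast g6
    refine g7.trans ?_
    rw [← pow_mul]
    exact Nat.pow_le_pow_right hX1' (by omega)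
  have hRX : R * (R * (R * R)) ≤ U := by
    apply le_of_pow_le_pow_left₀ (n := 20 * e) (by omega) (Nat.zero_le _)
    calc (R * (R * (R * R))) ^ (20 * e) = R ^ (80 * e) := by
          rw [show R * (R * (R * R)) = R ^ 4 by ring, ← pow_mul]
          congr 1
          ring
      _ ≤ N := hR80e
      _ ≤ _ := hXN
  have hxR : x ≤ R := by rw [hRd]; exact Nat.le_self_pow (by omega) x
  have hR1 : 1 ≤ R := by omega
  have hR3 : 3 ≤ R := by omega
  have hRr : (1 : ℝ) ≤ R := by exact_mod_cast hR1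
  obtain ⟨Λ, w1, w2, w3, w4, w5⟩ := weights_spec C J z R x k W hC1 hC hx3' hzx hk2 hW (by rw [hRd]) (by
    rw [hRd]
    exact Nat.pow_lt_pow_left (Nat.lt_succ_self x) (by omega))
  have hlR : Real.log R ≤ L := by
    apply Real.log_le_log (by linarith)
    exact_mod_cast (Nat.le_self_pow (by norm_num : (80:ℕ) ≠ 0) R).trans hR80
  have hlR0 : 0 ≤ Real.log R := Real.log_nonneg hRr
  have hΛB : ∀ d ∈ PD (Fin k) z R, |Λ d| ≤ L ^ Bw := by
    intro d hd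
    refine (w1 d hd).trans ?_
    rw [hBw, pow_mul]
    have hVR0 : 0 ≤ (Vz R)⁻¹ := (inv_pos.2 (Vz_pos R)).le
    apply pow_le_pow_left₀ (by positivity)
    have g1 := hC R hR3
    have g2 : (Vz R)⁻¹ ≤ C * L := g1.trans (mul_le_mul_of_nonneg_left hlR (by positivity))
    calc 2 * ((Vz R)⁻¹ * (Vz R)⁻¹) ≤ 2 * ((C * L) * (C * L)) := by gcongr
      _ = (2 * C ^ 2) * L ^ 2 := by ring
      _ ≤ L * L ^ 2 := by
          apply mul_le_mul_of_nonneg_right _ (by positivity)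
          linarith
      _ = L ^ 3 := by ring
  have hΛi : ∀ i, ∀ d ∈ PD (Fin k) z R, |Lr Λ i d| ≤ L ^ Bw := fun i d hd' => (Lr_abs Λ i d).trans (hΛB d hd')
  have hsi : ∀ i, ∀ d, Lr Λ i d ≠ 0 → ∏ l, d l ≤ R ∧ d i = 1 := fun i d hd' => ⟨w2 d (Lr_ne Λ i d hd').1, (Lr_ne Λ i d hd').2⟩
  -- `Y`
  have hLK : (28 : ℝ) * L ^ (E0 + 1) * L ^ K' ≤ √N := by
    refine le_trans (le_of_eq ?_) b5
    rw [mul_assoc, ← pow_add]
  have hsqY : √(N : ℝ) * (28 * L ^ (E0 + 1)) ≤ Y := by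
    refine le_trans ?_ hY2
    rw [le_div_iff₀ (by positivity)]
    calc √(N : ℝ) * (28 * L ^ (E0 + 1)) * L ^ K' = √(N : ℝ) * (28 * L ^ (E0 + 1) * L ^ K') := by ring
      _ ≤ √(N : ℝ) * √N := mul_le_mul_of_nonneg_left hLK (Real.sqrt_nonneg _)
      _ = N := Real.mul_self_sqrt hN0.le
  have hLE1 : (1 : ℝ) ≤ L ^ (E0 + 1) := one_le_pow₀ hL1
  have hsq1 : (1 : ℝ) ≤ √N := by
    rw [Real.one_le_sqrt]
    exact_mod_cast (show 1 ≤ N by omega)
  have hYs : √(N : ℝ) ≤ Y := by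
    refine le_trans ?_ hsqY
    exact le_mul_of_one_le_right (by linarith) (by linarith)
  have hY0 : (0 : ℝ) < Y := by linarith
  have hY1' : 1 ≤ Y := by exact_mod_cast hY0
  have hzY : z ≤ Y := by
    have : (z : ℝ) ≤ Y := by
      refine le_trans ?_ hsqY
      calc (z : ℝ) ≤ L ^ (E0 + 1) := hz2'
        _ ≤ 28 * L ^ (E0 + 1) := by linarith
        _ ≤ √N * (28 * L ^ (E0 + 1)) := le_mul_of_one_le_left (by positivity) hsq1
    exact_mod_cast this
  have hRY : R ≤ Y := by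
    have g1 : R ^ 2 ≤ N := (Nat.pow_le_pow_right hR1 (by norm_num)).trans hR80
    have g2 : (R : ℝ) ≤ √N := by
      apply Real.le_sqrt_of_sq_le
      exact_mod_cast g1
    exact_mod_cast g2.trans hYs
  have hwz : w ≤ z := by exact_mod_cast hwL.trans hz1'
  have hv := hVz z (by omega) hz2'
  have hv1 : 1 ≤ (Vz z)⁻¹ := (one_le_inv₀ (Vz_pos z)).2 (Vz_le_one z)
  -- the ratio
  have hratio : 4 * m * L * Qf z R Λ ≤ (Vz z)⁻¹ * ∑ i, Qf z R (Lr Λ i) := by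
    have g1 : L ≤ 160 * e * Real.log R := by
      have g2 : L ≤ Real.log (((x : ℝ) + 1) ^ (W * 80 * e)) := by
        apply Real.log_le_log hN0
        have : ((N : ℕ) : ℝ) < (((x + 1) ^ (W * 80 * e) : ℕ) : ℝ) := by exact_mod_cast hx3
        push_cast at this
        exact this.le
      rw [Real.log_pow] at g2
      have hx3r : (3 : ℝ) ≤ x := by exact_mod_cast hx3'
      have g3 : Real.log ((x : ℝ) + 1) ≤ 2 * Real.log x := by
        have g4 : Real.log ((x : ℝ) + 1) ≤ Real.log ((x : ℝ) ^ 2) := Real.log_le_log (by positivity) (aux_sq hx3r)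
        rw [Real.log_pow] at g4
        push_cast at g4
        exact g4
      have g5 : Real.log R = W * Real.log x := by rw [hRd]; push_cast; rw [Real.log_pow]
      rw [g5]
      calc L ≤ ((W * 80 * e : ℕ) : ℝ) * Real.log ((x : ℝ) + 1) := g2
        _ ≤ ((W * 80 * e : ℕ) : ℝ) * (2 * Real.log x) := mul_le_mul_of_nonneg_left g3 (Nat.cast_nonneg _)
        _ = _ := by push_cast; ring
    have g2 : ((J : ℝ) + 1) / (288 * C ^ 2) ≥ 640 * (m * e) := aux_ratio J C (m * e) (by rw [hJ]; push_cast; ring) hCr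
    have hQ0 : 0 ≤ Qf z R Λ := by linarith
    have hVp := Vz_pos z
    have g3 : (Vz z)⁻¹ * (((J : ℝ) + 1) / (288 * C ^ 2) * (Vz z * Real.log R) * Qf z R Λ) ≤ (Vz z)⁻¹ * ∑ i, Qf z R (Lr Λ i) :=
      mul_le_mul_of_nonneg_left w5 (by linarith)
    refine le_trans ?_ g3
    have g4 : (Vz z)⁻¹ * (((J : ℝ) + 1) / (288 * C ^ 2) * (Vz z * Real.log R) * Qf z R Λ) =
        ((J : ℝ) + 1) / (288 * C ^ 2) * Real.log R * Qf z R Λ := by
      field_simp
    rw [g4]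
    apply mul_le_mul_of_nonneg_right _ hQ0
    calc 4 * (m : ℝ) * L ≤ 4 * m * (160 * e * Real.log R) := by gcongr
      _ = 640 * (m * e) * Real.log R := by ring
      _ ≤ _ := mul_le_mul_of_nonneg_right g2 hlR0
  -- the density
  obtain ⟨V, hV⟩ : ∃ V, V = Vr w z (cneg h) := ⟨_, rfl⟩
  have hww0 : w0 ≤ w := by
    have k1 := h7 N n7
    have k3 : (w0 : ℝ) ≤ w := by
      refine le_trans ?_ hw0
      refine k1.trans ?_
      have hK0r : (1 : ℝ) ≤ K0 := by exact_mod_cast hK0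
      exact le_mul_of_one_le_left ((Nat.cast_nonneg _).trans k1) hK0r
    exact_mod_cast k3
  have hF : Few e w U K S := few_poly f he hfe w (by omega) X U t0 (by omega) K hM hKt σ hσ c S (fun t ht => (hS t ht).2.2)
  have hKU : K.card ≤ U := by
    refine le_trans (card_le_card (t := (Icc 1 X).filter (fun t => t % 1 = 0 ∧ t % Wp w = t0)) ?_) ?_
    · intro t ht
      rw [mem_filter]
      exact ⟨hM ht, Nat.mod_one t, hKt t ht⟩
    · have := class_fiber 1 (Wp w) 0 t0 X (Nat.coprime_one_left _) one_pos (Wp_pos w)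
      rw [Nat.div_one] at this
      omega
  have hSb : ∀ t ∈ K, 1 ≤ S t ∧ S t ≤ Y := fun t ht => ⟨(hS t ht).1, (hS t ht).2.1⟩
  obtain ⟨hwk, hVlow, hsg⟩ := hsi6 z U w hz1' hz2' hw0 hwz hXN h K S hF hMc
  have hw1 : 1 ≤ w := by omega
  have hWp1 : 1 ≤ Wp w := Wp_pos w
  have hWp2 : 2 ≤ Wp w := by
    have h2 : 2 ∈ pz w := mem_pz.2 ⟨by omega, Nat.prime_two⟩
    exact Nat.le_of_dvd (Wp_pos w) (dvd_Wp h2)
  have hWY4 : Wp w * (4 * Y) + g ≤ N := by
    have : Wp w * (4 * Y) = 4 * (Wp w * Y) := by ring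
    omega
  have hWYY : Y ≤ Wp w * Y := Nat.le_mul_of_pos_left Y (by omega)
  have hVlow' := hVlow
  rw [← hV] at hVlow
  have hV0 : 0 < V := lt_of_lt_of_le (by positivity) hVlow
  have hX0r : (0 : ℝ) < U := by exact_mod_cast hX1'
  have hMc0 : (0 : ℝ) < K.card := lt_of_lt_of_le (by positivity) hMc
  obtain ⟨μ, hμ⟩ : ∃ μ, μ = K.card * V := ⟨_, rfl⟩
  have hμ0 : 0 < μ := by rw [hμ]; positivity
  -- the exceptional sets
  have x0 := hvar z R Y w g U hze0 hz2' hR1 hR80 hRX hWY4 hY2 hw1 hwz h hinj hhz hg K hKU hMc S hSb hF hVlow' hsg Λ hΛB w2 w3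
  rw [← hV, ← hμ] at x0
  have xi : ∀ i, (((Ioc (2 * Y) (4 * Y)).filter (fun n => μ * Qf z R (Lr Λ i) / 2 < |TS z R (Wp w) g K S h (Lr Λ i) n - μ * Qf z R (Lr Λ i)|)).card : ℝ) ≤ 104 * δ' * Y := by
    intro i
    have := hvar z R Y w g U hze0 hz2' hR1 hR80 hRX hWY4 hY2 hw1 hwz h hinj hhz hg K hKU hMc S hSb hF hVlow' hsg (Lr Λ i) (hΛi i) (fun d hd' => (hsi i d hd').1) (w4 i)
    rw [← hV, ← hμ] at this
    exact this
  obtain ⟨Er, hEr⟩ : ∃ Er : ℕ → ℝ, Er = fun n => ∑ i : Fin k, |∑ s ∈ K, Df z R h i (Lr Λ i) (Wp w * (n - S s) + g)| := ⟨_, rfl⟩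
  have hEr0 : ∀ n ∈ Ioc (2 * Y) (4 * Y), 0 ≤ Er n := fun n _ => by rw [hEr]; exact sum_nonneg fun _ _ => abs_nonneg _
  have hErS : ∑ n ∈ Ioc (2 * Y) (4 * Y), Er n ≤ k * (N * X / L ^ A1) := by
    rw [hEr]
    rw [sum_comm]
    refine (sum_le_sum (fun i _ => prime_w N A1 f B1 z R Y (Wp w) g X hWp2 hY1 hY1' σ c hc K S hS h i (Lr Λ i) (fun Y1 hY16 hzY1 I hI1 hI2 =>
      hpp z R Y1 X hze1 hz2' hR1 hR80 hY16 (hzY.trans hzY1) (by
        rw [hfe]
        refine hX1.trans (Nat.mul_le_mul_right _ (by omega))) (by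
        rw [hfe]
        refine hX2.trans (Nat.mul_le_mul_right _ (by omega))) σ hσ h hinj hhz K hM I hI1 hI2 i (Lr Λ i) (hΛi i) (hsi i)))).trans (le_of_eq ?_)
    rw [sum_const, card_univ, Fintype.card_fin, nsmul_eq_mul]
  have xE := markov (Ioc (2 * Y) (4 * Y)) Er hEr0 μ hμ0 _ hErS (fun n => μ ≤ Er n) (fun _ _ h => h)
  have xE' : (k * (N * X / L ^ A1)) / μ ≤ 104 * δ' * Y := by
    rw [div_le_iff₀ hμ0]
    have q1 : (U : ℝ) / L ^ A * (1 / L ^ (2 * k)) ≤ μ := by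
      rw [hμ]
      gcongr
    have q2 : 104 * δ' * (N / L ^ K') * ((U : ℝ) / L ^ A * (1 / L ^ (2 * k))) ≤ 104 * δ' * Y * μ := by gcongr
    refine le_trans ?_ q2
    rw [hδ']
    have e3 : L ^ A1 = L ^ K' * L ^ K' * L ^ A * L ^ (2 * k) * L := by rw [hA1]; ring
    have e0 : k * ((N : ℝ) * X / L ^ A1) ≤ k * ((N : ℝ) * (L ^ K' * U) / L ^ A1) := by gcongr
    refine e0.trans ?_
    have e4 : k * ((N : ℝ) * (L ^ K' * U) / L ^ A1) = (k * (k + 3) / δ) / L * (104 * (δ / (104 * (k + 3))) * (N / L ^ K') * ((U : ℝ) / L ^ A * (1 / L ^ (2 * k)))) := by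
      rw [e3]
      field_simp
    rw [e4]
    have e5 : (k * (k + 3) / δ) / L ≤ 1 := by rw [div_le_one hL0]; exact l2
    calc _ ≤ 1 * (104 * (δ / (104 * (k + 3))) * (N / L ^ K') * ((U : ℝ) / L ^ A * (1 / L ^ (2 * k)))) :=
          mul_le_mul_of_nonneg_right e5 (by positivity)
      _ = _ := one_mul _
  -- the second moment
  obtain ⟨WW, hWW⟩ : ∃ WW : ℕ → ℝ, WW = fun n => ∑ s ∈ K, FF z R h Λ (Wp w * (n - S s) + g) ^ 2 := ⟨_, rfl⟩
  have hWW0 : ∀ n ∈ Ioc (2 * Y) (4 * Y), 0 ≤ WW n := fun n _ => by rw [hWW]; exact sum_nonneg fun _ _ => by positivity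
  have hkL : (k : ℝ) ≤ L := by
    have : (0 : ℝ) ≤ (k : ℝ) ^ 2 := by positivity
    linarith
  have hWWS : ∑ n ∈ Ioc (2 * Y) (4 * Y), WW n ≤ K.card * (N * L ^ sm) := by
    rw [hWW]
    simp only
    rw [sum_comm]
    have e1 : ∀ s ∈ K, ∑ n ∈ Ioc (2 * Y) (4 * Y), FF z R h Λ (Wp w * (n - S s) + g) ^ 2 ≤ N * L ^ sm := by
      intro s hs'
      have hj := hSb s hs'
      have g1 := mom4 hk z R (N - z) N Λ (L ^ Bw) (by positivity) hΛB h hhz (by omega)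
      rw [← hL] at g1
      have e3 : (1 + L) ≤ L ^ 2 := by nlinarith
      have e4 : (1 + L) ^ (2 ^ (4 * k)) ≤ (L ^ 2) ^ (2 ^ (4 * k)) := pow_le_pow_left₀ (by positivity) e3 _
      have g2 : ∑ b ∈ Icc 1 (N - z), SS z R Λ (cneg h) b ^ 4 ≤ N * L ^ sm := by
        calc _ ≤ (L ^ Bw) ^ 4 * (k * (N * (1 + L) ^ (2 ^ (4 * k)))) := g1
          _ ≤ (L ^ Bw) ^ 4 * (L * (N * (L ^ 2) ^ (2 ^ (4 * k)))) := by gcongr
          _ = N * L ^ sm := by rw [hsm]; ring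
      refine le_trans ?_ g2
      apply sum_inj_le _ _ (fun n => Wp w * (n - S s) + g)
      · intro n hn
        rw [mem_Ioc] at hn
        rw [mem_Icc]
        have g3 : 1 * 1 ≤ Wp w * (n - S s) := Nat.mul_le_mul hWp1 (by omega)
        have g4 : Wp w * (n - S s) ≤ Wp w * (4 * Y) := Nat.mul_le_mul_left _ (by omega)
        have g5 : Wp w * (4 * Y) = 4 * (Wp w * Y) := by ring
        omega
      · intro n hn n' hn' hnn
        rw [mem_coe, mem_Ioc] at hn hn'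
        have hnn' : Wp w * (n - S s) + g = Wp w * (n' - S s) + g := hnn
        have g3 : Wp w * (n - S s) = Wp w * (n' - S s) := by omega
        have g4 := Nat.eq_of_mul_eq_mul_left (by omega) g3
        omega
      · intro b _; positivity
      · intro n _
        have g3 := FF_le z R h Λ (Wp w * (n - S s) + g)
        have g4 := FF_nonneg z R h Λ (Wp w * (n - S s) + g)
        calc FF z R h Λ (Wp w * (n - S s) + g) ^ 2 ≤ (SS z R Λ (cneg h) (Wp w * (n - S s) + g) ^ 2) ^ 2 := pow_le_pow_left₀ g4 g3 2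
          _ = _ := by ring
    refine (sum_le_sum e1).trans (le_of_eq ?_)
    rw [sum_const, nsmul_eq_mul]
  obtain ⟨t2, ht2⟩ : ∃ t2 : ℝ, t2 = K.card * L ^ (sm + K' + 1) := ⟨_, rfl⟩
  have ht20 : 0 < t2 := by rw [ht2]; positivity
  have xW := markov (Ioc (2 * Y) (4 * Y)) WW hWW0 t2 ht20 _ hWWS (fun n => t2 ≤ WW n) (fun _ _ h => h)
  have xW' : (K.card * (N * L ^ sm)) / t2 ≤ 104 * δ' * Y := by
    have e1 : (K.card * (N * L ^ sm)) / t2 = (1 / L) * (N / L ^ K') := by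
      rw [ht2, pow_add, pow_add, pow_one]
      field_simp
    rw [e1]
    have e2 : 1 / L ≤ 104 * δ' := by
      rw [hδ']
      rw [div_le_iff₀ hL0]
      have e3 : 104 * (δ / (104 * (k + 3))) * L = δ * L / (k + 3) := by field_simp
      rw [e3, le_div_iff₀ (by positivity), one_mul]
      rw [div_le_iff₀ hδ] at l2
      have : (1 : ℝ) * (k + 3) ≤ k * (k + 3) := mul_le_mul_of_nonneg_right hkr (by positivity)
      linarith
    exact mul_le_mul e2 hY2 (by positivity) (by positivity)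
  -- the bad integers are exceptional
  have hsub : (Ioc (2 * Y) (4 * Y)).filter (fun n => ((K.filter (fun s => m ≤ np h (Wp w * (n - S s) + g))).card : ℝ) < U / L ^ D) ⊆
      ((((Ioc (2 * Y) (4 * Y)).filter (fun n => μ * Qf z R Λ / 2 < |TS z R (Wp w) g K S h Λ n - μ * Qf z R Λ|)) ∪
        ((Ioc (2 * Y) (4 * Y)).filter (fun n => μ ≤ Er n))) ∪ ((Ioc (2 * Y) (4 * Y)).filter (fun n => t2 ≤ WW n))) ∪
      univ.biUnion (fun i : Fin k => (Ioc (2 * Y) (4 * Y)).filter (fun n => μ * Qf z R (Lr Λ i) / 2 < |TS z R (Wp w) g K S h (Lr Λ i) n - μ * Qf z R (Lr Λ i)|)) := by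
    intro n hn
    rw [mem_filter] at hn
    obtain ⟨hnI, hbad⟩ := hn
    rw [mem_union, mem_union, mem_union, mem_biUnion, mem_filter, mem_filter, mem_filter]
    by_contra hcon
    push Not at hcon
    obtain ⟨⟨⟨c1, c2⟩, c4⟩, c3⟩ := hcon
    have c1 := c1 hnI
    have c2 := c2 hnI
    have c4 := c4 hnI
    have c3' : ∀ i : Fin k, |TS z R (Wp w) g K S h (Lr Λ i) n - μ * Qf z R (Lr Λ i)| ≤ μ * Qf z R (Lr Λ i) / 2 := by
      intro i
      have := c3 i (mem_univ i)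
      rw [mem_filter] at this
      push Not at this
      exact this hnI
    rw [mem_Ioc] at hnI
    have hpt : ∀ s ∈ K, Y < Wp w * (n - S s) + g ∧ Wp w * (n - S s) + g + Y ≤ N := by
      intro s hs'
      have hj := hSb s hs'
      have g1 : 1 * (Y + 1) ≤ Wp w * (n - S s) := Nat.mul_le_mul hWp1 (by omega)
      have g2 : Wp w * (n - S s) ≤ Wp w * (4 * Y) := Nat.mul_le_mul_left _ (by omega)
      have g3 : Wp w * (4 * Y) = 4 * (Wp w * Y) := by ring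
      constructor
      · omega
      · omega
    rw [hEr] at c2
    rw [hWW] at c4
    exact point_w m A sm K' D N z R Y w g U hm K S h Λ n L V μ t2 hL hL1 hhz hzY hRY hpt hμ hμ0 ht2 hVlow hMc hX1' hDd (by linarith) hv1 w3 hratio
      c1 c2 c4 c3' hbad
  calc _ ≤ (((((((Ioc (2 * Y) (4 * Y)).filter (fun n => μ * Qf z R Λ / 2 < |TS z R (Wp w) g K S h Λ n - μ * Qf z R Λ|)) ∪
        ((Ioc (2 * Y) (4 * Y)).filter (fun n => μ ≤ Er n))) ∪ ((Ioc (2 * Y) (4 * Y)).filter (fun n => t2 ≤ WW n))) ∪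
      univ.biUnion (fun i : Fin k => (Ioc (2 * Y) (4 * Y)).filter (fun n => μ * Qf z R (Lr Λ i) / 2 < |TS z R (Wp w) g K S h (Lr Λ i) n - μ * Qf z R (Lr Λ i)|))).card : ℕ) : ℝ) := by
        exact_mod_cast card_le_card hsub
    _ ≤ (((Ioc (2 * Y) (4 * Y)).filter (fun n => μ * Qf z R Λ / 2 < |TS z R (Wp w) g K S h Λ n - μ * Qf z R Λ|)).card : ℝ) +
        (((Ioc (2 * Y) (4 * Y)).filter (fun n => μ ≤ Er n)).card : ℝ) + (((Ioc (2 * Y) (4 * Y)).filter (fun n => t2 ≤ WW n)).card : ℝ) +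
        ∑ i : Fin k, (((Ioc (2 * Y) (4 * Y)).filter (fun n => μ * Qf z R (Lr Λ i) / 2 < |TS z R (Wp w) g K S h (Lr Λ i) n - μ * Qf z R (Lr Λ i)|)).card : ℝ) := by
        exact_mod_cast (card_union_le _ _).trans (add_le_add ((card_union_le _ _).trans (add_le_add (card_union_le _ _) le_rfl)) card_biUnion_le)
    _ ≤ 104 * δ' * Y + 104 * δ' * Y + 104 * δ' * Y + ∑ _i : Fin k, 104 * δ' * (Y : ℝ) := by
        apply add_le_add (add_le_add (add_le_add x0 (xE.trans xE')) (xW.trans xW'))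
        exact sum_le_sum fun i _ => xi i
    _ = 104 * δ' * (k + 3) * Y := by
        rw [sum_const, card_univ, Fintype.card_fin, nsmul_eq_mul]
        ring
    _ = δ * Y := by
        rw [hδ']
        field_simp

end Pool.Agent.L0h42.PP
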