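import Mathlib
import Pool.Agent.L0h42.CP.C2
import Pool.Agent.L0h42.TB.B13

/-! Statements of the modules of the project PP, second part. -/

set_option autoImplicit false

namespace Pool.Agent.L0h42.PP
open Finset
open Pool.Agent.L0h42.TB
open Pool.Agent.L0h42.CP

/-- the fourth moment of the sieve sums along a progression (the power of the logarithm does not depend on the modulus) -/
def S_M4 : Prop := ∀ k : ℕ, 1 ≤ k → ∃ c : ℕ, ∀ (z R Y w g : ℕ) (h : Fin k → ℕ) (Λ : (Fin k → ℕ) → ℝ) (V : ℝ), Function.Injective h →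
    (∀ l, h l ≤ z) → w ≤ z → 1 ≤ R → R ^ 4 ≤ Y → 0 ≤ V → (∀ d ∈ PD (Fin k) z R, |Λ d| ≤ V) → (∀ d, Λ d ≠ 0 → ∏ l, d l ≤ R) →
    ∑ u ∈ Icc 1 Y, SS z R Λ (cneg h) (Wp w * u + g) ^ 4 ≤ V ^ 4 * (2 * Y * (1 + Real.log Y) ^ c)

end Pool.Agent.L0h42.PP
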