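import Mathlib
import Pool.Agent.L0h42.PP.P5
import Pool.Agent.L0h42.PP.Stm2

/-! Many primes along a progression to a modulus which is the product of the small primes: the count. -/

set_option autoImplicit false
set_option linter.unusedSectionVars false
set_option linter.unusedVariables false

namespace Pool.Agent.L0h42.PP
open Finset
open Pool.Agent.L0h42.TB
open Pool.Agent.L0h42.EG
open Pool.Agent.L0h42.CP
open Pool.Agent.H373R2.T7

lemma sum_inj_le' {α : Type*} (s : Finset α) (I : Finset ℕ) (φ : α → ℕ) {f : α → ℝ} {F : ℕ → ℝ} (hφ : ∀ n ∈ s, φ n ∈ I)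
    (hinj : Set.InjOn φ (s : Set α)) (hF : ∀ b ∈ I, 0 ≤ F b) (hf : ∀ n ∈ s, f n ≤ F (φ n)) :
    ∑ n ∈ s, f n ≤ ∑ b ∈ I, F b := by
  classical
  calc ∑ n ∈ s, f n ≤ ∑ n ∈ s, F (φ n) := sum_le_sum hf
    _ = ∑ b ∈ s.image φ, F b := (sum_image hinj).symm
    _ ≤ ∑ b ∈ I, F b := by
        apply sum_le_sum_of_subset_of_nonneg
        · intro b hb
          obtain ⟨n, hn, rfl⟩ := mem_image.1 hb
          exact hφ n hn
        · intro b hb _
          exact hF b hb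

set_option maxHeartbeats 4000000 in
open Classical in
/-- **the core.** -/
theorem core_ap (hM4 : S_M4) (m : ℕ) (hm : 1 ≤ m) : ∃ k : ℕ, 1 ≤ k ∧ ∀ (A : ℕ) (δ : ℝ), 0 < δ → δ ≤ 1 → ∃ K0 D : ℕ, 1 ≤ K0 ∧ ∀ K' : ℕ, ∃ N0 : ℕ, ∀ N : ℕ, N0 ≤ N →
    ∀ Y w g : ℕ, K0 * Real.log (Real.log N) ≤ w → (w : ℝ) ≤ Real.log N → 6 * (Wp w * Y + g + 1) ≤ N → N / Real.log N ^ K' ≤ Y →
    ∀ h : Fin k → ℕ, Function.Injective h → (∀ l, (h l : ℝ) ≤ Real.log N) → (∀ l, ∀ p ∈ pz w, ¬ p ∣ g + h l) →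
    ∀ M ⊆ Icc 1 Y, Y / Real.log N ^ A ≤ M.card →
    (((Ioc (2 * Y) (4 * Y)).filter (fun n => ((M.filter (fun s => m ≤ np h (Wp w * (n - s) + g))).card : ℝ) < Y / Real.log N ^ D)).card : ℝ) ≤ δ * Y := by
  obtain ⟨C, hC1, hC⟩ := mertens_up
  obtain ⟨J, hJ⟩ : ∃ J, J = 288 * C ^ 2 * (320 * (2 * m)) := ⟨_, rfl⟩
  obtain ⟨k, hk2⟩ : ∃ k, k = 2 ^ J := ⟨_, rfl⟩
  obtain ⟨W, hW⟩ : ∃ W, W = k + 8 * k * C * (J + 1) := ⟨_, rfl⟩
  have hk : 1 ≤ k := by rw [hk2]; exact Nat.one_le_two_pow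
  have hW1 : 1 ≤ W := by omega
  obtain ⟨cM, hcM⟩ := hM4 k hk
  refine ⟨k, hk, fun A δ hδ hδ1 => ?_⟩
  obtain ⟨Bw, hBw⟩ : ∃ Bw, Bw = 3 * k := ⟨_, rfl⟩
  obtain ⟨δ', hδ'⟩ : ∃ δ' : ℝ, δ' = δ / (104 * (k + 3)) := ⟨_, rfl⟩
  have hkr : (1 : ℝ) ≤ k := by exact_mod_cast hk
  have hδ'0 : 0 < δ' := by rw [hδ']; positivity
  have hδ'1 : δ' ≤ 1 := by
    rw [hδ', div_le_one (by positivity)]
    nlinarith
  obtain ⟨K0, hK0, hsing⟩ := sing_aff k A hk δ' hδ'0 hδ'1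
  obtain ⟨sm, hsm⟩ : ∃ sm, sm = 4 * Bw + 2 * cM + 1 := ⟨_, rfl⟩
  obtain ⟨D, hDd⟩ : ∃ D, D = sm + 0 + 3 + A + 4 * k + 1 := ⟨_, rfl⟩
  refine ⟨K0, D, hK0, fun K' => ?_⟩
  obtain ⟨A1, hA1⟩ : ∃ A1, A1 = 2 * K' + A + 2 * k + 1 := ⟨_, rfl⟩
  obtain ⟨e0, hE0⟩ := variance_aff k A Bw K' hk
  obtain ⟨e1, hE1⟩ := prime_aff k A1 Bw hk
  obtain ⟨E0, hE0d⟩ : ∃ E0, E0 = max e0 e1 + 1 := ⟨_, rfl⟩
  obtain ⟨m0, h0⟩ := hE0 (E0 + 1) δ' hδ'0 hδ'1
  obtain ⟨m1, h1⟩ := hE1 (E0 + 1)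
  obtain ⟨m2, h2⟩ := Vz_inv_small (E0 + 1)
  obtain ⟨m3, h3⟩ := ev_log' ((E0 + 1) * (W * 80)) 1
  obtain ⟨m4, h4⟩ := ev_L' (max (max (2 * C ^ 2 + 8 : ℝ) (k ^ 2 + k + 1 : ℝ)) (k * (k + 3) / δ))
  obtain ⟨m5, h5⟩ := ev_log' (E0 + 1 + K') 28
  obtain ⟨m6, h6⟩ := hsing (E0 + 1)
  refine ⟨max (max (max m0 m1) m2) (max m3 (max m4 (max m5 (max m6 16)))), ?_⟩
  intro N hN Y w g hw0 hwL hY1 hY2 h hinj hh hg M hM hMc
  have n0 : m0 ≤ N := le_trans (le_trans (le_trans (le_max_left _ _) (le_max_left _ _)) (le_max_left _ _)) hN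
  have n1 : m1 ≤ N := le_trans (le_trans (le_trans (le_max_right _ _) (le_max_left _ _)) (le_max_left _ _)) hN
  have n2 : m2 ≤ N := le_trans (le_trans (le_max_right _ _) (le_max_left _ _)) hN
  have n3 : m3 ≤ N := le_trans (le_trans (le_max_left _ _) (le_max_right _ _)) hN
  have nn := le_trans (le_max_right m3 _) (le_trans (le_max_right _ _) hN)
  have n4 : m4 ≤ N := le_trans (le_max_left _ _) nn
  have n5 : m5 ≤ N := le_trans (le_trans (le_max_left _ _) (le_max_right _ _)) nn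
  have nn' := le_trans (le_max_right m5 _) (le_trans (le_max_right _ _) nn)
  have n6 : m6 ≤ N := le_trans (le_max_left _ _) nn'
  have hN16 : 16 ≤ N := le_trans (le_max_right _ _) nn'
  have hN0 : (0 : ℝ) < N := by exact_mod_cast (show 0 < N by omega)
  have b3 := h3 N n3
  have b4 := h4 N n4
  have b5 := h5 N n5
  have hvar := h0 N n0
  have hpp := h1 N n1
  have hVz := h2 N n2
  have hsi6 := h6 N n6
  set L := Real.log N with hL
  have l1 : (2 * C ^ 2 + 8 : ℝ) ≤ L := le_trans (le_trans (le_max_left _ _) (le_max_left _ _)) b4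
  have l4 : (k ^ 2 + k + 1 : ℝ) ≤ L := le_trans (le_trans (le_max_right _ _) (le_max_left _ _)) b4
  have l2 : k * (k + 3) / δ ≤ L := le_trans (le_max_right _ _) b4
  have hmr : (1 : ℝ) ≤ m := by exact_mod_cast hm
  have hCr : (1 : ℝ) ≤ C := by exact_mod_cast hC1
  have hL8 : 8 ≤ L := by
    have hC2 := sq_nonneg (C : ℝ)
    linarith only [hC2, l1]
  have hL1 : 1 ≤ L := by linarith
  have hL0 : 0 < L := by linarith
  -- the parameter `z`
  obtain ⟨z, hz⟩ : ∃ z, z = ⌈L ^ E0⌉₊ := ⟨_, rfl⟩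
  have hz1 : L ^ E0 ≤ z := by rw [hz]; exact Nat.le_ceil _
  have hz1' : L ≤ z := (le_self_pow₀ hL1 (by omega)).trans hz1
  have hz2 : (z : ℝ) + 1 ≤ L ^ (E0 + 1) := by
    have g1 := (Nat.ceil_lt_add_one (show 0 ≤ L ^ E0 by positivity)).le
    rw [← hz] at g1
    have g2 : 1 ≤ L ^ E0 := one_le_pow₀ hL1
    rw [pow_succ]
    exact aux_z g1 g2 hL8
  have hz2' : (z : ℝ) ≤ L ^ (E0 + 1) := by linarith
  have hz8 : 8 ≤ z := by
    have : (8 : ℝ) ≤ z := by linarith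
    exact_mod_cast this
  have hze0 : L ^ e0 ≤ z := (pow_le_pow_right₀ hL1 (by have := le_max_left e0 e1; omega)).trans hz1
  have hze1 : L ^ e1 ≤ z := (pow_le_pow_right₀ hL1 (by have := le_max_right e0 e1; omega)).trans hz1
  have hhz : ∀ l, h l ≤ z := fun l => by exact_mod_cast (hh l).trans hz1'
  -- the parameters `x` and `R`
  obtain ⟨x, hx1, hx2, hx3⟩ := root_exists (W * 80) N (by omega) (by omega)
  have hsq : √(N : ℝ) ≤ N := aux_sqrt (by exact_mod_cast (show 1 ≤ N by omega))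
  have hzx : z ≤ x := by
    by_contra hcon
    have g1 : (x + 1) ^ (W * 80) ≤ (z + 1) ^ (W * 80) := Nat.pow_le_pow_left (by omega) _
    have g2 : ((z : ℝ) + 1) ^ (W * 80) ≤ N := by
      calc ((z : ℝ) + 1) ^ (W * 80) ≤ (L ^ (E0 + 1)) ^ (W * 80) := pow_le_pow_left₀ (by positivity) hz2 _
        _ = 1 * L ^ ((E0 + 1) * (W * 80)) := by rw [one_mul, ← pow_mul]
        _ ≤ √N := b3
        _ ≤ N := hsq
    have g3 : (z + 1) ^ (W * 80) ≤ N := by exact_mod_cast g2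
    omega
  have hx3' : 3 ≤ x := by omega
  obtain ⟨R, hRd⟩ : ∃ R, R = x ^ W := ⟨_, rfl⟩
  have hR80 : R ^ 80 ≤ N := by rw [hRd, ← pow_mul]; exact hx2
  have hxR : x ≤ R := by rw [hRd]; exact Nat.le_self_pow (by omega) x
  have hR1 : 1 ≤ R := by omega
  have hR3 : 3 ≤ R := by omega
  have hRr : (1 : ℝ) ≤ R := by exact_mod_cast hR1
  obtain ⟨Λ, w1, w2, w3, w4, w5⟩ := weights_spec C J z R x k W hC1 hC hx3' hzx hk2 hW (by rw [hRd]) (by
    rw [hRd]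
    exact Nat.pow_lt_pow_left (Nat.lt_succ_self x) (by omega))
  have hlR : Real.log R ≤ L := by
    apply Real.log_le_log (by linarith)
    exact_mod_cast (Nat.le_self_pow (by norm_num : (80:ℕ) ≠ 0) R).trans hR80
  have hlR0 : 0 ≤ Real.log R := Real.log_nonneg hRr
  have hΛB : ∀ d ∈ PD (Fin k) z R, |Λ d| ≤ L ^ Bw := by
    intro d hd
    refine (w1 d hd).trans ?_
    rw [hBw, pow_mul]
    have hVR0 : 0 ≤ (Vz R)⁻¹ := (inv_pos.2 (Vz_pos R)).le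
    apply pow_le_pow_left₀ (by positivity)
    have g1 := hC R hR3
    have g2 : (Vz R)⁻¹ ≤ C * L := g1.trans (mul_le_mul_of_nonneg_left hlR (by positivity))
    calc 2 * ((Vz R)⁻¹ * (Vz R)⁻¹) ≤ 2 * ((C * L) * (C * L)) := by gcongr
      _ = (2 * C ^ 2) * L ^ 2 := by ring
      _ ≤ L * L ^ 2 := by
          apply mul_le_mul_of_nonneg_right _ (by positivity)
          linarith
      _ = L ^ 3 := by ring
  have hΛi : ∀ i, ∀ d ∈ PD (Fin k) z R, |Lr Λ i d| ≤ L ^ Bw := fun i d hd' => (Lr_abs Λ i d).trans (hΛB d hd')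
  have hsi : ∀ i, ∀ d, Lr Λ i d ≠ 0 → ∏ l, d l ≤ R ∧ d i = 1 := fun i d hd' => ⟨w2 d (Lr_ne Λ i d hd').1, (Lr_ne Λ i d hd').2⟩
  -- `Y`
  have hLK : (28 : ℝ) * L ^ (E0 + 1) * L ^ K' ≤ √N := by
    refine le_trans (le_of_eq ?_) b5
    rw [mul_assoc, ← pow_add]
  have hsqY : √(N : ℝ) * (28 * L ^ (E0 + 1)) ≤ Y := by
    refine le_trans ?_ hY2
    rw [le_div_iff₀ (by positivity)]
    calc √(N : ℝ) * (28 * L ^ (E0 + 1)) * L ^ K' = √(N : ℝ) * (28 * L ^ (E0 + 1) * L ^ K') := by ring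
      _ ≤ √(N : ℝ) * √N := mul_le_mul_of_nonneg_left hLK (Real.sqrt_nonneg _)
      _ = N := Real.mul_self_sqrt hN0.le
  have hLE1 : (1 : ℝ) ≤ L ^ (E0 + 1) := one_le_pow₀ hL1
  have hsq1 : (1 : ℝ) ≤ √N := by
    rw [Real.one_le_sqrt]
    exact_mod_cast (show 1 ≤ N by omega)
  have hYs : √(N : ℝ) ≤ Y := by
    refine le_trans ?_ hsqY
    exact le_mul_of_one_le_right (by linarith) (by linarith)
  have hY0 : (0 : ℝ) < Y := by linarith
  have hY1' : 1 ≤ Y := by exact_mod_cast hY0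
  have hzY : z ≤ Y := by
    have : (z : ℝ) ≤ Y := by
      refine le_trans ?_ hsqY
      calc (z : ℝ) ≤ L ^ (E0 + 1) := hz2'
        _ ≤ 28 * L ^ (E0 + 1) := by linarith
        _ ≤ √N * (28 * L ^ (E0 + 1)) := le_mul_of_one_le_left (by positivity) hsq1
    exact_mod_cast this
  have hRY : R ≤ Y := by
    have g1 : R ^ 2 ≤ N := (Nat.pow_le_pow_right hR1 (by norm_num)).trans hR80
    have g2 : (R : ℝ) ≤ √N := by
      apply Real.le_sqrt_of_sq_le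
      exact_mod_cast g1
    exact_mod_cast g2.trans hYs
  have hwz : w ≤ z := by exact_mod_cast hwL.trans hz1'
  have hv := hVz z (by omega) hz2'
  have hv1 : 1 ≤ (Vz z)⁻¹ := (one_le_inv₀ (Vz_pos z)).2 (Vz_le_one z)
  -- the ratio
  have hratio : 4 * m * L * Qf z R Λ ≤ (Vz z)⁻¹ * ∑ i, Qf z R (Lr Λ i) := by
    have g1 : L ≤ 160 * Real.log R := by
      have g2 : L ≤ Real.log (((x : ℝ) + 1) ^ (W * 80)) := by
        apply Real.log_le_log hN0
        have : ((N : ℕ) : ℝ) < (((x + 1) ^ (W * 80) : ℕ) : ℝ) := by exact_mod_cast hx3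
        push_cast at this
        exact this.le
      rw [Real.log_pow] at g2
      have hx3r : (3 : ℝ) ≤ x := by exact_mod_cast hx3'
      have g3 : Real.log ((x : ℝ) + 1) ≤ 2 * Real.log x := by
        have g4 : Real.log ((x : ℝ) + 1) ≤ Real.log ((x : ℝ) ^ 2) := Real.log_le_log (by positivity) (aux_sq hx3r)
        rw [Real.log_pow] at g4
        push_cast at g4
        exact g4
      have g5 : Real.log R = W * Real.log x := by rw [hRd]; push_cast; rw [Real.log_pow]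
      rw [g5]
      calc L ≤ ((W * 80 : ℕ) : ℝ) * Real.log ((x : ℝ) + 1) := g2
        _ ≤ ((W * 80 : ℕ) : ℝ) * (2 * Real.log x) := mul_le_mul_of_nonneg_left g3 (Nat.cast_nonneg _)
        _ = _ := by push_cast; ring
    have g2 : ((J : ℝ) + 1) / (288 * C ^ 2) ≥ 640 * m := aux_ratio J C m (by rw [hJ]; push_cast; ring) hCr
    have hQ0 : 0 ≤ Qf z R Λ := by linarith
    have hVp := Vz_pos z
    have g3 : (Vz z)⁻¹ * (((J : ℝ) + 1) / (288 * C ^ 2) * (Vz z * Real.log R) * Qf z R Λ) ≤ (Vz z)⁻¹ * ∑ i, Qf z R (Lr Λ i) :=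
      mul_le_mul_of_nonneg_left w5 (by linarith)
    refine le_trans ?_ g3
    have g4 : (Vz z)⁻¹ * (((J : ℝ) + 1) / (288 * C ^ 2) * (Vz z * Real.log R) * Qf z R Λ) =
        ((J : ℝ) + 1) / (288 * C ^ 2) * Real.log R * Qf z R Λ := by
      field_simp
    rw [g4]
    apply mul_le_mul_of_nonneg_right _ hQ0
    calc 4 * (m : ℝ) * L ≤ 4 * m * (160 * Real.log R) := by gcongr
      _ = 640 * m * Real.log R := by ring
      _ ≤ _ := mul_le_mul_of_nonneg_right g2 hlR0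
  -- the density
  obtain ⟨V, hV⟩ : ∃ V, V = Vr w z (cneg h) := ⟨_, rfl⟩
  obtain ⟨hwk, hVlow, hsg⟩ := hsi6 z Y w hz1' hz2' hw0 hwz hYs h M hM hMc
  have hw1 : 1 ≤ w := by omega
  have hWp1 : 1 ≤ Wp w := Wp_pos w
  have hWp2 : 2 ≤ Wp w := by
    have h2 : 2 ∈ pz w := mem_pz.2 ⟨by omega, Nat.prime_two⟩
    exact Nat.le_of_dvd (Wp_pos w) (dvd_Wp h2)
  have hWY4 : Wp w * (4 * Y) + g ≤ N := by
    have : Wp w * (4 * Y) = 4 * (Wp w * Y) := by ring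
    omega
  have hWYY : Y ≤ Wp w * Y := Nat.le_mul_of_pos_left Y (by omega)
  have hVlow' := hVlow
  rw [← hV] at hVlow
  have hV0 : 0 < V := lt_of_lt_of_le (by positivity) hVlow
  have hMc0 : (0 : ℝ) < M.card := lt_of_lt_of_le (by positivity) hMc
  obtain ⟨μ, hμ⟩ : ∃ μ, μ = M.card * V := ⟨_, rfl⟩
  have hμ0 : 0 < μ := by rw [hμ]; positivity
  -- the exceptional sets
  have x0 := hvar z R Y w g hze0 hz2' hR1 hR80 hWY4 hY2 hw1 hwz h hinj hhz hg M hM hMc hVlow' hsg Λ hΛB w2 w3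
  rw [← hV, ← hμ] at x0
  have xi : ∀ i, (((Ioc (2 * Y) (4 * Y)).filter (fun n => μ * Qf z R (Lr Λ i) / 2 < |TA z R (Wp w) g M h (Lr Λ i) n - μ * Qf z R (Lr Λ i)|)).card : ℝ) ≤ 104 * δ' * Y := by
    intro i
    have := hvar z R Y w g hze0 hz2' hR1 hR80 hWY4 hY2 hw1 hwz h hinj hhz hg M hM hMc hVlow' hsg (Lr Λ i) (hΛi i) (fun d hd' => (hsi i d hd').1) (w4 i)
    rw [← hV, ← hμ] at this
    exact this
  obtain ⟨Er, hEr⟩ : ∃ Er : ℕ → ℝ, Er = fun n => ∑ i : Fin k, |∑ s ∈ M, Df z R h i (Lr Λ i) (Wp w * (n - s) + g)| := ⟨_, rfl⟩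
  have hEr0 : ∀ n ∈ Ioc (2 * Y) (4 * Y), 0 ≤ Er n := fun n _ => by rw [hEr]; exact sum_nonneg fun _ _ => abs_nonneg _
  have hErS : ∑ n ∈ Ioc (2 * Y) (4 * Y), Er n ≤ k * (N ^ 2 / L ^ A1) := by
    rw [hEr]
    rw [sum_comm]
    refine (sum_le_sum (fun i _ => hpp z R Y (Wp w) g hze1 hz2' hR1 hR80 hY1 hWp2 hzY hY1' h hinj hhz M hM i (Lr Λ i) (hΛi i) (hsi i))).trans (le_of_eq ?_)
    rw [sum_const, card_univ, Fintype.card_fin, nsmul_eq_mul]
  have xE := markov (Ioc (2 * Y) (4 * Y)) Er hEr0 μ hμ0 _ hErS (fun n => μ ≤ Er n) (fun _ _ h => h)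
  have xE' : (k * (N ^ 2 / L ^ A1)) / μ ≤ 104 * δ' * Y := by
    rw [div_le_iff₀ hμ0]
    have q1 : ((N : ℝ) / L ^ K') / L ^ A * (1 / L ^ (2 * k)) ≤ μ := by
      rw [hμ]
      have : ((N : ℝ) / L ^ K') / L ^ A ≤ M.card := le_trans (by gcongr) hMc
      gcongr
    have q2 : 104 * δ' * (N / L ^ K') * (((N : ℝ) / L ^ K') / L ^ A * (1 / L ^ (2 * k))) ≤ 104 * δ' * Y * μ := by gcongr
    refine le_trans ?_ q2
    rw [hδ']
    have e3 : L ^ A1 = (L ^ K') ^ 2 * L ^ A * L ^ (2 * k) * L := by rw [hA1]; ring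
    have e4 : k * ((N : ℝ) ^ 2 / L ^ A1) = (k * (k + 3) / δ) / L * (104 * (δ / (104 * (k + 3))) * (N / L ^ K') * (((N : ℝ) / L ^ K') / L ^ A * (1 / L ^ (2 * k)))) := by
      rw [e3]
      field_simp
    rw [e4]
    have e5 : (k * (k + 3) / δ) / L ≤ 1 := by rw [div_le_one hL0]; exact l2
    calc _ ≤ 1 * (104 * (δ / (104 * (k + 3))) * (N / L ^ K') * (((N : ℝ) / L ^ K') / L ^ A * (1 / L ^ (2 * k)))) :=
          mul_le_mul_of_nonneg_right e5 (by positivity)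
      _ = _ := one_mul _
  -- the second moment
  obtain ⟨WW, hWW⟩ : ∃ WW : ℕ → ℝ, WW = fun n => ∑ s ∈ M, FF z R h Λ (Wp w * (n - s) + g) ^ 2 := ⟨_, rfl⟩
  have hWW0 : ∀ n ∈ Ioc (2 * Y) (4 * Y), 0 ≤ WW n := fun n _ => by rw [hWW]; exact sum_nonneg fun _ _ => by positivity
  have hkL : (k : ℝ) ≤ L := by
    have : (0 : ℝ) ≤ (k : ℝ) ^ 2 := by positivity
    linarith
  have hR4 : R ^ 4 ≤ 4 * Y := by
    have g1 : (R ^ 4) ^ 2 ≤ N := by
      rw [← pow_mul]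
      exact (Nat.pow_le_pow_right hR1 (by norm_num)).trans hR80
    have g2 : ((R ^ 4 : ℕ) : ℝ) ≤ √N := by
      apply Real.le_sqrt_of_sq_le
      exact_mod_cast g1
    have g3 : R ^ 4 ≤ Y := by exact_mod_cast g2.trans hYs
    omega
  have hWWS : ∑ n ∈ Ioc (2 * Y) (4 * Y), WW n ≤ M.card * (Y * L ^ sm) := by
    rw [hWW]
    simp only
    rw [sum_comm]
    have e1 : ∀ s ∈ M, ∑ n ∈ Ioc (2 * Y) (4 * Y), FF z R h Λ (Wp w * (n - s) + g) ^ 2 ≤ Y * L ^ sm := by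
      intro s hs'
      have hj := mem_Icc.1 (hM hs')
      have g1 := hcM z R (4 * Y) w g h Λ (L ^ Bw) hinj hhz hwz hR1 hR4 (by positivity) hΛB w2
      have hl4 : 1 + Real.log ((4 * Y : ℕ) : ℝ) ≤ L ^ 2 := by
        have h4Y : Real.log ((4 * Y : ℕ) : ℝ) ≤ L := by
          apply Real.log_le_log
          · exact_mod_cast (by omega : 0 < 4 * Y)
          · exact_mod_cast (by nlinarith : 4 * Y ≤ N)
        nlinarith
      have hl40 : 0 ≤ 1 + Real.log ((4 * Y : ℕ) : ℝ) := by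
        have := Real.log_natCast_nonneg (4 * Y)
        linarith
      have g2 : ∑ b ∈ Icc 1 (4 * Y), SS z R Λ (cneg h) (Wp w * b + g) ^ 4 ≤ Y * L ^ sm := by
        calc _ ≤ (L ^ Bw) ^ 4 * (2 * ((4 * Y : ℕ) : ℝ) * (1 + Real.log ((4 * Y : ℕ) : ℝ)) ^ cM) := g1
          _ ≤ (L ^ Bw) ^ 4 * (2 * ((4 * Y : ℕ) : ℝ) * (L ^ 2) ^ cM) := by gcongr
          _ = (L ^ Bw) ^ 4 * (8 * Y * (L ^ 2) ^ cM) := by push_cast; ring
          _ ≤ (L ^ Bw) ^ 4 * (L * Y * (L ^ 2) ^ cM) := by gcongr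
          _ = Y * L ^ sm := by rw [hsm]; ring
      refine le_trans ?_ g2
      apply sum_inj_le' _ _ (fun n => n - s)
      · intro n hn
        rw [mem_Ioc] at hn
        rw [mem_Icc]
        omega
      · intro n hn n' hn' hnn
        rw [mem_coe, mem_Ioc] at hn hn'
        have hnn' : n - s = n' - s := hnn
        omega
      · intro b _; positivity
      · intro n _
        have g3 := FF_le z R h Λ (Wp w * (n - s) + g)
        have g4 := FF_nonneg z R h Λ (Wp w * (n - s) + g)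
        calc FF z R h Λ (Wp w * (n - s) + g) ^ 2 ≤ (SS z R Λ (cneg h) (Wp w * (n - s) + g) ^ 2) ^ 2 := pow_le_pow_left₀ g4 g3 2
          _ = _ := by ring
    refine (sum_le_sum e1).trans (le_of_eq ?_)
    rw [sum_const, nsmul_eq_mul]
  obtain ⟨t2, ht2⟩ : ∃ t2 : ℝ, t2 = M.card * L ^ (sm + 0 + 1) := ⟨_, rfl⟩
  have ht20 : 0 < t2 := by rw [ht2]; positivity
  have xW := markov (Ioc (2 * Y) (4 * Y)) WW hWW0 t2 ht20 _ hWWS (fun n => t2 ≤ WW n) (fun _ _ h => h)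
  have xW' : (M.card * (Y * L ^ sm)) / t2 ≤ 104 * δ' * Y := by
    have e1 : (M.card * (Y * L ^ sm)) / t2 = (1 / L) * Y := by
      rw [ht2, pow_add, pow_add, pow_one, pow_zero]
      field_simp
    rw [e1]
    have e2 : 1 / L ≤ 104 * δ' := by
      rw [hδ']
      rw [div_le_iff₀ hL0]
      have e3 : 104 * (δ / (104 * (k + 3))) * L = δ * L / (k + 3) := by field_simp
      rw [e3, le_div_iff₀ (by positivity), one_mul]
      rw [div_le_iff₀ hδ] at l2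
      have : (1 : ℝ) * (k + 3) ≤ k * (k + 3) := mul_le_mul_of_nonneg_right hkr (by positivity)
      linarith
    exact mul_le_mul_of_nonneg_right e2 hY0.le
  -- the bad integers are exceptional
  have hsub : (Ioc (2 * Y) (4 * Y)).filter (fun n => ((M.filter (fun s => m ≤ np h (Wp w * (n - s) + g))).card : ℝ) < Y / L ^ D) ⊆
      ((((Ioc (2 * Y) (4 * Y)).filter (fun n => μ * Qf z R Λ / 2 < |TA z R (Wp w) g M h Λ n - μ * Qf z R Λ|)) ∪
        ((Ioc (2 * Y) (4 * Y)).filter (fun n => μ ≤ Er n))) ∪ ((Ioc (2 * Y) (4 * Y)).filter (fun n => t2 ≤ WW n))) ∪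
      univ.biUnion (fun i : Fin k => (Ioc (2 * Y) (4 * Y)).filter (fun n => μ * Qf z R (Lr Λ i) / 2 < |TA z R (Wp w) g M h (Lr Λ i) n - μ * Qf z R (Lr Λ i)|)) := by
    intro n hn
    rw [mem_filter] at hn
    obtain ⟨hnI, hbad⟩ := hn
    rw [mem_union, mem_union, mem_union, mem_biUnion, mem_filter, mem_filter, mem_filter]
    by_contra hcon
    push Not at hcon
    obtain ⟨⟨⟨c1, c2⟩, c4⟩, c3⟩ := hcon
    have c1 := c1 hnI
    have c2 := c2 hnI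
    have c4 := c4 hnI
    have c3' : ∀ i : Fin k, |TA z R (Wp w) g M h (Lr Λ i) n - μ * Qf z R (Lr Λ i)| ≤ μ * Qf z R (Lr Λ i) / 2 := by
      intro i
      have := c3 i (mem_univ i)
      rw [mem_filter] at this
      push Not at this
      exact this hnI
    rw [mem_Ioc] at hnI
    have hpt : ∀ s ∈ M, Y < Wp w * (n - s) + g ∧ Wp w * (n - s) + g + Y ≤ N := by
      intro s hs'
      have hj := mem_Icc.1 (hM hs')
      have g1 : 1 * (Y + 1) ≤ Wp w * (n - s) := Nat.mul_le_mul hWp1 (by omega)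
      have g2 : Wp w * (n - s) ≤ Wp w * (4 * Y) := Nat.mul_le_mul_left _ (by omega)
      have g3 : Wp w * (4 * Y) = 4 * (Wp w * Y) := by ring
      constructor
      · omega
      · omega
    rw [hEr] at c2
    rw [hWW] at c4
    exact point_w m A sm 0 D N z R Y w g Y hm M (fun s => s) h Λ n L V μ t2 hL hL1 hhz hzY hRY hpt hμ hμ0 ht2 hVlow hMc hY1' hDd (by linarith) hv1 w3 hratio
      c1 c2 c4 c3' hbad
  calc _ ≤ (((((((Ioc (2 * Y) (4 * Y)).filter (fun n => μ * Qf z R Λ / 2 < |TA z R (Wp w) g M h Λ n - μ * Qf z R Λ|)) ∪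
        ((Ioc (2 * Y) (4 * Y)).filter (fun n => μ ≤ Er n))) ∪ ((Ioc (2 * Y) (4 * Y)).filter (fun n => t2 ≤ WW n))) ∪
      univ.biUnion (fun i : Fin k => (Ioc (2 * Y) (4 * Y)).filter (fun n => μ * Qf z R (Lr Λ i) / 2 < |TA z R (Wp w) g M h (Lr Λ i) n - μ * Qf z R (Lr Λ i)|))).card : ℕ) : ℝ) := by
        exact_mod_cast card_le_card hsub
    _ ≤ (((Ioc (2 * Y) (4 * Y)).filter (fun n => μ * Qf z R Λ / 2 < |TA z R (Wp w) g M h Λ n - μ * Qf z R Λ|)).card : ℝ) +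
        (((Ioc (2 * Y) (4 * Y)).filter (fun n => μ ≤ Er n)).card : ℝ) + (((Ioc (2 * Y) (4 * Y)).filter (fun n => t2 ≤ WW n)).card : ℝ) +
        ∑ i : Fin k, (((Ioc (2 * Y) (4 * Y)).filter (fun n => μ * Qf z R (Lr Λ i) / 2 < |TA z R (Wp w) g M h (Lr Λ i) n - μ * Qf z R (Lr Λ i)|)).card : ℝ) := by
        exact_mod_cast (card_union_le _ _).trans (add_le_add ((card_union_le _ _).trans (add_le_add (card_union_le _ _) le_rfl)) card_biUnion_le)
    _ ≤ 104 * δ' * Y + 104 * δ' * Y + 104 * δ' * Y + ∑ _i : Fin k, 104 * δ' * (Y : ℝ) := by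
        apply add_le_add (add_le_add (add_le_add x0 (xE.trans xE')) (xW.trans xW'))
        exact sum_le_sum fun i _ => xi i
    _ = 104 * δ' * (k + 3) * Y := by
        rw [sum_const, card_univ, Fintype.card_fin, nsmul_eq_mul]
        ring
    _ = δ * Y := by
        rw [hδ']
        field_simp

end Pool.Agent.L0h42.PP
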