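import Mathlib
import Pool.Agent.L0h42.PP.P6
import Pool.Agent.L0h42.CP.C8

/-! One residue class. -/

set_option autoImplicit false
set_option linter.unusedSectionVars false
set_option linter.unusedVariables false

namespace Pool.Agent.L0h42.PP
open Finset
open Pool.Agent.L0h42.TB
open Pool.Agent.L0h42.EG
open Pool.Agent.L0h42.CP
open Pool.Agent.H373R2.T7

open Classical in
/-- **patterns of primes in a residue class.** -/
theorem ap_class (hM4 : S_M4) (k : ℕ) (hk : 1 ≤ k) : ∃ k₁ K0 D : ℕ, 1 ≤ k₁ ∧ 1 ≤ K0 ∧ ∀ K' : ℕ, ∃ N0 : ℕ, ∀ N : ℕ, N0 ≤ N →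
    ∀ w g : ℕ, K0 * Real.log (Real.log N) ≤ w → (w : ℝ) ≤ Real.log N → (Wp w : ℝ) ≤ Real.log N ^ K' → g < Wp w →
    ∀ a : Fin k₁ → ℕ, Function.Injective a → (∀ l, (a l : ℝ) ≤ Real.log N) → (∀ l, ∀ p ∈ pz w, ¬ p ∣ g + a l) →
    ∃ (e : Fin k → Fin k₁) (K : Finset ℕ), Function.Injective e ∧ K ⊆ Icc 1 N ∧ (∀ t ∈ K, t % Wp w = g ∧ ∀ i, (t + a (e i)).Prime) ∧
      N / Real.log N ^ D ≤ Wp w * K.card := by
  obtain ⟨k₁, hk₁, hc⟩ := core_ap hM4 k hk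
  obtain ⟨K0, D, hK0, hc⟩ := hc 0 (1 / 2) (by norm_num) (by norm_num)
  refine ⟨k₁, K0, D + 1, hk₁, hK0, fun K' => ?_⟩
  obtain ⟨n1, h1⟩ := hc (K' + 1)
  obtain ⟨n2, h2⟩ := ev_L' (24 * 2 ^ k₁)
  obtain ⟨n3, h3⟩ := ev_log' K' 24
  refine ⟨max (max n1 n2) (max n3 16), fun N hN w g hw1 hw2 hW hg a ha1 ha2 ha3 => ?_⟩
  have q1 : n1 ≤ N := le_trans (le_trans (le_max_left _ _) (le_max_left _ _)) hN
  have q2 : n2 ≤ N := le_trans (le_trans (le_max_right _ _) (le_max_left _ _)) hN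
  have q3 : n3 ≤ N := le_trans (le_trans (le_max_left _ _) (le_max_right _ _)) hN
  have q4 : 16 ≤ N := le_trans (le_trans (le_max_right _ _) (le_max_right _ _)) hN
  have b2 := h2 N q2
  have b3 := h3 N q3
  have hcc := h1 N q1
  obtain ⟨L, hL⟩ : ∃ L, L = Real.log (N : ℝ) := ⟨_, rfl⟩
  obtain ⟨W, hWd⟩ : ∃ W, W = Wp w := ⟨_, rfl⟩
  rw [← hL] at b2 b3 hw2 hW ha2 hcc hw1 ⊢
  rw [← hWd] at hW hg ⊢
  have hW0 : 0 < W := by rw [hWd]; exact Wp_pos w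
  have hWr : (0 : ℝ) < W := by exact_mod_cast hW0
  have hN0 : (0 : ℝ) < N := by exact_mod_cast (by omega : 0 < N)
  have h2k : (1 : ℝ) ≤ 2 ^ k₁ := one_le_pow₀ (by norm_num)
  have hL24 : 24 ≤ L := by linarith
  have hL0 : 0 < L := by linarith
  have hWN : 24 * W ≤ N := by
    have : (24 * W : ℝ) ≤ N := by
      calc (24 * W : ℝ) ≤ 24 * L ^ K' := by linarith
        _ ≤ √N := b3
        _ ≤ N := aux_sqrt (by exact_mod_cast (by omega : 1 ≤ N))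
    exact_mod_cast this
  obtain ⟨Y, hY⟩ : ∃ Y, Y = N / (12 * W) := ⟨_, rfl⟩
  have hY1 : 12 * W * Y ≤ N := by rw [hY]; exact Nat.mul_div_le N (12 * W)
  have hY2 : N < 12 * W * (Y + 1) := by rw [hY]; exact Nat.lt_mul_div_succ N (by omega)
  have hYpos : 1 ≤ Y := by
    rw [hY]
    exact (Nat.one_le_div_iff (by omega)).2 (by omega)
  have hY3 : N ≤ 24 * W * Y := by
    have e1 : 12 * W * (Y + 1) = 12 * W * Y + 12 * W := by ring
    have e2 : 24 * W * Y = 12 * W * Y + 12 * W * Y := by ring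
    have e3 : 12 * W * 1 ≤ 12 * W * Y := Nat.mul_le_mul_left _ hYpos
    omega
  have hYN : (N : ℝ) / L ^ (K' + 1) ≤ Y := by
    rw [div_le_iff₀ (by positivity)]
    have g1 : (N : ℝ) ≤ 24 * W * Y := by exact_mod_cast hY3
    calc (N : ℝ) ≤ 24 * W * Y := g1
      _ ≤ 24 * L ^ K' * Y := by gcongr
      _ ≤ L * L ^ K' * Y := by gcongr
      _ = Y * L ^ (K' + 1) := by ring
  have hcore := hcc Y w g hw1 hw2 (by
    rw [← hWd]
    have e1 : 12 * W * Y = 12 * (W * Y) := by ring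
    omega) hYN a ha1 ha2 ha3 (Icc 1 Y) (Subset.refl _) (by
      rw [pow_zero, div_one, Nat.card_Icc]
      push_cast
      simp)
  -- a good point
  have hex : ∃ n ∈ Ioc (2 * Y) (4 * Y), (Y : ℝ) / L ^ D ≤ (((Icc 1 Y).filter (fun s => k ≤ np a (Wp w * (n - s) + g))).card : ℝ) := by
    by_contra hcon
    push Not at hcon
    have h5 : (Ioc (2 * Y) (4 * Y)).filter (fun n => (((Icc 1 Y).filter (fun s => k ≤ np a (Wp w * (n - s) + g))).card : ℝ) < Y / L ^ D) = Ioc (2 * Y) (4 * Y) := by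
      rw [filter_eq_self]
      exact hcon
    rw [h5, Nat.card_Ioc] at hcore
    have h6 : ((4 * Y - 2 * Y : ℕ) : ℝ) = 2 * Y := by
      have : 4 * Y - 2 * Y = 2 * Y := by omega
      rw [this]
      push_cast
      ring
    rw [h6] at hcore
    have h7 : (1 : ℝ) ≤ Y := by exact_mod_cast hYpos
    linarith
  obtain ⟨n, hn, hnc⟩ := hex
  rw [mem_Ioc] at hn
  obtain ⟨G, hG⟩ : ∃ G, G = ((Icc 1 Y).filter (fun s => k ≤ np a (Wp w * (n - s) + g))).image (fun s => Wp w * (n - s) + g) := ⟨_, rfl⟩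
  have hGc : G.card = ((Icc 1 Y).filter (fun s => k ≤ np a (Wp w * (n - s) + g))).card := by
    rw [hG]
    apply card_image_of_injOn
    intro s hs s' hs' hss
    rw [mem_coe, mem_filter, mem_Icc] at hs hs'
    have h5 : Wp w * (n - s) + g = Wp w * (n - s') + g := hss
    have h6 : Wp w * (n - s) = Wp w * (n - s') := by omega
    have h7 := Nat.eq_of_mul_eq_mul_left (Wp_pos w) h6
    omega
  have hGne : G.Nonempty := by
    rw [← card_pos, hGc]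
    have h7 : (0 : ℝ) < Y / L ^ D := by
      have : (0 : ℝ) < Y := by exact_mod_cast hYpos
      positivity
    have h8 := lt_of_lt_of_le h7 hnc
    exact_mod_cast h8
  obtain ⟨a₀, e, K, -, he, hK1, hK2, -, hK4⟩ := pigeon k k₁ 1 one_pos a G hGne (by
    intro t ht
    rw [hG, mem_image] at ht
    obtain ⟨s, hs, rfl⟩ := ht
    exact (mem_filter.1 hs).2)
  refine ⟨e, K, he, ?_, ?_, ?_⟩
  · intro t ht
    have h5 := hK1 ht
    rw [hG, mem_image] at h5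
    obtain ⟨s, hs, rfl⟩ := h5
    rw [mem_filter, mem_Icc] at hs
    rw [← hWd, mem_Icc]
    have g1 : W * 1 ≤ W * (n - s) := Nat.mul_le_mul_left _ (by omega)
    have g2 : W * (n - s) ≤ W * (4 * Y) := Nat.mul_le_mul_left _ (by omega)
    have g3 : W * (4 * Y) = 4 * (W * Y) := by ring
    have g4 : 12 * W * Y = 12 * (W * Y) := by ring
    omega
  · intro t ht
    refine ⟨?_, (hK2 t ht).2⟩
    have h5 := hK1 ht
    rw [hG, mem_image] at h5
    obtain ⟨s, hs, rfl⟩ := h5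
    rw [← hWd, Nat.mul_add_mod, Nat.mod_eq_of_lt hg]
  · rw [one_mul, hGc] at hK4
    have h5 : (((Icc 1 Y).filter (fun s => k ≤ np a (Wp w * (n - s) + g))).card : ℝ) ≤ 2 ^ k₁ * K.card := by exact_mod_cast hK4
    have h6 := hnc.trans h5
    rw [div_le_iff₀ (by positivity)] at h6 ⊢
    have g1 : (N : ℝ) ≤ 24 * W * Y := by exact_mod_cast hY3
    calc (N : ℝ) ≤ 24 * W * Y := g1
      _ ≤ 24 * W * (2 ^ k₁ * K.card * L ^ D) := by gcongr
      _ = (24 * 2 ^ k₁) * (W * K.card * L ^ D) := by ring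
      _ ≤ L * (W * K.card * L ^ D) := by gcongr
      _ = _ := by ring

/-- the Chinese remainder theorem for the small primes -/
lemma crt_small (w : ℕ) (x : ℕ → ℕ) : ∃ t, t < Wp w ∧ ∀ p ∈ pz w, t ≡ x p [MOD p] := by
  obtain ⟨t, ht⟩ := Nat.chineseRemainderOfFinset x (fun p => p) (pz w) (fun p hp => (mem_pz.1 hp).2.ne_zero) (by
    intro p hp q hq hne
    exact (Nat.coprime_primes (mem_pz.1 hp).2 (mem_pz.1 hq).2).2 hne)
  refine ⟨t % Wp w, Nat.mod_lt _ (Wp_pos w), fun p hp => ?_⟩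
  exact ((Nat.mod_modEq t (Wp w)).of_dvd (dvd_Wp hp)).trans (ht p hp)

section cls
variable {k₁ : ℕ}

/-- the `x` for which `x + a_i` and `n + σ f(x) + b_i` are prime for `m` common indices `i` -/
def SolP (Q : ℕ) (f : Polynomial ℤ) (σ : ℤ) (d : ℕ) (a b : Fin k₁ → ℕ) (m n : ℕ) : Finset ℕ :=
  (Icc 1 n).filter (fun x => Q * x ^ d ≤ n ∧
    m ≤ (univ.filter (fun i => (x + a i).Prime ∧ ((n : ℤ) + σ * f.eval (x : ℤ) + b i).toNat.Prime)).card)

/-- no local obstruction -/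
def LocP (f : Polynomial ℤ) (σ : ℤ) (a b : Fin k₁ → ℕ) (n : ℕ) : Prop :=
  ∀ p : ℕ, p.Prime → ∃ x : ℕ, ∀ i, ¬ p ∣ x + a i ∧ ¬ (p : ℤ) ∣ (n : ℤ) + σ * f.eval (x : ℤ) + b i

lemma eval_mod (f : Polynomial ℤ) (x y : ℤ) (M : ℤ) (h : M ∣ x - y) : M ∣ f.eval x - f.eval y :=
  h.trans (Polynomial.sub_dvd_eval_sub x y f)

open Classical in
/-- **one class.** -/
lemma class_w (Q : ℕ) (hQ : 1 ≤ Q) (f : Polynomial ℤ) (σ : ℤ) (hσ : σ = 1 ∨ σ = -1) (d k m : ℕ) (hd1 : 1 ≤ d) (a b : Fin k₁ → ℕ) (w Y Y0 X ν n₀ t0 : ℕ)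
    (hY : Y = 6 * Y0 / (5 * Wp w) + 1) (hWY : 100 * Wp w ≤ Y0) (hn0 : n₀ % Wp w = ν) (ht0 : t0 < Wp w)
    (ht0p : ∀ p ∈ pz w, ∀ i, ¬ (p : ℤ) ∣ (n₀ : ℤ) + σ * f.eval (t0 : ℤ) + b i)
    (hX : ∀ t ∈ Icc 1 X, 2 * |f.eval (t : ℤ)| ≤ Y0 ∧ Q * t ^ d ≤ Y0) (e : Fin k → Fin k₁) (he : Function.Injective e) (K : Finset ℕ)
    (hK : K ⊆ Icc 1 X) (hK2 : ∀ t ∈ K, t % Wp w = t0 ∧ ∀ i, (t + a (e i)).Prime) :
    ∃ (g : ℕ) (c : ℤ) (S : ℕ → ℕ), g < Wp w ∧ |c| ≤ Wp w * (2 * Y) ∧ (∀ l, ∀ p ∈ pz w, ¬ p ∣ g + b (e l)) ∧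
      (∀ t ∈ K, 1 ≤ S t ∧ S t ≤ Y ∧ (Wp w : ℤ) * S t = c - σ * f.eval (t : ℤ)) ∧ ∀ T : ℝ,
      ((Ioc (2 * Y0) (4 * Y0)).filter (fun n => n % Wp w = ν ∧ ((SolP Q f σ d a b m n).card : ℝ) < T)).card ≤
        ((Ioc (2 * Y) (4 * Y)).filter (fun n => ((K.filter (fun t => m ≤ np (fun l => b (e l)) (Wp w * (n - S t) + g))).card : ℝ) < T)).card := by
  obtain ⟨W, hW⟩ : ∃ W, W = Wp w := ⟨_, rfl⟩
  have hW0 : 0 < W := by rw [hW]; exact Wp_pos w
  have hWz : (0 : ℤ) < W := by exact_mod_cast hW0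
  have hdW : ∀ p ∈ pz w, (p : ℤ) ∣ (W : ℤ) := fun p hp => by rw [hW]; exact_mod_cast dvd_Wp hp
  rw [← hW] at hY hWY hn0 ht0 hK2 ⊢
  -- sizes
  have hWY1 : 6 * Y0 < 5 * (W * Y) ∧ 5 * (W * Y) ≤ 6 * Y0 + 5 * W := by
    have h1 : 5 * W * (6 * Y0 / (5 * W)) ≤ 6 * Y0 := Nat.mul_div_le _ _
    have h2 : 6 * Y0 < 5 * W * (6 * Y0 / (5 * W) + 1) := Nat.lt_mul_div_succ _ (by omega)
    rw [← hY] at h2
    have e1 : 5 * W * Y = 5 * (W * Y) := by ring
    have e2 : 5 * W * (6 * Y0 / (5 * W) + 1) = 5 * W * (6 * Y0 / (5 * W)) + 5 * W := by ring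
    rw [← hY] at e2
    constructor
    · omega
    · omega
  obtain ⟨q, hq⟩ : ∃ q, q = Y / 2 := ⟨_, rfl⟩
  have hq1 : 2 * (W * q) ≤ W * Y ∧ W * Y ≤ 2 * (W * q) + W := by
    have h1 : 2 * q ≤ Y := by omega
    have h2 : Y ≤ 2 * q + 1 := by omega
    have h3 := Nat.mul_le_mul_left W h1
    have h4 := Nat.mul_le_mul_left W h2
    have e1 : W * (2 * q) = 2 * (W * q) := by ring
    have e2 : W * (2 * q + 1) = 2 * (W * q) + W := by ring
    omega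
  obtain ⟨r, hr⟩ : ∃ r : ℤ, r = (σ * f.eval (t0 : ℤ)) % (W : ℤ) := ⟨_, rfl⟩
  have hr0 : 0 ≤ r := by rw [hr]; exact Int.emod_nonneg _ hWz.ne'
  have hr1 : r < W := by rw [hr]; exact Int.emod_lt_of_pos _ hWz
  obtain ⟨c, hc⟩ : ∃ c : ℤ, c = r + (W * q : ℕ) := ⟨_, rfl⟩
  obtain ⟨g', hg'⟩ : ∃ g' : ℤ, g' = ((ν : ℤ) + σ * f.eval (t0 : ℤ)) % (W : ℤ) := ⟨_, rfl⟩
  have hg0 : 0 ≤ g' := by rw [hg']; exact Int.emod_nonneg _ hWz.ne'
  have hg1 : g' < W := by rw [hg']; exact Int.emod_lt_of_pos _ hWz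
  obtain ⟨g, hg⟩ : ∃ g : ℕ, (g : ℤ) = g' := ⟨g'.toNat, Int.toNat_of_nonneg hg0⟩
  have hgW : g < W := by
    have : (g : ℤ) < W := by rw [hg]; exact hg1
    exact_mod_cast this
  -- congruences
  have hcm : (W : ℤ) ∣ c - σ * f.eval (t0 : ℤ) := by
    have h1 : (W : ℤ) ∣ r - σ * f.eval (t0 : ℤ) := by
      rw [hr]
      have := Int.emod_add_mul_ediv (σ * f.eval (t0 : ℤ)) W
      refine ⟨-(σ * f.eval (t0 : ℤ) / W), ?_⟩
      linarith
    rw [hc]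
    have e1 : r + ((W * q : ℕ) : ℤ) - σ * f.eval (t0 : ℤ) = (r - σ * f.eval (t0 : ℤ)) + W * q := by push_cast; ring
    rw [e1]
    exact dvd_add h1 (dvd_mul_right _ _)
  have hgm : (W : ℤ) ∣ (ν : ℤ) + σ * f.eval (t0 : ℤ) - g := by
    rw [hg, hg']
    have := Int.emod_add_mul_ediv ((ν : ℤ) + σ * f.eval (t0 : ℤ)) W
    refine ⟨((ν : ℤ) + σ * f.eval (t0 : ℤ)) / W, ?_⟩
    linarith
  have htm : ∀ t ∈ K, (W : ℤ) ∣ σ * f.eval (t : ℤ) - σ * f.eval (t0 : ℤ) := by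
    intro t ht
    have h1 := (hK2 t ht).1
    have h2 : (W : ℤ) ∣ (t : ℤ) - t0 := by
      have h3 : t ≡ t0 [MOD W] := by
        unfold Nat.ModEq
        rw [h1, Nat.mod_eq_of_lt ht0]
      exact (Nat.modEq_iff_dvd.1 h3.symm)
    have h4 := eval_mod f t t0 W h2
    rw [← mul_sub]
    exact h4.mul_left _
  have hnm : (W : ℤ) ∣ (n₀ : ℤ) - ν := by
    have h3 : n₀ ≡ ν [MOD W] := by
      unfold Nat.ModEq
      rw [hn0]
      rw [← hn0, Nat.mod_mod]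
    exact (Nat.modEq_iff_dvd.1 h3.symm)
  -- the sequence
  have hSex : ∀ t ∈ K, ∃ s : ℕ, 1 ≤ s ∧ s ≤ Y ∧ (W : ℤ) * s = c - σ * f.eval (t : ℤ) := by
    intro t ht
    have h1 : (W : ℤ) ∣ c - σ * f.eval (t : ℤ) := by
      have := dvd_sub hcm (htm t ht)
      have e1 : c - σ * f.eval (t0 : ℤ) - (σ * f.eval (t : ℤ) - σ * f.eval (t0 : ℤ)) = c - σ * f.eval (t : ℤ) := by ring
      rwa [e1] at this
    obtain ⟨s, hs⟩ := h1
    have hb := (hX t (hK ht)).1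
    have hb2 : |σ * f.eval (t : ℤ)| = |f.eval (t : ℤ)| := by
      rcases hσ with h | h <;> rw [h] <;> simp
    have hb3 : -(Y0 : ℤ) ≤ 2 * (σ * f.eval (t : ℤ)) ∧ 2 * (σ * f.eval (t : ℤ)) ≤ Y0 := by
      have := abs_le.1 (le_of_eq hb2)
      constructor <;> linarith [this.1, this.2]
    have hs1 : 0 < s := by
      by_contra hcon
      have h5 : (W : ℤ) * s ≤ 0 := mul_nonpos_of_nonneg_of_nonpos hWz.le (by linarith)
      have h6 : (W : ℤ) * s = r + ((W * q : ℕ) : ℤ) - σ * f.eval (t : ℤ) := by rw [← hs, hc]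
      have h7 : (6 * Y0 : ℤ) < 5 * ((W * Y : ℕ) : ℤ) := by exact_mod_cast hWY1.1
      have h8 : ((W * Y : ℕ) : ℤ) ≤ 2 * ((W * q : ℕ) : ℤ) + W := by exact_mod_cast hq1.2
      have h9 : (100 * W : ℤ) ≤ Y0 := by exact_mod_cast hWY
      linarith [hb3.1, hb3.2]
    have hs2 : s ≤ Y := by
      by_contra hcon
      have h5 : (W : ℤ) * (Y + 1) ≤ W * s := mul_le_mul_of_nonneg_left (by linarith) hWz.le
      have h6 : (W : ℤ) * s = r + ((W * q : ℕ) : ℤ) - σ * f.eval (t : ℤ) := by rw [← hs, hc]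
      have h7 : (6 * Y0 : ℤ) < 5 * ((W * Y : ℕ) : ℤ) := by exact_mod_cast hWY1.1
      have h8 : 2 * ((W * q : ℕ) : ℤ) ≤ ((W * Y : ℕ) : ℤ) := by exact_mod_cast hq1.1
      have h9 : (100 * W : ℤ) ≤ Y0 := by exact_mod_cast hWY
      have h10 : (W : ℤ) * (Y + 1) = ((W * Y : ℕ) : ℤ) + W := by push_cast; ring
      linarith [hb3.1, hb3.2]
    refine ⟨s.toNat, ?_, ?_, ?_⟩
    · have : (1 : ℤ) ≤ s.toNat := by rw [Int.toNat_of_nonneg hs1.le]; linarith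
      exact_mod_cast this
    · have : (s.toNat : ℤ) ≤ Y := by rw [Int.toNat_of_nonneg hs1.le]; exact hs2
      exact_mod_cast this
    · rw [Int.toNat_of_nonneg hs1.le, hs]
  choose! S hS using hSex
  refine ⟨g, c, S, hgW, ?_, ?_, hS, ?_⟩
  · -- the size of `c`
    have h8 : 2 * ((W * q : ℕ) : ℤ) ≤ ((W * Y : ℕ) : ℤ) := by exact_mod_cast hq1.1
    have h7 : (6 * Y0 : ℤ) < 5 * ((W * Y : ℕ) : ℤ) := by exact_mod_cast hWY1.1
    have h9 : (100 * W : ℤ) ≤ Y0 := by exact_mod_cast hWY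
    have h10 : (W : ℤ) * (2 * Y) = 2 * ((W * Y : ℕ) : ℤ) := by push_cast; ring
    have h11 : (0 : ℤ) ≤ ((W * q : ℕ) : ℤ) := Int.natCast_nonneg _
    rw [h10, hc, abs_of_nonneg (by linarith)]
    linarith
  · -- coprimality
    intro l p hp hd
    apply ht0p p hp (e l)
    have h1 : (p : ℤ) ∣ (g : ℤ) + b (e l) := by exact_mod_cast hd
    have h2 := (hdW p hp).trans hgm
    have h3 := (hdW p hp).trans hnm
    have e1 : (n₀ : ℤ) + σ * f.eval (t0 : ℤ) + b (e l) = ((n₀ : ℤ) - ν) + ((ν : ℤ) + σ * f.eval (t0 : ℤ) - g) + ((g : ℤ) + b (e l)) := by ring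
    rw [e1]
    exact dvd_add (dvd_add h3 h2) h1
  · -- the exceptional integers
    intro T
    have hmap : ∀ n ∈ Ioc (2 * Y0) (4 * Y0), n % W = ν → ∃ n' : ℕ, n' ∈ Ioc (2 * Y) (4 * Y) ∧ (W : ℤ) * n' = n + c - g := by
      intro n hn hnν
      rw [mem_Ioc] at hn
      have h1 : (W : ℤ) ∣ (n : ℤ) + c - g := by
        have h3 : n ≡ ν [MOD W] := by
          unfold Nat.ModEq
          rw [hnν, ← hnν, Nat.mod_mod]
        have h4 : (W : ℤ) ∣ (n : ℤ) - ν := Nat.modEq_iff_dvd.1 h3.symm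
        have e1 : (n : ℤ) + c - g = ((n : ℤ) - ν) + ((ν : ℤ) + σ * f.eval (t0 : ℤ) - g) + (c - σ * f.eval (t0 : ℤ)) := by ring
        rw [e1]
        exact dvd_add (dvd_add h4 hgm) hcm
      obtain ⟨s, hs⟩ := h1
      have h7 : (6 * Y0 : ℤ) < 5 * ((W * Y : ℕ) : ℤ) := by exact_mod_cast hWY1.1
      have h7' : 5 * ((W * Y : ℕ) : ℤ) ≤ 6 * Y0 + 5 * W := by exact_mod_cast hWY1.2
      have h8 : 2 * ((W * q : ℕ) : ℤ) ≤ ((W * Y : ℕ) : ℤ) := by exact_mod_cast hq1.1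
      have h8' : ((W * Y : ℕ) : ℤ) ≤ 2 * ((W * q : ℕ) : ℤ) + W := by exact_mod_cast hq1.2
      have h9 : (100 * W : ℤ) ≤ Y0 := by exact_mod_cast hWY
      have hn1 : (2 * Y0 : ℤ) < n := by exact_mod_cast hn.1
      have hn2 : (n : ℤ) ≤ 4 * Y0 := by exact_mod_cast hn.2
      have hgz : (0 : ℤ) ≤ g := Int.natCast_nonneg g
      have hgz1 : (g : ℤ) < W := by exact_mod_cast hgW
      rw [hc] at hs
      have hs1 : 2 * (Y : ℤ) < s := by
        by_contra hcon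
        have h5 : (W : ℤ) * s ≤ W * (2 * Y) := mul_le_mul_of_nonneg_left (by linarith) hWz.le
        have h10 : (W : ℤ) * (2 * Y) = 2 * ((W * Y : ℕ) : ℤ) := by push_cast; ring
        linarith
      have hs2 : s ≤ 4 * Y := by
        by_contra hcon
        have h5 : (W : ℤ) * (4 * Y + 1) ≤ W * s := mul_le_mul_of_nonneg_left (by linarith) hWz.le
        have h10 : (W : ℤ) * (4 * Y + 1) = 4 * ((W * Y : ℕ) : ℤ) + W := by push_cast; ring
        linarith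
      have hs0 : 0 ≤ s := by
        have := Int.natCast_nonneg Y
        linarith
      refine ⟨s.toNat, ?_, ?_⟩
      · rw [mem_Ioc]
        constructor
        · have : ((2 * Y : ℕ) : ℤ) < s.toNat := by rw [Int.toNat_of_nonneg hs0]; push_cast; linarith
          exact_mod_cast this
        · have : (s.toNat : ℤ) ≤ ((4 * Y : ℕ) : ℤ) := by rw [Int.toNat_of_nonneg hs0]; push_cast; linarith
          exact_mod_cast this
      · rw [Int.toNat_of_nonneg hs0, ← hs, hc]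
    choose! φ hφ using hmap
    apply card_le_card_of_injOn φ
    · intro n hn
      rw [mem_coe, mem_filter] at hn
      obtain ⟨hn1, hn2, hn3⟩ := hn
      have hφn := hφ n hn1 hn2
      rw [mem_coe, mem_filter]
      refine ⟨hφn.1, lt_of_le_of_lt (Nat.cast_le.2 ?_) hn3⟩
      apply card_le_card
      intro t ht
      rw [mem_filter] at ht
      have hSt := hS t ht.1
      have htX := hX t (hK ht.1)
      have hφm := mem_Ioc.1 hφn.1
      rw [mem_Ioc] at hn1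
      unfold SolP
      rw [mem_filter, mem_Icc]
      have ht1 := mem_Icc.1 (hK ht.1)
      have hval : ((W * (φ n - S t) + g : ℕ) : ℤ) = (n : ℤ) + σ * f.eval (t : ℤ) := by
        push_cast [Nat.cast_sub (show S t ≤ φ n by omega)]
        rw [mul_sub, hφn.2, hSt.2.2]
        ring
      have htn : t ≤ n := by
        have h5 : t ≤ t ^ d := Nat.le_self_pow (by omega) t
        have h6 : t ^ d ≤ Q * t ^ d := Nat.le_mul_of_pos_left _ (by omega)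
        omega
      refine ⟨⟨ht1.1, htn⟩, by omega, ht.2.trans ?_⟩
      unfold np
      apply card_le_card_of_injOn e
      · intro l hl
        rw [mem_coe, mem_filter] at hl ⊢
        refine ⟨mem_univ _, (hK2 t ht.1).2 l, ?_⟩
        have h5 : (n : ℤ) + σ * f.eval (t : ℤ) + b (e l) = ((W * (φ n - S t) + g + b (e l) : ℕ) : ℤ) := by
          rw [← hval]
          push_cast
          ring
        rw [h5, Int.toNat_natCast]
        exact hl.2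
      · exact fun _ _ _ _ h => he h
    · intro n hn n' hn' hnn
      rw [mem_coe, mem_filter] at hn hn'
      have h1 := (hφ n hn.1 hn.2.1).2
      have h2 := (hφ n' hn'.1 hn'.2.1).2
      rw [hnn, h2] at h1
      have : (n : ℤ) = n' := by linarith
      exact_mod_cast this

end cls

end Pool.Agent.L0h42.PP
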