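import Mathlib
import Pool.Agent.L0h42.PP.P7
import Pool.Agent.L0h42.EG.E10

/-! All classes: almost all integers. -/

set_option autoImplicit false
set_option linter.unusedSectionVars false
set_option linter.unusedVariables false

namespace Pool.Agent.L0h42.PP
open Finset
open Pool.Agent.L0h42.TB
open Pool.Agent.L0h42.EG
open Pool.Agent.L0h42.CP
open Pool.Agent.H373R2.T7

set_option maxHeartbeats 4000000 in
open Classical in
/-- one dyadic block -/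
theorem block_w (hWC : S_WC) (hPR : S_PR) (hM4 : S_M4) (m e : ℕ) (hm : 1 ≤ m) (he : 1 ≤ e) : ∃ k₁ : ℕ, 1 ≤ k₁ ∧
    ∀ Q : ℕ, 1 ≤ Q → ∀ f : Polynomial ℤ, f.natDegree = e → 0 < f.leadingCoeff → ∀ σ : ℤ, (σ = 1 ∨ σ = -1) → ∀ a b : Fin k₁ → ℕ,
    Function.Injective a → Function.Injective b → ∀ δ : ℝ, 0 < δ → ∃ E Y0' : ℕ, ∀ Y0 : ℕ, Y0' ≤ Y0 →
    (((Ioc (2 * Y0) (4 * Y0)).filter (fun n => LocP f σ a b n ∧
      ((SolP Q f σ e a b m n).card : ℝ) < (n : ℝ) ^ (1 / (e : ℝ)) / Real.log n ^ E)).card : ℝ) ≤ δ * Y0 := by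
  obtain ⟨k, hk, hcore⟩ := core_w hWC hPR m e hm he
  obtain ⟨k₁, K0a, Da, hk₁, hK0a, hap⟩ := ap_class hM4 k hk
  refine ⟨k₁, hk₁, fun Q hQ f hfe hfl σ hσ a b ha hb δ₀ hδ₀ => ?_⟩
  obtain ⟨δ, hδd⟩ : ∃ δ : ℝ, δ = min (δ₀ / 8) 1 := ⟨_, rfl⟩
  have hδ : 0 < δ := by rw [hδd]; exact lt_min (by linarith) one_pos
  have hδ1 : δ ≤ 1 := by rw [hδd]; exact min_le_right _ _
  have hδ8 : δ ≤ δ₀ / 8 := by rw [hδd]; exact min_le_left _ _
  obtain ⟨q, hq⟩ : ∃ q : ℕ, q = cf f + Q := ⟨_, rfl⟩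
  have hq1 : 1 ≤ q := by omega
  obtain ⟨B1, hB1⟩ : ∃ B1 : ℕ, B1 = 16 * q * 2 ^ e := ⟨_, rfl⟩
  have hB1q : 16 * q ≤ B1 := by
    rw [hB1]
    exact Nat.le_mul_of_pos_right _ (by positivity)
  have hB11 : 1 ≤ B1 := by omega
  obtain ⟨K0, hK0, hc⟩ := hcore f hfe hfl B1 (Da + 1) δ hB11 hδ hδ1
  obtain ⟨K, hK⟩ : ∃ K, K = max K0 K0a + 2 := ⟨_, rfl⟩
  obtain ⟨D, n2, hc2⟩ := hc (2 * K + 2)
  obtain ⟨n1, hap1⟩ := hap (2 * (2 * K + 1))
  obtain ⟨E, hE⟩ : ∃ E, E = D + 2 * K + 2 := ⟨_, rfl⟩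
  obtain ⟨n3, h3⟩ := Wp_log K
  obtain ⟨n4, h4⟩ := ll_small ((K + 1) * (2 * e))
  obtain ⟨n5, h5⟩ := ev_L' (max (max (B1 * 2 ^ E + 8 + 4 * e ^ 2 : ℝ) (2 * e * ∑ l, (a l : ℝ))) (max (∑ l, (b l : ℝ)) (2 * Real.log B1)))
  obtain ⟨n6, h6⟩ := ev_log' (2 * K + 2) 8000
  obtain ⟨n8, h8⟩ := ev_log' ((2 * K + 1) * e) B1
  refine ⟨E, max (max (max n3 n2) (max n4 n8)) (max (max n5 n6) (B1 * (n1 + 1) ^ e + 8)), fun Y0 hY0 => ?_⟩
  obtain ⟨N, hN⟩ : ∃ N, N = 8 * Y0 := ⟨_, rfl⟩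
  have hYN : Y0 ≤ N := by omega
  have q3 : n3 ≤ N := le_trans (le_trans (le_trans (le_max_left _ _) (le_max_left _ _)) (le_trans (le_max_left _ _) hY0)) hYN
  have q2 : n2 ≤ N := le_trans (le_trans (le_trans (le_max_right _ _) (le_max_left _ _)) (le_trans (le_max_left _ _) hY0)) hYN
  have q4 : n4 ≤ N := le_trans (le_trans (le_trans (le_max_left _ _) (le_max_right _ _)) (le_trans (le_max_left _ _) hY0)) hYN
  have q8 : n8 ≤ N := le_trans (le_trans (le_trans (le_max_right _ _) (le_max_right _ _)) (le_trans (le_max_left _ _) hY0)) hYN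
  have q5 : n5 ≤ N := le_trans (le_trans (le_trans (le_max_left _ _) (le_max_left _ _)) (le_trans (le_max_right _ _) hY0)) hYN
  have q6 : n6 ≤ N := le_trans (le_trans (le_trans (le_max_right _ _) (le_max_left _ _)) (le_trans (le_max_right _ _) hY0)) hYN
  have q7 : B1 * (n1 + 1) ^ e + 8 ≤ Y0 := le_trans (le_max_right _ _) (le_trans (le_max_right _ _) hY0)
  have hB1n : B1 ≤ B1 * (n1 + 1) ^ e := Nat.le_mul_of_pos_right _ (by positivity)
  have b5 := h5 N q5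
  have b6 := h6 N q6
  have b8 := h8 N q8
  obtain ⟨hll, hl1⟩ := h4 N q4
  obtain ⟨w, hw⟩ : ∃ w, w = ⌈(K : ℝ) * Real.log (Real.log N)⌉₊ := ⟨_, rfl⟩
  have b3 := h3 N q3 w hw
  have hcc := hc2 N q2
  obtain ⟨L, hL⟩ : ∃ L, L = Real.log (N : ℝ) := ⟨_, rfl⟩
  rw [← hL] at b5 b6 b8 hll hl1 hw b3 hcc
  obtain ⟨l, hl⟩ : ∃ l, l = Real.log L := ⟨_, rfl⟩
  rw [← hl] at hll hl1 hw hcc
  have l1 : (B1 * 2 ^ E + 8 + 4 * e ^ 2 : ℝ) ≤ L := le_trans (le_trans (le_max_left _ _) (le_max_left _ _)) b5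
  have l2 : 2 * e * ∑ l, (a l : ℝ) ≤ L := le_trans (le_trans (le_max_right _ _) (le_max_left _ _)) b5
  have l3 : ∑ l, (b l : ℝ) ≤ L := le_trans (le_trans (le_max_left _ _) (le_max_right _ _)) b5
  have l4 : 2 * Real.log B1 ≤ L := le_trans (le_trans (le_max_right _ _) (le_max_right _ _)) b5
  have hB1r : (1 : ℝ) ≤ B1 := by exact_mod_cast hB11
  have her : (1 : ℝ) ≤ e := by exact_mod_cast he
  have hBE0 : (0 : ℝ) ≤ B1 * 2 ^ E := by positivity
  have hL8 : 8 ≤ L := by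
    have : (0 : ℝ) ≤ 4 * e ^ 2 := by positivity
    linarith
  have hBEL : (B1 * 2 ^ E : ℝ) ≤ L := by
    have : (0 : ℝ) ≤ 4 * e ^ 2 := by positivity
    linarith
  have he2L : (4 * e ^ 2 : ℝ) ≤ L := by linarith
  have hL0 : 0 < L := by linarith
  have hL1 : 1 ≤ L := by linarith
  -- the range of `t`
  obtain ⟨M, hM⟩ : ∃ M, M = Y0 / (2 * q) := ⟨_, rfl⟩
  have hM1 : 2 * q * M ≤ Y0 := by rw [hM]; exact Nat.mul_div_le _ _
  have hM2 : Y0 < 2 * q * (M + 1) := by rw [hM]; exact Nat.lt_mul_div_succ _ (by omega)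
  have hMpos : 1 ≤ M := by
    rw [hM]
    exact (Nat.one_le_div_iff (by omega)).2 (by omega)
  have hMY : M ≤ 2 * q * M := Nat.le_mul_of_pos_left _ (by omega)
  obtain ⟨X, hX1, hX2, hX3⟩ := root_exists e M he hMpos
  have hXe : X ≤ X ^ e := Nat.le_self_pow (by omega) X
  have hXN1 : X ≤ N := by omega
  have hNX : N ≤ B1 * X ^ e := by
    have g1 : (X + 1) ^ e ≤ (2 * X) ^ e := Nat.pow_le_pow_left (by omega) e
    have g2 : M + 1 ≤ 2 ^ e * X ^ e := by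
      rw [← mul_pow]
      omega
    have g3 : 2 * q * (M + 1) ≤ 2 * q * (2 ^ e * X ^ e) := Nat.mul_le_mul_left _ g2
    have g4 : B1 * X ^ e = 8 * (2 * q * (2 ^ e * X ^ e)) := by rw [hB1]; ring
    omega
  have hXN : X ^ e ≤ B1 * N := by
    have : N ≤ B1 * N := Nat.le_mul_of_pos_left _ (by omega)
    omega
  have hn1X : n1 ≤ X := by
    by_contra hcon
    have g1 : X ^ e ≤ (n1 + 1) ^ e := Nat.pow_le_pow_left (by omega) e
    have g2 := Nat.mul_le_mul_left B1 g1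
    omega
  have hXr : (1 : ℝ) ≤ X := by exact_mod_cast hX1
  have hX0 : (0 : ℝ) < X := by linarith
  have hN0 : (0 : ℝ) < N := lt_of_lt_of_le hX0 (by exact_mod_cast hXN1)
  obtain ⟨LX, hLX⟩ : ∃ LX, LX = Real.log (X : ℝ) := ⟨_, rfl⟩
  have hLXL : LX ≤ L := by
    rw [hLX, hL]
    exact Real.log_le_log hX0 (by exact_mod_cast hXN1)
  have hLLX : L ≤ 2 * e * LX := by
    have g1 : L ≤ Real.log ((B1 : ℝ) * X ^ e) := by
      rw [hL]
      exact Real.log_le_log hN0 (by exact_mod_cast hNX)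
    rw [Real.log_mul (by positivity) (by positivity), Real.log_pow, ← hLX] at g1
    linarith
  have h2e : (2 * e : ℝ) ≤ LX := by
    have g1 : (2 * e : ℝ) * (2 * e) ≤ 2 * e * LX := by
      refine le_trans (le_of_eq ?_) (he2L.trans hLLX)
      ring
    exact le_of_mul_le_mul_left g1 (by positivity)
  have hLX0 : 0 < LX := by linarith
  -- the parameter `w`
  have hKr : (K : ℝ) = (max K0 K0a : ℕ) + 2 := by rw [hK]; push_cast; ring
  have hK0r : (K0 : ℝ) ≤ K := by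
    rw [hKr]
    have : ((K0 : ℕ) : ℝ) ≤ ((max K0 K0a : ℕ) : ℝ) := by exact_mod_cast le_max_left K0 K0a
    linarith
  have hK0ar : (K0a : ℝ) ≤ K := by
    rw [hKr]
    have : ((K0a : ℕ) : ℝ) ≤ ((max K0 K0a : ℕ) : ℝ) := by exact_mod_cast le_max_right K0 K0a
    linarith
  have hl0 : 0 ≤ l := by linarith
  have hw1 : (K : ℝ) * l ≤ w := by rw [hw]; exact Nat.le_ceil _
  have hw2 : (w : ℝ) ≤ K * l + 1 := by
    rw [hw]
    exact (Nat.ceil_lt_add_one (by positivity)).le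
  have hwe : (w : ℝ) * (2 * e) ≤ L := by
    refine le_trans ?_ hll
    have g1 : (w : ℝ) ≤ (K + 1) * l := by linarith
    have g2 : (K + 1 : ℝ) * l ≤ (K + 1) * l ^ 2 := by
      apply mul_le_mul_of_nonneg_left _ (by positivity)
      nlinarith
    calc (w : ℝ) * (2 * e) ≤ ((K + 1) * l ^ 2) * (2 * e) := mul_le_mul_of_nonneg_right (g1.trans g2) (by positivity)
      _ = _ := by ring
  have hw0' : (0 : ℝ) ≤ w := Nat.cast_nonneg _
  have hwL : (w : ℝ) ≤ L := by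
    refine le_trans ?_ hwe
    exact le_mul_of_one_le_right hw0' (by linarith)
  have hwLX : (w : ℝ) ≤ LX := by
    have g1 : (w : ℝ) * (2 * e) ≤ LX * (2 * e) := by
      refine hwe.trans (hLLX.trans (le_of_eq ?_))
      ring
    exact le_of_mul_le_mul_right g1 (by positivity)
  have hw3 : (K0 : ℝ) * l ≤ w := (mul_le_mul_of_nonneg_right hK0r hl0).trans hw1
  have hw3a : (K0a : ℝ) * Real.log LX ≤ w := by
    refine le_trans ?_ hw1
    have g1 : Real.log LX ≤ l := by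
      rw [hl]
      exact Real.log_le_log hLX0 hLXL
    calc (K0a : ℝ) * Real.log LX ≤ K0a * l := mul_le_mul_of_nonneg_left g1 (Nat.cast_nonneg _)
      _ ≤ K * l := mul_le_mul_of_nonneg_right hK0ar hl0
  obtain ⟨W, hW⟩ : ∃ W, W = Wp w := ⟨_, rfl⟩
  have hW0 : 0 < W := by rw [hW]; exact Wp_pos w
  have hWr : (0 : ℝ) < W := by exact_mod_cast hW0
  rw [← hW] at b3
  have hWLX : (W : ℝ) ≤ LX ^ (2 * (2 * K + 1)) := by
    refine b3.trans ?_
    rw [pow_mul]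
    apply pow_le_pow_left₀ hL0.le
    refine hLLX.trans ?_
    rw [sq]
    exact mul_le_mul_of_nonneg_right h2e hLX0.le
  have hsqN : √(N : ℝ) ≤ N := aux_sqrt (by exact_mod_cast (show 1 ≤ N by omega))
  have hWN : 8000 * W ≤ N := by
    have : (8000 * W : ℝ) ≤ N := by
      refine le_trans ?_ (b6.trans hsqN)
      apply mul_le_mul_of_nonneg_left _ (by norm_num)
      refine b3.trans ?_
      exact pow_le_pow_right₀ hL1 (by omega)
    exact_mod_cast this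
  have hWY : 100 * W ≤ Y0 := by omega
  have hWX : W ≤ X := by
    have g1 : (B1 : ℝ) * W ^ e ≤ B1 * X ^ e := by
      calc (B1 : ℝ) * W ^ e ≤ B1 * (L ^ (2 * K + 1)) ^ e := by gcongr
        _ = B1 * L ^ ((2 * K + 1) * e) := by rw [← pow_mul]
        _ ≤ N := b8.trans hsqN
        _ ≤ _ := by exact_mod_cast hNX
    have g2 : B1 * W ^ e ≤ B1 * X ^ e := by exact_mod_cast g1
    have g3 : W ^ e ≤ X ^ e := Nat.le_of_mul_le_mul_left g2 (by omega)
    exact (Nat.pow_le_pow_iff_left (by omega)).1 g3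
  -- the class of `t`
  obtain ⟨U, hU⟩ : ∃ U, U = X / W + 1 := ⟨_, rfl⟩
  have hUW : W * U ≤ 2 * X := by
    have g1 : W * (X / W) ≤ X := Nat.mul_div_le X W
    have g2 : W * U = W * (X / W) + W := by rw [hU]; ring
    omega
  have hXWU : X ≤ W * U := by
    rw [hU]
    exact (Nat.lt_mul_div_succ X hW0).le
  have hXU1 : (X : ℝ) ≤ L ^ (2 * K + 1) * U := by
    calc (X : ℝ) ≤ W * U := by exact_mod_cast hXWU
      _ ≤ _ := by gcongr
  have hXU : (X : ℝ) ≤ L ^ (2 * K + 2) * U := by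
    refine hXU1.trans ?_
    apply mul_le_mul_of_nonneg_right _ (Nat.cast_nonneg _)
    exact pow_le_pow_right₀ hL1 (by omega)
  -- `Y`
  obtain ⟨Y, hY⟩ : ∃ Y, Y = 6 * Y0 / (5 * W) + 1 := ⟨_, rfl⟩
  have hWY1 : 6 * Y0 < 5 * (W * Y) ∧ 5 * (W * Y) ≤ 6 * Y0 + 5 * W := by
    have h1 : 5 * W * (6 * Y0 / (5 * W)) ≤ 6 * Y0 := Nat.mul_div_le _ _
    have h2 : 6 * Y0 < 5 * W * (6 * Y0 / (5 * W) + 1) := Nat.lt_mul_div_succ _ (by omega)
    rw [← hY] at h2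
    have e1 : 5 * W * Y = 5 * (W * Y) := by ring
    have e2 : 5 * W * (6 * Y0 / (5 * W) + 1) = 5 * W * (6 * Y0 / (5 * W)) + 5 * W := by ring
    rw [← hY] at e2
    constructor
    · omega
    · omega
  have hYlow : (N : ℝ) / L ^ (2 * K + 2) ≤ Y := by
    rw [div_le_iff₀ (by positivity)]
    have g1 : (N : ℝ) ≤ 8 * (W * Y) := by
      have : N ≤ 8 * (W * Y) := by omega
      exact_mod_cast this
    calc (N : ℝ) ≤ 8 * (W * Y) := g1
      _ ≤ L * (L ^ (2 * K + 1) * Y) := by gcongr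
      _ = Y * L ^ (2 * K + 2) := by ring
  have hWYr : (W : ℝ) * Y ≤ 2 * Y0 := by
    have : W * Y ≤ 2 * Y0 := by omega
    exact_mod_cast this
  have haX : ∀ i, (a i : ℝ) ≤ LX := by
    intro i
    have g1 : (a i : ℝ) ≤ ∑ l, (a l : ℝ) := single_le_sum (f := fun i => (a i : ℝ)) (fun _ _ => Nat.cast_nonneg _) (mem_univ i)
    have g2 : (2 * e : ℝ) * a i ≤ 2 * e * LX := (mul_le_mul_of_nonneg_left g1 (by positivity)).trans (l2.trans hLLX)
    exact le_of_mul_le_mul_left g2 (by positivity)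
  have hbL : ∀ i, (b i : ℝ) ≤ L := fun i => (single_le_sum (f := fun i => (b i : ℝ)) (fun _ _ => Nat.cast_nonneg _) (mem_univ i)).trans l3
  -- values of `f`
  have hXt : ∀ t ∈ Icc 1 X, 2 * |f.eval (t : ℤ)| ≤ Y0 ∧ Q * t ^ e ≤ Y0 := by
    intro t ht
    rw [mem_Icc] at ht
    have g1 := abs_eval_le f t ht.1
    rw [hfe] at g1
    have g2 : t ^ e ≤ M := (Nat.pow_le_pow_left ht.2 e).trans hX2
    have g3 : cf f * t ^ e ≤ q * M := Nat.mul_le_mul (by omega) g2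
    have g4 : 2 * q * M = 2 * (q * M) := by ring
    have g5 : Q * t ^ e ≤ q * M := Nat.mul_le_mul (by omega) g2
    constructor
    · have g6 : 2 * (cf f * t ^ e) ≤ Y0 := by omega
      have g7 : (2 : ℤ) * ((cf f : ℤ) * (t : ℤ) ^ e) ≤ Y0 := by exact_mod_cast g6
      linarith
    · omega
  -- the threshold
  obtain ⟨T, hT⟩ : ∃ T : ℝ, T = U / L ^ D := ⟨_, rfl⟩
  have hthr : ∀ n : ℕ, 2 * Y0 < n → n ≤ 4 * Y0 → (n : ℝ) ^ (1 / (e : ℝ)) / Real.log n ^ E ≤ T := by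
    intro n hn1 hn2
    have hYbig : 8 ≤ Y0 := by omega
    have g1 : L ≤ 2 * Real.log n := by
      have : (N : ℝ) ≤ (n : ℝ) ^ 2 := by
        have : N ≤ n ^ 2 := by
          have k1 : 8 * Y0 ≤ n * n := Nat.mul_le_mul (by omega) (by omega)
          rw [sq]
          omega
        exact_mod_cast this
      have h9 := Real.log_le_log hN0 this
      rw [Real.log_pow, ← hL] at h9
      exact_mod_cast h9
    have g2 : (L / 2) ^ E ≤ Real.log n ^ E := pow_le_pow_left₀ (by positivity) (by linarith) E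
    have g3 : (n : ℝ) ^ (1 / (e : ℝ)) ≤ B1 * X := by
      have g4 : (n : ℝ) ≤ (B1 * X : ℝ) ^ e := by
        have g5 : n ≤ (B1 * X) ^ e := by
          rw [mul_pow]
          calc n ≤ B1 * X ^ e := by omega
            _ ≤ B1 ^ e * X ^ e := Nat.mul_le_mul_right _ (Nat.le_self_pow (by omega) B1)
        exact_mod_cast g5
      have g6 : (n : ℝ) ^ (1 / (e : ℝ)) ≤ ((B1 * X : ℝ) ^ e) ^ (1 / (e : ℝ)) :=
        Real.rpow_le_rpow (Nat.cast_nonneg _) g4 (by positivity)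
      refine g6.trans (le_of_eq ?_)
      rw [one_div]
      exact Real.pow_rpow_inv_natCast (by positivity) (by omega)
    have g4 : (n : ℝ) ^ (1 / (e : ℝ)) / Real.log n ^ E ≤ B1 * X / (L / 2) ^ E := div_le_div₀ (by positivity) g3 (by positivity) g2
    refine g4.trans ?_
    rw [hT]
    have g5 : (B1 : ℝ) * X / (L / 2) ^ E ≤ B1 * (L ^ (2 * K + 1) * U) / (L / 2) ^ E := by gcongr
    refine g5.trans ?_
    have e1 : L ^ E = L * L ^ (2 * K + 1) * L ^ D := by rw [hE]; ring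
    have e2 : (B1 : ℝ) * (L ^ (2 * K + 1) * U) / (L / 2) ^ E = (B1 * 2 ^ E / L) * (U / L ^ D) := by
      rw [div_pow, e1]
      field_simp
    rw [e2]
    have g6 : (B1 * 2 ^ E : ℝ) / L ≤ 1 := by rw [div_le_one hL0]; exact hBEL
    calc (B1 * 2 ^ E : ℝ) / L * (U / L ^ D) ≤ 1 * (U / L ^ D) := mul_le_mul_of_nonneg_right g6 (by positivity)
      _ = _ := one_mul _
  -- one class
  have hgood : ∀ ν ∈ range W, (((Ioc (2 * Y0) (4 * Y0)).filter (fun n => n % W = ν ∧ LocP f σ a b n ∧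
      ((SolP Q f σ e a b m n).card : ℝ) < T)).card : ℝ) ≤ δ * Y := by
    intro ν hν
    by_cases hloc : ∃ n₀, n₀ % W = ν ∧ LocP f σ a b n₀
    · obtain ⟨n₀, hn0, hlo⟩ := hloc
      have hx : ∀ p : ℕ, ∃ x : ℕ, p.Prime → ∀ i, ¬ p ∣ x + a i ∧ ¬ (p : ℤ) ∣ (n₀ : ℤ) + σ * f.eval (x : ℤ) + b i := by
        intro p
        by_cases hp : p.Prime
        · obtain ⟨x, hx⟩ := hlo p hp
          exact ⟨x, fun _ => hx⟩
        · exact ⟨0, fun h => absurd h hp⟩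
      choose x hx using hx
      obtain ⟨t0, ht0, ht0p⟩ := crt_small w x
      have ht1 : ∀ i, ∀ p ∈ pz w, ¬ p ∣ t0 + a i := by
        intro i p hp hd
        have h2 : t0 + a i ≡ x p + a i [MOD p] := (ht0p p hp).add_right _
        exact (hx p (mem_pz.1 hp).2 i).1 ((h2.dvd_iff dvd_rfl).1 hd)
      have ht2 : ∀ p ∈ pz w, ∀ i, ¬ (p : ℤ) ∣ (n₀ : ℤ) + σ * f.eval (t0 : ℤ) + b i := by
        intro p hp i hd
        have h1 : (p : ℤ) ∣ (t0 : ℤ) - (x p : ℤ) := Nat.modEq_iff_dvd.1 (ht0p p hp).symm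
        have h2 := eval_mod f t0 (x p) p h1
        apply (hx p (mem_pz.1 hp).2 i).2
        have e1 : (n₀ : ℤ) + σ * f.eval ((x p : ℕ) : ℤ) + b i =
            ((n₀ : ℤ) + σ * f.eval (t0 : ℤ) + b i) - σ * (f.eval (t0 : ℤ) - f.eval ((x p : ℕ) : ℤ)) := by ring
        rw [e1]
        exact dvd_sub hd (h2.mul_left _)
      obtain ⟨e', Kt, he', hKt1, hKt2, hKt3⟩ := hap1 X hn1X w t0 (by rw [← hLX]; exact hw3a) (by rw [← hLX]; exact hwLX)
        (by rw [← hLX, ← hW]; exact hWLX) ht0 a ha (fun i => by rw [← hLX]; exact haX i) ht1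
      rw [← hLX, ← hW] at hKt3
      obtain ⟨g, c, S, hgW, hcb, hcop, hS, hfin⟩ := class_w Q hQ f σ hσ e k m he a b w Y Y0 X ν n₀ t0 (by rw [← hW]; exact hY)
        (by rw [← hW]; exact hWY) (by rw [← hW]; exact hn0) ht0 ht2 hXt e' he' Kt hKt1 hKt2
      rw [← hW] at hgW
      have hdens : (U : ℝ) / L ^ (Da + 1) ≤ Kt.card := by
        rw [div_le_iff₀ (by positivity)] at hKt3 ⊢
        have g1 : (W : ℝ) * U ≤ 2 * X := by exact_mod_cast hUW
        have g2 : LX ^ Da ≤ L ^ Da := pow_le_pow_left₀ hLX0.le hLXL Da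
        have g3 : (W : ℝ) * U ≤ W * (Kt.card * L ^ (Da + 1)) := by
          calc (W : ℝ) * U ≤ 2 * X := g1
            _ ≤ 2 * (W * Kt.card * LX ^ Da) := by linarith
            _ ≤ L * (W * Kt.card * L ^ Da) := by gcongr; linarith
            _ = _ := by ring
        exact le_of_mul_le_mul_left g3 hWr
      have hres := hcc Y w g X U t0 hw3 hwL (by rw [← hW]; omega) hYlow hNX hXN (by rw [← hW, hU]) hXU (fun l => b (e' l))
        (hb.comp he') (fun i => hbL _) hcop σ hσ c hcb Kt hKt1 (fun t ht => (hKt2 t ht).1) hdens S hS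
      rw [← hT] at hres
      have hfT := hfin T
      rw [← hW] at hfT hres
      refine le_trans ?_ hres
      rw [Nat.cast_le]
      refine le_trans ?_ hfT
      apply card_le_card
      intro n hn
      rw [mem_filter] at hn ⊢
      exact ⟨hn.1, hn.2.1, hn.2.2.2⟩
    · push Not at hloc
      have : (Ioc (2 * Y0) (4 * Y0)).filter (fun n => n % W = ν ∧ LocP f σ a b n ∧ ((SolP Q f σ e a b m n).card : ℝ) < T) = ∅ := by
        rw [filter_eq_empty_iff]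
        intro n _ hn
        exact hloc n hn.1 hn.2.1
      rw [this, card_empty, Nat.cast_zero]
      positivity
  -- the union
  have hsub : (Ioc (2 * Y0) (4 * Y0)).filter (fun n => LocP f σ a b n ∧
      ((SolP Q f σ e a b m n).card : ℝ) < (n : ℝ) ^ (1 / (e : ℝ)) / Real.log n ^ E) ⊆
      (range W).biUnion (fun ν => (Ioc (2 * Y0) (4 * Y0)).filter (fun n => n % W = ν ∧ LocP f σ a b n ∧
      ((SolP Q f σ e a b m n).card : ℝ) < T)) := by
    intro n hn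
    rw [mem_filter] at hn
    rw [mem_biUnion]
    have hn3 := mem_Ioc.1 hn.1
    exact ⟨n % W, mem_range.2 (Nat.mod_lt n hW0), mem_filter.2 ⟨hn.1, rfl, hn.2.1, lt_of_lt_of_le hn.2.2 (hthr n hn3.1 hn3.2)⟩⟩
  calc _ ≤ (((range W).biUnion (fun ν => (Ioc (2 * Y0) (4 * Y0)).filter (fun n => n % W = ν ∧ LocP f σ a b n ∧
      ((SolP Q f σ e a b m n).card : ℝ) < T))).card : ℝ) := by exact_mod_cast card_le_card hsub
    _ ≤ ∑ ν ∈ range W, (((Ioc (2 * Y0) (4 * Y0)).filter (fun n => n % W = ν ∧ LocP f σ a b n ∧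
      ((SolP Q f σ e a b m n).card : ℝ) < T)).card : ℝ) := by exact_mod_cast card_biUnion_le
    _ ≤ ∑ _ν ∈ range W, δ * (Y : ℝ) := sum_le_sum hgood
    _ = δ * (W * Y) := by
        rw [sum_const, card_range, nsmul_eq_mul]
        ring
    _ ≤ (δ₀ / 8) * (2 * Y0) := mul_le_mul hδ8 hWYr (by positivity) (by positivity)
    _ ≤ δ₀ * Y0 := by
        have : 0 ≤ δ₀ * Y0 := by positivity
        linarith

open Classical in
/-- **almost all integers.** -/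
theorem main_w (hWC : S_WC) (hPR : S_PR) (hM4 : S_M4) (m e : ℕ) (hm : 1 ≤ m) (he : 1 ≤ e) : ∃ k₁ : ℕ, 1 ≤ k₁ ∧
    ∀ Q : ℕ, 1 ≤ Q → ∀ f : Polynomial ℤ, f.natDegree = e → 0 < f.leadingCoeff → ∀ σ : ℤ, (σ = 1 ∨ σ = -1) → ∀ a b : Fin k₁ → ℕ,
    Function.Injective a → Function.Injective b → ∀ ε : ℝ, 0 < ε → ∃ E X0 : ℕ, ∀ X : ℕ, X0 ≤ X →
    (((Icc 1 X).filter (fun n => LocP f σ a b n ∧
      ((SolP Q f σ e a b m n).card : ℝ) < (n : ℝ) ^ (1 / (e : ℝ)) / Real.log n ^ E)).card : ℝ) ≤ ε * X := by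
  obtain ⟨k₁, hk₁, hb⟩ := block_w hWC hPR hM4 m e hm he
  refine ⟨k₁, hk₁, fun Q hQ f hfe hfl σ hσ a b ha hbi ε hε => ?_⟩
  obtain ⟨E, Y0, h0⟩ := hb Q hQ f hfe hfl σ hσ a b ha hbi (ε / 2) (by linarith)
  obtain ⟨K, hK⟩ := dyadic_sum (fun n => LocP f σ a b n ∧
      ((SolP Q f σ e a b m n).card : ℝ) < (n : ℝ) ^ (1 / (e : ℝ)) / Real.log n ^ E) (ε / 2) (by linarith) Y0 h0
  refine ⟨E, ⌈2 * K / ε⌉₊, fun X hX => ?_⟩
  refine (hK X).trans ?_
  have q1 : 2 * (K : ℝ) / ε ≤ X := (Nat.le_ceil _).trans (by exact_mod_cast hX)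
  rw [div_le_iff₀ hε] at q1
  linarith

end Pool.Agent.L0h42.PP
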