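import Mathlib
import Pool.Agent.L0h42.PP.P8

/-! Arbitrary polynomials and integer shifts. -/

set_option autoImplicit false
set_option linter.unusedSectionVars false
set_option linter.unusedVariables false

namespace Pool.Agent.L0h42.PP
open Finset
open Pool.Agent.L0h42.TB
open Pool.Agent.L0h42.EG
open Pool.Agent.L0h42.CP
open Pool.Agent.H373R2.T7

section gen
variable {k : ℕ}

/-- the `x` for which `x + a_i` and `c n + F(x) + b_i` are prime for all `i` in `I` -/
def Rp (Q : ℕ) (F : Polynomial ℤ) (e c : ℕ) (a b : Fin k → ℤ) (I : Finset (Fin k)) (n : ℕ) : Finset ℕ :=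
  (Icc 1 n).filter (fun x => Q * x ^ e ≤ n ∧
    ∀ i ∈ I, ((x : ℤ) + a i).toNat.Prime ∧ ((c : ℤ) * n + F.eval (x : ℤ) + b i).toNat.Prime)

/-- no local obstruction -/
def Lp (F : Polynomial ℤ) (c : ℕ) (a b : Fin k → ℤ) (n : ℕ) : Prop :=
  ∀ p : ℕ, p.Prime → ∃ x : ℤ, ∀ i, ¬ (p : ℤ) ∣ x + a i ∧ ¬ (p : ℤ) ∣ (c : ℤ) * n + F.eval x + b i

lemma pig (G : Finset ℕ) (J : ℕ → Finset (Fin k)) (hG : G.Nonempty) :
    ∃ y, (G.filter (fun x => J x = y)).Nonempty ∧ G.card ≤ 2 ^ k * (G.filter (fun x => J x = y)).card := by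
  classical
  obtain ⟨P, hP⟩ : ∃ P : Finset (Finset (Fin k)), P = univ := ⟨_, rfl⟩
  have hPc : P.card = 2 ^ k := by rw [hP, card_univ, Fintype.card_finset, Fintype.card_fin]
  obtain ⟨y, hy, hmax⟩ := exists_max_image P (fun y => (G.filter (fun x => J x = y)).card) (by rw [hP]; exact univ_nonempty)
  have h1 : G.card ≤ 2 ^ k * (G.filter (fun x => J x = y)).card := by
    have h2 := card_eq_sum_card_fiberwise (f := J) (s := G) (t := P) (fun s _ => by rw [hP]; exact mem_coe.2 (mem_univ _))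
    rw [h2]
    refine (sum_le_card_nsmul P _ _ hmax).trans ?_
    rw [hPc, smul_eq_mul]
  refine ⟨y, ?_, h1⟩
  rw [← card_pos]
  have h3 : 0 < G.card := card_pos.2 hG
  by_contra hcon
  have h4 : (G.filter (fun x => J x = y)).card = 0 := by omega
  rw [h4, mul_zero] at h1
  omega

lemma sign_split (F : Polynomial ℤ) {e : ℕ} (he : 1 ≤ e) (hF : F.natDegree = e) :
    ∃ σ : ℤ, (σ = 1 ∨ σ = -1) ∧ ∃ f₀ : Polynomial ℤ, (∀ x, F.eval x = σ * f₀.eval x) ∧ f₀.natDegree = e ∧ 0 < f₀.leadingCoeff := by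
  have hF0 : F ≠ 0 := by rintro rfl; simp at hF; omega
  have hl : F.leadingCoeff ≠ 0 := Polynomial.leadingCoeff_ne_zero.2 hF0
  rcases lt_or_gt_of_ne hl with h | h
  · refine ⟨-1, Or.inr rfl, -F, ?_, ?_, ?_⟩
    · intro x; simp
    · rw [Polynomial.natDegree_neg, hF]
    · rw [Polynomial.leadingCoeff_neg]; linarith
  · exact ⟨1, Or.inl rfl, F, fun x => by simp, hF, h⟩

open Classical in
/-- **almost all integers, general form.** -/
theorem gen_A (hWC : S_WC) (hPR : S_PR) (hM4 : S_M4) (m e : ℕ) (hm : 1 ≤ m) (he : 1 ≤ e) : ∃ k : ℕ, 1 ≤ k ∧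
    ∀ F : Polynomial ℤ, F.natDegree = e → ∀ Q c : ℕ, 1 ≤ Q → 1 ≤ c → ∀ a b : Fin k → ℤ,
    Function.Injective a → Function.Injective b → ∀ ε : ℝ, 0 < ε → ∃ E N0 : ℕ, ∀ N : ℕ, N0 ≤ N →
    (((Icc 1 N).filter (fun n => Lp F c a b n ∧
      ¬ ∃ I : Finset (Fin k), I.card = m ∧ (n : ℝ) ^ (1 / (e : ℝ)) / Real.log n ^ E ≤ ((Rp Q F e c a b I n).card : ℝ))).card : ℝ) ≤ ε * N := by
  obtain ⟨k, hk, hmain⟩ := main_w hWC hPR hM4 m e hm he
  refine ⟨k, hk, fun F hF Q c hQ hc a b ha hb ε hε => ?_⟩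
  obtain ⟨σ, hσ, f₀, hf0, hf0d, hf0l⟩ := sign_split F he hF
  obtain ⟨A0, hA0⟩ : ∃ A0 : ℕ, A0 = ∑ i, (a i).natAbs := ⟨_, rfl⟩
  obtain ⟨B0, hB0⟩ : ∃ B0 : ℕ, B0 = ∑ i, (b i).natAbs := ⟨_, rfl⟩
  have hσ2 : σ * σ = 1 := by rcases hσ with h | h <;> rw [h] <;> norm_num
  obtain ⟨f, hf⟩ : ∃ f : Polynomial ℤ, f = f₀.comp (Polynomial.X + Polynomial.C (A0 : ℤ)) - Polynomial.C (σ * B0) := ⟨_, rfl⟩
  have hfe : ∀ x : ℤ, σ * f.eval x = F.eval (x + A0) - B0 := by
    intro x
    rw [hf, hf0, Polynomial.eval_sub, Polynomial.eval_comp, Polynomial.eval_C, Polynomial.eval_add, Polynomial.eval_X, Polynomial.eval_C, mul_sub,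
      ← mul_assoc σ σ, hσ2, one_mul]
  have hcd : (f₀.comp (Polynomial.X + Polynomial.C (A0 : ℤ))).natDegree = e := by
    rw [Polynomial.natDegree_comp, Polynomial.natDegree_X_add_C, mul_one, hf0d]
  have hfd : f.natDegree = e := by rw [hf, Polynomial.natDegree_sub_C, hcd]
  have hfl : 0 < f.leadingCoeff := by
    have h1 : f.coeff e = (f₀.comp (Polynomial.X + Polynomial.C (A0 : ℤ))).leadingCoeff := by
      rw [hf, Polynomial.coeff_sub, Polynomial.coeff_C, if_neg (by omega), sub_zero, Polynomial.leadingCoeff, hcd]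
    rw [Polynomial.leadingCoeff, hfd, h1, Polynomial.leadingCoeff_comp (by rw [Polynomial.natDegree_X_add_C]; norm_num),
      Polynomial.leadingCoeff_X_add_C, one_pow, mul_one]
    exact hf0l
  have haz : ∀ i, 0 ≤ a i + A0 := by
    intro i
    have h1 : (a i).natAbs ≤ A0 := by rw [hA0]; exact single_le_sum (f := fun i => (a i).natAbs) (fun _ _ => Nat.zero_le _) (mem_univ i)
    omega
  have hbz : ∀ i, 0 ≤ b i + B0 := by
    intro i
    have h1 : (b i).natAbs ≤ B0 := by rw [hB0]; exact single_le_sum (f := fun i => (b i).natAbs) (fun _ _ => Nat.zero_le _) (mem_univ i)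
    omega
  obtain ⟨a', ha'⟩ : ∃ a' : Fin k → ℕ, ∀ i, ((a' i : ℕ) : ℤ) = a i + A0 := ⟨fun i => (a i + A0).toNat, fun i => Int.toNat_of_nonneg (haz i)⟩
  obtain ⟨b', hb'⟩ : ∃ b' : Fin k → ℕ, ∀ i, ((b' i : ℕ) : ℤ) = b i + B0 := ⟨fun i => (b i + B0).toNat, fun i => Int.toNat_of_nonneg (hbz i)⟩
  have ha'i : Function.Injective a' := by
    intro i j hij
    have h1 := ha' i
    rw [hij, ha' j] at h1
    exact ha (by linarith)
  have hb'i : Function.Injective b' := by
    intro i j hij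
    have h1 := hb' i
    rw [hij, hb' j] at h1
    exact hb (by linarith)
  have hcr : (1 : ℝ) ≤ c := by exact_mod_cast hc
  obtain ⟨E, X0, hX0⟩ := hmain (Q * c * (A0 + 1) ^ e) (Nat.mul_pos (Nat.mul_pos hQ hc) (Nat.pow_pos (by omega))) f hfd hfl σ hσ a' b' ha'i hb'i (ε / (2 * c)) (by positivity)
  obtain ⟨n1, h1⟩ := ev_L' (2 ^ (E + k) + 1)
  obtain ⟨n0, hn0⟩ : ∃ n0, n0 = max n1 (max c 3) := ⟨_, rfl⟩
  refine ⟨E + 1, max X0 ⌈2 * n0 / ε⌉₊, fun N hN => ?_⟩
  have hNX : X0 ≤ N := le_trans (le_max_left _ _) hN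
  have hNn : 2 * (n0 : ℝ) / ε ≤ N := (Nat.le_ceil _).trans (by exact_mod_cast le_trans (le_max_right _ _) hN)
  have key := hX0 (c * N) (le_trans hNX (Nat.le_mul_of_pos_left _ hc))
  have hsub : ((Icc 1 N).filter (fun n => Lp F c a b n ∧
      ¬ ∃ I : Finset (Fin k), I.card = m ∧ (n : ℝ) ^ (1 / (e : ℝ)) / Real.log n ^ (E + 1) ≤ ((Rp Q F e c a b I n).card : ℝ))).card ≤
      n0 + ((Icc 1 (c * N)).filter (fun n => LocP f σ a' b' n ∧
      ((SolP (Q * c * (A0 + 1) ^ e) f σ e a' b' m n).card : ℝ) < (n : ℝ) ^ (1 / (e : ℝ)) / Real.log n ^ E)).card := by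
    have e1 : (range n0).card = n0 := card_range n0
    rw [← e1]
    refine le_trans ?_ (add_le_add le_rfl (card_image_le (s := ((Icc 1 (c * N)).filter (fun n => LocP f σ a' b' n ∧
      ((SolP (Q * c * (A0 + 1) ^ e) f σ e a' b' m n).card : ℝ) < (n : ℝ) ^ (1 / (e : ℝ)) / Real.log n ^ E)))
      (f := fun n => n / c)))
    refine le_trans (card_le_card ?_) (card_union_le _ _)
    intro n hn
    rw [mem_filter, mem_Icc] at hn
    obtain ⟨⟨hn1, hn2⟩, hn3, hn4⟩ := hn
    rw [mem_union, mem_range, mem_image]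
    by_cases hn5 : n < n0
    · exact Or.inl hn5
    · right
      have hn6 : n1 ≤ n := le_trans (le_max_left _ _) (by rw [← hn0]; omega)
      have hn7 : c ≤ n := le_trans (le_trans (le_max_left _ _) (le_max_right _ _)) (by rw [← hn0]; omega)
      have hn8 : 3 ≤ n := le_trans (le_trans (le_max_right _ _) (le_max_right _ _)) (by rw [← hn0]; omega)
      have hcn : ((c * n : ℕ) : ℤ) = (c : ℤ) * n := by push_cast; ring
      have hval : ∀ (x : ℤ) (i : Fin k), ((c * n : ℕ) : ℤ) + σ * f.eval x + b' i = (c : ℤ) * n + F.eval (x + A0) + b i := by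
        intro x i
        rw [hfe, hb', hcn]
        ring
      refine ⟨c * n, ?_, Nat.mul_div_cancel_left n hc⟩
      rw [mem_filter, mem_Icc]
      refine ⟨⟨Nat.mul_pos hc hn1, Nat.mul_le_mul_left c hn2⟩, ?_, ?_⟩
      · -- no local obstruction
        intro p hp
        obtain ⟨x, hx⟩ := hn3 p hp
        have hp0 : (0 : ℤ) < p := by exact_mod_cast hp.pos
        obtain ⟨x', hx'⟩ : ∃ x' : ℕ, (x' : ℤ) = (x - A0) % p := ⟨((x - A0) % p).toNat, Int.toNat_of_nonneg (Int.emod_nonneg _ hp0.ne')⟩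
        have hd : (p : ℤ) ∣ (x' + A0) - x := by
          rw [hx']
          have := Int.emod_add_mul_ediv (x - A0) p
          refine ⟨-((x - A0) / p), ?_⟩
          linarith
        refine ⟨x', fun i => ⟨?_, ?_⟩⟩
        · intro hdv
          apply (hx i).1
          have h2 : (p : ℤ) ∣ ((x' + a' i : ℕ) : ℤ) := by exact_mod_cast hdv
          push_cast at h2
          rw [ha'] at h2
          have e2 : x + a i = (x' + (a i + A0)) - (x' + A0 - x) := by ring
          rw [e2]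
          exact dvd_sub h2 hd
        · intro hdv
          apply (hx i).2
          rw [hval] at hdv
          have h2 := eval_mod F _ _ _ hd
          have e2 : (c : ℤ) * n + F.eval x + b i = ((c : ℤ) * n + F.eval ((x' : ℤ) + A0) + b i) - (F.eval ((x' : ℤ) + A0) - F.eval x) := by ring
          rw [e2]
          exact dvd_sub hdv h2
      · -- few solutions
        by_contra hcon
        push Not at hcon
        apply hn4
        have b1 := h1 n hn6
        have hp2 : (1 : ℝ) ≤ 2 ^ (E + k) := one_le_pow₀ (by norm_num)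
        have hL0 : 0 < Real.log n := by linarith
        have hnr : (3 : ℝ) ≤ n := by exact_mod_cast hn8
        have hcnr : (c : ℝ) ≤ n := by exact_mod_cast hn7
        have hn0' : (0 : ℝ) < n := by linarith
        have g1 : Real.log ((c * n : ℕ) : ℝ) ≤ 2 * Real.log n := by
          have : ((c * n : ℕ) : ℝ) ≤ (n : ℝ) ^ 2 := by push_cast; nlinarith
          have h9 := Real.log_le_log (by push_cast; positivity) this
          rw [Real.log_pow] at h9
          exact_mod_cast h9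
        have g0 : 0 < Real.log ((c * n : ℕ) : ℝ) := by
          apply Real.log_pos
          push_cast
          nlinarith
        have g2 : Real.log ((c * n : ℕ) : ℝ) ^ E ≤ (2 * Real.log n) ^ E := pow_le_pow_left₀ g0.le g1 E
        have g3 : (n : ℝ) ^ (1 / (e : ℝ)) ≤ ((c * n : ℕ) : ℝ) ^ (1 / (e : ℝ)) := by
          apply Real.rpow_le_rpow hn0'.le _ (by positivity)
          push_cast
          nlinarith
        have g4 : (n : ℝ) ^ (1 / (e : ℝ)) / Real.log n ^ (E + 1) * 2 ^ k ≤ ((c * n : ℕ) : ℝ) ^ (1 / (e : ℝ)) / Real.log ((c * n : ℕ) : ℝ) ^ E := by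
          have hr0 : 0 ≤ (n : ℝ) ^ (1 / (e : ℝ)) := by positivity
          rw [div_mul_eq_mul_div, div_le_div_iff₀ (by positivity) (by positivity)]
          calc (n : ℝ) ^ (1 / (e : ℝ)) * 2 ^ k * Real.log ((c * n : ℕ) : ℝ) ^ E ≤ (n : ℝ) ^ (1 / (e : ℝ)) * 2 ^ k * (2 * Real.log n) ^ E := by gcongr
            _ = (n : ℝ) ^ (1 / (e : ℝ)) * (2 ^ (E + k) * Real.log n ^ E) := by rw [mul_pow, pow_add]; ring
            _ ≤ (n : ℝ) ^ (1 / (e : ℝ)) * (Real.log n * Real.log n ^ E) := by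
                apply mul_le_mul_of_nonneg_left _ hr0
                apply mul_le_mul_of_nonneg_right _ (by positivity)
                linarith
            _ = (n : ℝ) ^ (1 / (e : ℝ)) * Real.log n ^ (E + 1) := by rw [pow_succ']
            _ ≤ _ := mul_le_mul_of_nonneg_right g3 (by positivity)
        have g5 := g4.trans hcon
        obtain ⟨G, hG⟩ : ∃ G, G = SolP (Q * c * (A0 + 1) ^ e) f σ e a' b' m (c * n) := ⟨_, rfl⟩
        rw [← hG] at g5
        have hGpos : (0 : ℝ) < G.card := lt_of_lt_of_le (by positivity) g5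
        obtain ⟨y, hy1, hy2⟩ := pig G (fun x => univ.filter (fun i => (x + a' i).Prime ∧ (((c * n : ℕ) : ℤ) + σ * f.eval (x : ℤ) + b' i).toNat.Prime))
          (card_pos.1 (by exact_mod_cast hGpos))
        obtain ⟨Fb, hFb⟩ : ∃ Fb, Fb = G.filter (fun x => (univ.filter (fun i => (x + a' i).Prime ∧ (((c * n : ℕ) : ℤ) + σ * f.eval (x : ℤ) + b' i).toNat.Prime)) = y) := ⟨_, rfl⟩
        rw [← hFb] at hy1 hy2
        have hFm : ∀ x ∈ Fb, 1 ≤ x ∧ Q * c * (A0 + 1) ^ e * x ^ e ≤ c * n ∧ m ≤ y.card ∧ ∀ i ∈ y, (x + a' i).Prime ∧ (((c * n : ℕ) : ℤ) + σ * f.eval (x : ℤ) + b' i).toNat.Prime := by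
          intro x hx
          rw [hFb, mem_filter, hG] at hx
          obtain ⟨hx1, hx2⟩ := hx
          unfold SolP at hx1
          rw [mem_filter, mem_Icc] at hx1
          rw [hx2] at hx1
          refine ⟨hx1.1.1, hx1.2.1, hx1.2.2, fun i hi => ?_⟩
          rw [← hx2, mem_filter] at hi
          exact hi.2
        obtain ⟨x0, hx0⟩ := hy1
        obtain ⟨I, hI1, hI2⟩ := exists_subset_card_eq (hFm x0 hx0).2.2.1
        refine ⟨I, hI2, ?_⟩
        have g6 : (n : ℝ) ^ (1 / (e : ℝ)) / Real.log n ^ (E + 1) ≤ Fb.card := by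
          have g7 : (G.card : ℝ) ≤ 2 ^ k * Fb.card := by exact_mod_cast hy2
          have g8 : (n : ℝ) ^ (1 / (e : ℝ)) / Real.log n ^ (E + 1) * 2 ^ k ≤ Fb.card * 2 ^ k := by linarith
          exact le_of_mul_le_mul_right g8 (by positivity)
        refine g6.trans (Nat.cast_le.2 ?_)
        apply card_le_card_of_injOn (fun x => x + A0)
        · intro x hx
          obtain ⟨hx1, hx2, -, hx3⟩ := hFm x (mem_coe.1 hx)
          rw [mem_coe]
          show x + A0 ∈ _
          unfold Rp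
          have hQx : Q * (x + A0) ^ e ≤ n := by
            have h2 : x + A0 ≤ (A0 + 1) * x := by nlinarith
            have h3 : (x + A0) ^ e ≤ (A0 + 1) ^ e * x ^ e := by
              rw [← mul_pow]
              exact Nat.pow_le_pow_left h2 e
            have h4 : c * (Q * (x + A0) ^ e) ≤ c * n := by
              calc c * (Q * (x + A0) ^ e) ≤ c * (Q * ((A0 + 1) ^ e * x ^ e)) := Nat.mul_le_mul_left _ (Nat.mul_le_mul_left _ h3)
                _ = Q * c * (A0 + 1) ^ e * x ^ e := by ring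
                _ ≤ _ := hx2
            exact Nat.le_of_mul_le_mul_left h4 hc
          rw [mem_filter, mem_Icc]
          refine ⟨⟨by omega, ?_⟩, hQx, fun i hi => ?_⟩
          · have h5 : x + A0 ≤ (x + A0) ^ e := Nat.le_self_pow (by omega) _
            have h6 : (x + A0) ^ e ≤ Q * (x + A0) ^ e := Nat.le_mul_of_pos_left _ (by omega)
            omega
          · obtain ⟨h5, h6⟩ := hx3 i (hI1 hi)
            rw [hval] at h6
            constructor
            · have e2 : (((x + A0 : ℕ) : ℤ) + a i) = ((x + a' i : ℕ) : ℤ) := by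
                push_cast
                rw [ha']
                ring
              rw [e2, Int.toNat_natCast]
              exact h5
            · push_cast
              exact h6
        · intro x _ x' _ h
          simpa using h
  have h2 : (((Icc 1 N).filter (fun n => Lp F c a b n ∧
      ¬ ∃ I : Finset (Fin k), I.card = m ∧ (n : ℝ) ^ (1 / (e : ℝ)) / Real.log n ^ (E + 1) ≤ ((Rp Q F e c a b I n).card : ℝ))).card : ℝ) ≤
      n0 + (((Icc 1 (c * N)).filter (fun n => LocP f σ a' b' n ∧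
      ((SolP (Q * c * (A0 + 1) ^ e) f σ e a' b' m n).card : ℝ) < (n : ℝ) ^ (1 / (e : ℝ)) / Real.log n ^ E)).card : ℝ) := by
    exact_mod_cast hsub
  refine h2.trans ?_
  rw [div_le_iff₀ hε] at hNn
  have e3 : ε / (2 * c) * ((c * N : ℕ) : ℝ) = ε / 2 * N := by push_cast; field_simp
  rw [e3] at key
  linarith

end gen

end Pool.Agent.L0h42.PP
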