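import Mathlib
import Pool.Agent.L0h42.PP.P9
import Pool.Agent.L0h42.PP.WC
import Pool.Agent.L0h90.PP.Pr
import Pool.Agent.L0h64.PP.M4

/-! Without primes `x + a_i`; patterns beginning at `n + F(x)`. -/

set_option autoImplicit false
set_option linter.unusedSectionVars false
set_option linter.unusedVariables false

namespace Pool.Agent.L0h42.PP
open Finset
open Pool.Agent.L0h42.TB
open Pool.Agent.L0h42.EG
open Pool.Agent.L0h42.CP
open Pool.Agent.H373R2.T7

open Classical in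
/-- **almost all integers, primes `x + a_i` and `c n + F(x) + b_i`.** -/
theorem thm_A (m e : ℕ) (hm : 1 ≤ m) (he : 1 ≤ e) : ∃ k : ℕ, 1 ≤ k ∧
    ∀ F : Polynomial ℤ, F.natDegree = e → ∀ Q c : ℕ, 1 ≤ Q → 1 ≤ c → ∀ a b : Fin k → ℤ,
    Function.Injective a → Function.Injective b → ∀ ε : ℝ, 0 < ε → ∃ E N0 : ℕ, ∀ N : ℕ, N0 ≤ N →
    (((Icc 1 N).filter (fun n => Lp F c a b n ∧
      ¬ ∃ I : Finset (Fin k), I.card = m ∧ (n : ℝ) ^ (1 / (e : ℝ)) / Real.log n ^ E ≤ ((Rp Q F e c a b I n).card : ℝ))).card : ℝ) ≤ ε * N :=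
  gen_A wc Pool.Agent.L0h90.PP.t_PR Pool.Agent.L0h64.PP.t_M4 m e hm he

/-- few roots modulo a prime -/
lemma roots_le (G : Polynomial ℤ) (e : ℕ) (hG : G.natDegree ≤ e) (p : ℕ) (hp : p.Prime) (hx : ∃ x : ℤ, ¬ (p : ℤ) ∣ G.eval x) :
    ((range p).filter (fun t : ℕ => (p : ℤ) ∣ G.eval (t : ℤ))).card ≤ e := by
  classical
  have : Fact p.Prime := ⟨hp⟩
  obtain ⟨gp, hgp⟩ : ∃ gp, gp = G.map (Int.castRingHom (ZMod p)) := ⟨_, rfl⟩
  have hev : ∀ x : ℤ, gp.eval ((x : ℤ) : ZMod p) = ((G.eval x : ℤ) : ZMod p) := by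
    intro x
    have e1 := Polynomial.eval_intCast_map (Int.castRingHom (ZMod p)) G x
    rw [hgp, e1]
    rfl
  have hgp0 : gp ≠ 0 := by
    intro h0
    obtain ⟨x, hx⟩ := hx
    apply hx
    have := hev x
    rw [h0, Polynomial.eval_zero] at this
    exact (ZMod.intCast_zmod_eq_zero_iff_dvd _ _).1 this.symm
  calc ((range p).filter (fun t : ℕ => (p : ℤ) ∣ G.eval (t : ℤ))).card
      ≤ gp.roots.toFinset.card := by
        apply card_le_card_of_injOn (fun t : ℕ => (t : ZMod p))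
        · intro t ht
          rw [mem_coe, mem_filter, mem_range] at ht
          rw [mem_coe, Multiset.mem_toFinset, Polynomial.mem_roots hgp0, Polynomial.IsRoot.def]
          have h1 := hev t
          rw [(ZMod.intCast_zmod_eq_zero_iff_dvd _ _).2 ht.2] at h1
          simpa using h1
        · intro t ht t' ht' h
          rw [mem_coe, mem_filter, mem_range] at ht ht'
          have h1 : (t : ZMod p) = (t' : ZMod p) := h
          rw [ZMod.natCast_eq_natCast_iff'] at h1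
          rwa [Nat.mod_eq_of_lt ht.1, Nat.mod_eq_of_lt ht'.1] at h1
    _ ≤ Multiset.card gp.roots := Multiset.toFinset_card_le _
    _ ≤ gp.natDegree := Polynomial.card_roots' _
    _ ≤ G.natDegree := by rw [hgp]; exact Polynomial.natDegree_map_le
    _ ≤ e := hG

section gen
variable {k : ℕ}

/-- a common good residue modulo a large prime -/
lemma exists_good (F : Polynomial ℤ) (e : ℕ) (hF : F.natDegree ≤ e) (u : ℤ) (a b : Fin k → ℤ) (p : ℕ) (hp : p.Prime) (hpk : k * (e + 1) < p)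
    (hx : ∀ i, ∃ x : ℤ, ¬ (p : ℤ) ∣ u + F.eval x + b i) :
    ∃ x : ℤ, ∀ i, ¬ (p : ℤ) ∣ x + a i ∧ ¬ (p : ℤ) ∣ u + F.eval x + b i := by
  classical
  have h1 : ∀ i, ((range p).filter (fun t : ℕ => (p : ℤ) ∣ (t : ℤ) + a i)).card ≤ 1 := by
    intro i
    have h := roots_le (Polynomial.X + Polynomial.C (a i)) 1 (by rw [Polynomial.natDegree_X_add_C]) p hp ⟨1 - a i, by
      rw [Polynomial.eval_add, Polynomial.eval_X, Polynomial.eval_C]
      intro hd
      have e1 : 1 - a i + a i = 1 := by ring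
      rw [e1] at hd
      exact hp.one_lt.ne' (Nat.dvd_one.1 (by exact_mod_cast hd))⟩
    simpa only [Polynomial.eval_add, Polynomial.eval_X, Polynomial.eval_C] using h
  have h2 : ∀ i, ((range p).filter (fun t : ℕ => (p : ℤ) ∣ u + F.eval (t : ℤ) + b i)).card ≤ e := by
    intro i
    have h := roots_le (F + Polynomial.C (u + b i)) e (by rw [Polynomial.natDegree_add_C]; exact hF) p hp (by
      obtain ⟨x, hx⟩ := hx i
      refine ⟨x, ?_⟩
      rw [Polynomial.eval_add, Polynomial.eval_C]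
      have e1 : F.eval x + (u + b i) = u + F.eval x + b i := by ring
      rwa [e1])
    simp only [Polynomial.eval_add, Polynomial.eval_C] at h
    refine le_trans (le_of_eq ?_) h
    congr 1
    apply filter_congr
    intro t _
    have e1 : F.eval (t : ℤ) + (u + b i) = u + F.eval (t : ℤ) + b i := by ring
    rw [e1]
  obtain ⟨Bd, hBd⟩ : ∃ Bd : Finset ℕ, Bd = (univ : Finset (Fin k)).biUnion (fun i => ((range p).filter (fun t : ℕ => (p : ℤ) ∣ (t : ℤ) + a i)) ∪
      ((range p).filter (fun t : ℕ => (p : ℤ) ∣ u + F.eval (t : ℤ) + b i))) := ⟨_, rfl⟩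
  have h3 : Bd.card ≤ k * (e + 1) := by
    rw [hBd]
    refine card_biUnion_le.trans ?_
    refine (sum_le_sum (g := fun _ => e + 1) (fun i _ => (card_union_le _ _).trans (by have := h1 i; have := h2 i; omega))).trans ?_
    rw [sum_const, card_univ, Fintype.card_fin, smul_eq_mul]
  obtain ⟨t, ht1, ht2⟩ : ∃ t ∈ range p, t ∉ Bd := by
    by_contra hcon
    push Not at hcon
    have h4 := card_le_card (show range p ⊆ Bd from hcon)
    rw [card_range] at h4
    omega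
  refine ⟨t, fun i => ⟨fun hd => ht2 ?_, fun hd => ht2 ?_⟩⟩
  · rw [hBd, mem_biUnion]
    exact ⟨i, mem_univ _, mem_union_left _ (mem_filter.2 ⟨ht1, hd⟩)⟩
  · rw [hBd, mem_biUnion]
    exact ⟨i, mem_univ _, mem_union_right _ (mem_filter.2 ⟨ht1, hd⟩)⟩

/-- the `x` for which `c n + F(x) + b_i` is prime for all `i` in `I`, with `m` primes near `x` -/
def Rb (C₁ m Q : ℕ) (F : Polynomial ℤ) (e c : ℕ) (b : Fin k → ℤ) (I : Finset (Fin k)) (n : ℕ) : Finset ℕ :=
  (Icc 1 n).filter (fun x => Q * x ^ e ≤ n ∧ m ≤ ((range (C₁ + 1)).filter (fun j => (x + j).Prime)).card ∧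
    ∀ i ∈ I, ((c : ℤ) * n + F.eval (x : ℤ) + b i).toNat.Prime)

/-- no local obstruction -/
def Lb (F : Polynomial ℤ) (c : ℕ) (b : Fin k → ℤ) (n : ℕ) : Prop :=
  ∀ p : ℕ, p.Prime → ∃ x : ℤ, ∀ i, ¬ (p : ℤ) ∣ (c : ℤ) * n + F.eval x + b i

end gen

open Classical in
/-- **almost all integers, primes `c n + F(x) + b_i`.** -/
theorem thm_B (m e : ℕ) (hm : 1 ≤ m) (he : 1 ≤ e) : ∃ k C₁ : ℕ, 1 ≤ k ∧
    ∀ F : Polynomial ℤ, F.natDegree = e → ∀ Q c : ℕ, 1 ≤ Q → 1 ≤ c → ∀ b : Fin k → ℤ,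
    Function.Injective b → ∀ ε : ℝ, 0 < ε → ∃ E N0 : ℕ, ∀ N : ℕ, N0 ≤ N →
    (((Icc 1 N).filter (fun n => Lb F c b n ∧
      ¬ ∃ I : Finset (Fin k), I.card = m ∧ (n : ℝ) ^ (1 / (e : ℝ)) / Real.log n ^ E ≤ ((Rb C₁ m Q F e c b I n).card : ℝ))).card : ℝ) ≤ ε * N := by
  obtain ⟨k, hk, hA⟩ := thm_A m e hm he
  obtain ⟨z, hz⟩ : ∃ z, z = k * (e + 1) := ⟨_, rfl⟩
  obtain ⟨P, hP⟩ : ∃ P, P = Wp z := ⟨_, rfl⟩
  have hP1 : 1 ≤ P := by rw [hP]; exact Wp_pos z
  refine ⟨k, (k + 1) * P, hk, fun F hF Q c hQ hc b hb ε hε => ?_⟩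
  obtain ⟨a, ha⟩ : ∃ a : ℕ → Fin k → ℤ, ∀ α i, a α i = ((α + i.val * P : ℕ) : ℤ) := ⟨fun α i => ((α + i.val * P : ℕ) : ℤ), fun _ _ => rfl⟩
  have hainj : ∀ α, Function.Injective (a α) := by
    intro α i j hij
    rw [ha, ha] at hij
    have h1 : α + i.val * P = α + j.val * P := by exact_mod_cast hij
    have h2 : i.val * P = j.val * P := by omega
    exact Fin.ext (Nat.eq_of_mul_eq_mul_right (by omega) h2)
  have hPr : (1 : ℝ) ≤ P := by exact_mod_cast hP1
  have hex : ∀ α : ℕ, ∃ E N0 : ℕ, ∀ N : ℕ, N0 ≤ N →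
      (((Icc 1 N).filter (fun n => Lp F c (a α) b n ∧
      ¬ ∃ I : Finset (Fin k), I.card = m ∧ (n : ℝ) ^ (1 / (e : ℝ)) / Real.log n ^ E ≤ ((Rp Q F e c (a α) b I n).card : ℝ))).card : ℝ) ≤ ε / (2 * P) * N :=
    fun α => hA F hF Q c hQ hc (a α) b (hainj α) hb (ε / (2 * P)) (by positivity)
  choose E N0 hEN using hex
  obtain ⟨E', hE'⟩ : ∃ E', E' = (range P).sup E := ⟨_, rfl⟩
  refine ⟨E', max ((range P).sup N0) ⌈2 * 3 / ε⌉₊, fun N hN => ?_⟩
  have hNn : 2 * 3 / ε ≤ N := (Nat.le_ceil _).trans (by exact_mod_cast le_trans (le_max_right _ _) hN)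
  have hN0 : ∀ α ∈ range P, N0 α ≤ N := fun α hα => (le_sup (f := N0) hα).trans (le_trans (le_max_left _ _) hN)
  have hsub : (Icc 1 N).filter (fun n => Lb F c b n ∧
      ¬ ∃ I : Finset (Fin k), I.card = m ∧ (n : ℝ) ^ (1 / (e : ℝ)) / Real.log n ^ E' ≤ ((Rb ((k + 1) * P) m Q F e c b I n).card : ℝ)) ⊆
      range 3 ∪ (range P).biUnion (fun α => (Icc 1 N).filter (fun n => Lp F c (a α) b n ∧
      ¬ ∃ I : Finset (Fin k), I.card = m ∧ (n : ℝ) ^ (1 / (e : ℝ)) / Real.log n ^ (E α) ≤ ((Rp Q F e c (a α) b I n).card : ℝ))) := by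
    intro n hn
    rw [mem_filter] at hn
    obtain ⟨hn1, hn2, hn3⟩ := hn
    rw [mem_union, mem_range, mem_biUnion]
    by_cases hn4 : n < 3
    · exact Or.inl hn4
    · right
      have hr : ∀ p : ℕ, ∃ r : ℤ, p.Prime → ∀ i, ¬ (p : ℤ) ∣ (c : ℤ) * n + F.eval r + b i := by
        intro p
        by_cases hp : p.Prime
        · obtain ⟨r, hr⟩ := hn2 p hp
          exact ⟨r, fun _ => hr⟩
        · exact ⟨0, fun h => absurd h hp⟩
      choose r hr using hr
      obtain ⟨α, hα1, hα2⟩ := crt_small z (fun p => ((1 - r p) % (p : ℤ)).toNat)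
      rw [← hP] at hα1
      refine ⟨α, mem_range.2 hα1, mem_filter.2 ⟨hn1, ?_, ?_⟩⟩
      · intro p hp
        by_cases hpz : p ≤ z
        · refine ⟨r p, fun i => ⟨?_, hr p hp i⟩⟩
          intro hd
          have hpm : p ∈ pz z := mem_pz.2 ⟨hpz, hp⟩
          have h1 := hα2 p hpm
          have hp0 : (0 : ℤ) < p := by exact_mod_cast hp.pos
          have h2 : (p : ℤ) ∣ (α : ℤ) - ((((1 - r p) % (p : ℤ)).toNat : ℕ) : ℤ) := Nat.modEq_iff_dvd.1 h1.symm
          rw [Int.toNat_of_nonneg (Int.emod_nonneg _ hp0.ne')] at h2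
          have h3 : (p : ℤ) ∣ (1 - r p) - (1 - r p) % (p : ℤ) := Int.dvd_self_sub_emod
          have h4 : (p : ℤ) ∣ (P : ℤ) := by rw [hP]; exact_mod_cast dvd_Wp hpm
          rw [ha] at hd
          push_cast at hd
          have e1 : (1 : ℤ) = (r p + (α + (i.val : ℤ) * P)) - ((α : ℤ) - (1 - r p) % (p : ℤ)) + ((1 - r p) - (1 - r p) % (p : ℤ)) - i.val * P := by ring
          have h5 : (p : ℤ) ∣ 1 := by
            rw [e1]
            exact dvd_sub (dvd_add (dvd_sub hd h2) h3) (h4.mul_left _)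
          exact hp.one_lt.ne' (Nat.dvd_one.1 (by exact_mod_cast h5))
        · exact exists_good F e hF.le ((c : ℤ) * n) (a α) b p hp (by rw [← hz]; omega) (fun i => ⟨r p, hr p hp i⟩)
      · rintro ⟨I, hI1, hI2⟩
        apply hn3
        refine ⟨I, hI1, ?_⟩
        have hnr : (3 : ℝ) ≤ n := by exact_mod_cast (by omega : 3 ≤ n)
        have hL1 : 1 ≤ Real.log n := by
          rw [Real.le_log_iff_exp_le (by linarith)]
          have := Real.exp_one_lt_d9
          linarith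
        have g1 : Real.log n ^ (E α) ≤ Real.log n ^ E' := pow_le_pow_right₀ hL1 (by rw [hE']; exact le_sup (mem_range.2 hα1))
        have g2 : (n : ℝ) ^ (1 / (e : ℝ)) / Real.log n ^ E' ≤ (n : ℝ) ^ (1 / (e : ℝ)) / Real.log n ^ (E α) :=
          div_le_div_of_nonneg_left (by positivity) (by positivity) g1
        refine g2.trans (hI2.trans (Nat.cast_le.2 (card_le_card ?_)))
        intro x hx
        unfold Rp at hx
        unfold Rb
        rw [mem_filter] at hx ⊢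
        refine ⟨hx.1, hx.2.1, ?_, fun i hi => (hx.2.2 i hi).2⟩
        rw [← hI1]
        apply card_le_card_of_injOn (fun i => α + i.val * P)
        · intro i hi
          have h1 := (hx.2.2 i (mem_coe.1 hi)).1
          rw [ha] at h1
          have e2 : ((x : ℤ) + ((α + i.val * P : ℕ) : ℤ)) = ((x + (α + i.val * P) : ℕ) : ℤ) := by push_cast; ring
          rw [e2, Int.toNat_natCast] at h1
          rw [mem_coe, mem_filter, mem_range]
          refine ⟨?_, h1⟩
          have h3 : i.val * P ≤ k * P := Nat.mul_le_mul_right _ i.2.le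
          have h4 : (k + 1) * P = k * P + P := by ring
          show α + i.val * P < (k + 1) * P + 1
          omega
        · intro i _ j _ hij
          have h2 : i.val * P = j.val * P := by
            have : α + i.val * P = α + j.val * P := hij
            omega
          exact Fin.ext (Nat.eq_of_mul_eq_mul_right (by omega) h2)
  have h1 := (card_le_card hsub).trans ((card_union_le _ _).trans (add_le_add le_rfl card_biUnion_le))
  rw [card_range] at h1
  have h2 : (((Icc 1 N).filter (fun n => Lb F c b n ∧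
      ¬ ∃ I : Finset (Fin k), I.card = m ∧ (n : ℝ) ^ (1 / (e : ℝ)) / Real.log n ^ E' ≤ ((Rb ((k + 1) * P) m Q F e c b I n).card : ℝ))).card : ℝ) ≤
      3 + ∑ α ∈ range P, (((Icc 1 N).filter (fun n => Lp F c (a α) b n ∧
      ¬ ∃ I : Finset (Fin k), I.card = m ∧ (n : ℝ) ^ (1 / (e : ℝ)) / Real.log n ^ (E α) ≤ ((Rp Q F e c (a α) b I n).card : ℝ))).card : ℝ) := by
    exact_mod_cast h1
  have h3 : ∑ α ∈ range P, (((Icc 1 N).filter (fun n => Lp F c (a α) b n ∧
      ¬ ∃ I : Finset (Fin k), I.card = m ∧ (n : ℝ) ^ (1 / (e : ℝ)) / Real.log n ^ (E α) ≤ ((Rp Q F e c (a α) b I n).card : ℝ))).card : ℝ) ≤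
      ∑ _α ∈ range P, ε / (2 * P) * N := sum_le_sum fun α hα => hEN α N (hN0 α hα)
  rw [sum_const, card_range, nsmul_eq_mul] at h3
  have e3 : (P : ℝ) * (ε / (2 * P) * N) = ε / 2 * N := by field_simp
  rw [e3] at h3
  rw [div_le_iff₀ hε] at hNn
  linarith

end Pool.Agent.L0h42.PP
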