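import Mathlib
import Pool.Agent.L0h42.PP.P10

/-! Patterns of primes beginning at `n + F(x)`. -/

set_option autoImplicit false
set_option linter.unusedSectionVars false
set_option linter.unusedVariables false

namespace Pool.Agent.L0h42.PP
open Finset
open Pool.Agent.L0h42.TB
open Pool.Agent.L0h42.EG
open Pool.Agent.L0h42.CP
open Pool.Agent.H373R2.T7

open Classical in
/-- few bad translates imply few bad integers. -/
lemma shift_density (k T W₀ X : ℕ) (hT : 1 ≤ T) (Bad : ℕ → Prop) (M : ℝ) (hM : 0 ≤ M)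
    (hyp : ∀ e : Fin k → Fin T, Function.Injective e →
      (((Icc 1 X).filter (fun n => ∀ i, Bad (n + W₀ * ((e i : ℕ) + 1)))).card : ℝ) ≤ M) :
    (((Icc 1 X).filter Bad).card : ℝ) ≤ W₀ * T + k * X / T + Fintype.card (Fin k → Fin T) * M := by
  obtain ⟨Ex, hEx⟩ : ∃ Ex : Finset ℕ, Ex = univ.biUnion (fun e : Fin k → Fin T => if Function.Injective e then
      (Icc 1 X).filter (fun n => ∀ i, Bad (n + W₀ * ((e i : ℕ) + 1))) else ∅) := ⟨_, rfl⟩
  have hExc : (Ex.card : ℝ) ≤ Fintype.card (Fin k → Fin T) * M := by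
    have h1 : (Ex.card : ℝ) ≤ ∑ e : Fin k → Fin T, M := by
      rw [hEx]
      refine (Nat.cast_le.2 card_biUnion_le).trans ?_
      push_cast
      apply sum_le_sum
      intro e _
      split_ifs with he
      · exact hyp e he
      · simpa using hM
    rwa [sum_const, card_univ, nsmul_eq_mul] at h1
  have hT0 : (0 : ℝ) < T := by exact_mod_cast hT
  have key : ∀ n ∈ Icc 1 X, (((range T).filter (fun j => Bad (n + W₀ * (j + 1)))).card : ℝ) ≤ k + T * (if n ∈ Ex then 1 else 0) := by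
    intro n hn
    have hle : (((range T).filter (fun j => Bad (n + W₀ * (j + 1)))).card : ℝ) ≤ T := by
      have := card_filter_le (range T) (fun j => Bad (n + W₀ * (j + 1)))
      rw [card_range] at this
      exact_mod_cast this
    have hk0 : (0 : ℝ) ≤ k := Nat.cast_nonneg _
    by_cases h1 : n ∈ Ex
    · rw [if_pos h1]
      linarith
    · rw [if_neg h1, mul_zero, add_zero]
      rw [Nat.cast_le]
      by_contra hcon
      push Not at hcon
      obtain ⟨I, hI1, hI2⟩ := exists_subset_card_eq hcon.le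
      have hIm : ∀ j ∈ I, j < T ∧ Bad (n + W₀ * (j + 1)) := by
        intro j hj
        have := hI1 hj
        rw [mem_filter, mem_range] at this
        exact this
      obtain ⟨e, he⟩ : ∃ e : Fin k → Fin T, e = fun i => ⟨(I.equivFin.symm (Fin.cast hI2.symm i) : I), (hIm _ (I.equivFin.symm (Fin.cast hI2.symm i)).2).1⟩ := ⟨_, rfl⟩
      have heinj : Function.Injective e := by
        intro i j hij
        rw [he] at hij
        have h3 := congrArg Fin.val hij
        have := I.equivFin.symm.injective (Subtype.ext h3)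
        exact Fin.cast_injective _ this
      apply h1
      rw [hEx, mem_biUnion]
      refine ⟨e, mem_univ _, ?_⟩
      rw [if_pos heinj, mem_filter]
      refine ⟨hn, fun i => ?_⟩
      rw [he]
      exact (hIm _ (I.equivFin.symm (Fin.cast hI2.symm i)).2).2
  have hsum1 : ∑ n ∈ Icc 1 X, (((range T).filter (fun j => Bad (n + W₀ * (j + 1)))).card : ℝ) ≤ k * X + T * Ex.card := by
    refine (sum_le_sum key).trans ?_
    rw [sum_add_distrib, ← mul_sum, sum_const, Nat.card_Icc, nsmul_eq_mul]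
    have h2 : ∑ n ∈ Icc 1 X, (if n ∈ Ex then (1 : ℝ) else 0) ≤ Ex.card := by
      rw [← sum_filter, sum_const, nsmul_eq_mul, mul_one]
      exact_mod_cast card_le_card (fun n hn => (mem_filter.1 hn).2)
    have h4 : ((X + 1 - 1 : ℕ) : ℝ) = X := by
      congr 1
    rw [h4]
    have h5 := mul_le_mul_of_nonneg_left h2 hT0.le
    linarith
  have hsum2 : (T : ℝ) * (((Icc 1 X).filter (fun n => W₀ * T < n ∧ Bad n)).card : ℝ) ≤
      ∑ n ∈ Icc 1 X, (((range T).filter (fun j => Bad (n + W₀ * (j + 1)))).card : ℝ) := by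
    have e1 : ∀ n ∈ Icc 1 X, (((range T).filter (fun j => Bad (n + W₀ * (j + 1)))).card : ℝ) =
        ∑ j ∈ range T, (if Bad (n + W₀ * (j + 1)) then (1 : ℝ) else 0) := by
      intro n _
      rw [card_filter]
      push_cast
      rfl
    rw [sum_congr rfl e1, sum_comm]
    have h1 : ∀ j ∈ range T, (((Icc 1 X).filter (fun n => W₀ * T < n ∧ Bad n)).card : ℝ) ≤
        ∑ n ∈ Icc 1 X, (if Bad (n + W₀ * (j + 1)) then (1 : ℝ) else 0) := by
      intro j hj
      rw [mem_range] at hj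
      rw [← sum_filter, sum_const, nsmul_eq_mul, mul_one]
      apply Nat.cast_le.2
      have hjC : W₀ * (j + 1) ≤ W₀ * T := Nat.mul_le_mul_left _ (by omega)
      apply card_le_card_of_injOn (fun n => n - W₀ * (j + 1))
      · intro n hn
        rw [mem_coe, mem_filter, mem_Icc] at hn
        obtain ⟨⟨h1, h2⟩, h3, h4⟩ := hn
        have e2 : n - W₀ * (j + 1) + W₀ * (j + 1) = n := by omega
        change n - W₀ * (j + 1) ∈ _
        rw [mem_coe, mem_filter, mem_Icc]
        refine ⟨⟨by omega, by omega⟩, ?_⟩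
        rw [e2]; exact h4
      · intro n hn n' hn' hnn
        rw [mem_coe, mem_filter, mem_Icc] at hn hn'
        simp only at hnn
        omega
    refine le_trans (le_of_eq ?_) (sum_le_sum h1)
    rw [sum_const, card_range, nsmul_eq_mul]
  have h9 := hsum2.trans hsum1
  have h10 : (((Icc 1 X).filter (fun n => W₀ * T < n ∧ Bad n)).card : ℝ) ≤ k * X / T + Ex.card := by
    have e1 : (k : ℝ) * X / T + Ex.card = (k * X + T * Ex.card) / T := by field_simp
    rw [e1, le_div_iff₀ hT0]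
    linarith
  have h11 : (((Icc 1 X).filter Bad).card : ℝ) ≤ W₀ * T + (((Icc 1 X).filter (fun n => W₀ * T < n ∧ Bad n)).card : ℝ) := by
    have h12 : ((Icc 1 X).filter Bad).card ≤ (Icc 1 (W₀ * T)).card + ((Icc 1 X).filter (fun n => W₀ * T < n ∧ Bad n)).card := by
      refine le_trans (card_le_card ?_) (card_union_le _ _)
      intro n hn
      rw [mem_filter, mem_Icc] at hn
      rw [mem_union, mem_filter, mem_Icc, mem_Icc]
      by_cases h13 : n ≤ W₀ * T
      · left; exact ⟨hn.1.1, h13⟩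
      · right
        exact ⟨hn.1, by omega, hn.2⟩
    rw [Nat.card_Icc] at h12
    have h14 : ((Icc 1 X).filter Bad).card ≤ W₀ * T + ((Icc 1 X).filter (fun n => W₀ * T < n ∧ Bad n)).card := by omega
    exact_mod_cast h14
  linarith

/-- the `x` for which `n + F(x)` and all `n + F(x) + d`, `d` in `D`, are prime, with `m + 1` primes near `x` -/
def Rc (C₁ m Q : ℕ) (F : Polynomial ℤ) (e : ℕ) (D : Finset ℕ) (n : ℕ) : Finset ℕ :=
  (Icc 1 n).filter (fun x => Q * x ^ e ≤ n ∧ m + 1 ≤ ((range (C₁ + 1)).filter (fun j => (x + j).Prime)).card ∧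
    ((n : ℤ) + F.eval (x : ℤ)).toNat.Prime ∧ ∀ d ∈ D, ((n : ℤ) + F.eval (x : ℤ) + d).toNat.Prime)

/-- no prime divides all the values `n + F(x)` -/
def NoFix (F : Polynomial ℤ) (n : ℕ) : Prop := ∀ p : ℕ, p.Prime → ∃ x : ℤ, ¬ (p : ℤ) ∣ (n : ℤ) + F.eval x

/-- many values `n + F(x)` begin the same pattern of primes -/
def PGd (C₁ m Q : ℕ) (F : Polynomial ℤ) (e C E n : ℕ) : Prop :=
  ∃ D ⊆ Icc 1 C, D.card = m ∧ (n : ℝ) ^ (1 / (e : ℝ)) / Real.log n ^ E ≤ ((Rc C₁ m Q F e D n).card : ℝ)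

/-- from a fixed tuple to a pattern beginning at one of the translates -/
lemma tuple_pattern {k : ℕ} (C₁ m Q : ℕ) (F : Polynomial ℤ) (e C E E' : ℕ) (he : 1 ≤ e) (hEE : E ≤ E') (b : Fin k → ℕ) (hb : Function.Injective b)
    (hbC : ∀ i, b i ≤ C) (n : ℕ) (hn : C ≤ n) (hn1 : 1 ≤ n) (hL : 2 ≤ Real.log n) (I : Finset (Fin k)) (hI : I.card = m + 1)
    (hS : (n : ℝ) ^ (1 / (e : ℝ)) / Real.log n ^ E ≤ ((Rb C₁ (m + 1) Q F e 1 (fun i => (b i : ℤ)) I n).card : ℝ)) :
    ∃ i₀, PGd C₁ m Q F e C (E' + 1) (n + b i₀) := by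
  classical
  have hIne : I.Nonempty := card_pos.1 (by omega)
  obtain ⟨i₀, hi1, hi2⟩ := exists_min_image I b hIne
  refine ⟨i₀, (I.erase i₀).image (fun j => b j - b i₀), ?_, ?_, ?_⟩
  · intro d hd
    rw [mem_image] at hd
    obtain ⟨j, hj, rfl⟩ := hd
    rw [mem_erase] at hj
    have h1 := hi2 j hj.2
    have h2 : b i₀ ≠ b j := fun h => hj.1 (hb h).symm
    have h3 := hbC j
    rw [mem_Icc]
    omega
  · rw [card_image_of_injOn, card_erase_of_mem hi1, hI]
    · omega
    · intro j hj j' hj' hjj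
      rw [mem_coe, mem_erase] at hj hj'
      have h1 := hi2 j hj.2
      have h2 := hi2 j' hj'.2
      simp only at hjj
      exact hb (by omega)
  · obtain ⟨n', hn'⟩ : ∃ n', n' = n + b i₀ := ⟨_, rfl⟩
    have hn'C : n' ≤ 2 * n := by rw [hn']; have := hbC i₀; omega
    have hnn' : n ≤ n' := by omega
    have hn0 : (1 : ℝ) ≤ n := by exact_mod_cast hn1
    have hLn' : Real.log n ≤ Real.log n' := Real.log_le_log (by linarith) (by exact_mod_cast hnn')
    rw [← hn']
    have her : (1 : ℝ) ≤ e := by exact_mod_cast he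
    have g1 : (n' : ℝ) ^ (1 / (e : ℝ)) ≤ 2 * (n : ℝ) ^ (1 / (e : ℝ)) := by
      have h1 : (n' : ℝ) ^ (1 / (e : ℝ)) ≤ (2 * n : ℝ) ^ (1 / (e : ℝ)) := by
        apply Real.rpow_le_rpow (Nat.cast_nonneg _) _ (by positivity)
        exact_mod_cast hn'C
      rw [Real.mul_rpow (by norm_num) (Nat.cast_nonneg _)] at h1
      refine h1.trans ?_
      apply mul_le_mul_of_nonneg_right _ (by positivity)
      have h2 : (2 : ℝ) ^ (1 / (e : ℝ)) ≤ (2 : ℝ) ^ (1 : ℝ) := by
        apply Real.rpow_le_rpow_of_exponent_le (by norm_num)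
        rw [div_le_one (by linarith)]
        exact her
      rwa [Real.rpow_one] at h2
    have g2 : (n' : ℝ) ^ (1 / (e : ℝ)) / Real.log n' ^ (E' + 1) ≤ (n : ℝ) ^ (1 / (e : ℝ)) / Real.log n ^ E := by
      have h3 : Real.log n ^ E ≤ Real.log n' ^ E' := by
        calc Real.log n ^ E ≤ Real.log n' ^ E := pow_le_pow_left₀ (by linarith) hLn' _
          _ ≤ _ := pow_le_pow_right₀ (by linarith) hEE
      have h0 : 0 ≤ (n : ℝ) ^ (1 / (e : ℝ)) := by positivity
      have hLp : 0 < Real.log n := by linarith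
      have hLp' : 0 < Real.log n' := by linarith
      rw [div_le_div_iff₀ (by positivity) (by positivity)]
      calc (n' : ℝ) ^ (1 / (e : ℝ)) * Real.log n ^ E ≤ (2 * (n : ℝ) ^ (1 / (e : ℝ))) * Real.log n' ^ E' := by gcongr
        _ = (n : ℝ) ^ (1 / (e : ℝ)) * (Real.log n' ^ E' * 2) := by ring
        _ ≤ (n : ℝ) ^ (1 / (e : ℝ)) * (Real.log n' ^ E' * Real.log n') := by
            apply mul_le_mul_of_nonneg_left _ h0
            apply mul_le_mul_of_nonneg_left _ (by positivity)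
            linarith
        _ = _ := by rw [pow_succ]
    refine g2.trans (hS.trans (Nat.cast_le.2 (card_le_card ?_)))
    intro x hx
    unfold Rb at hx
    unfold Rc
    rw [mem_filter, mem_Icc] at hx ⊢
    obtain ⟨⟨h1, h2⟩, h3, h4, h5⟩ := hx
    refine ⟨⟨h1, by omega⟩, by omega, h4, ?_, ?_⟩
    · have h6 := h5 i₀ hi1
      have e1 : ((1 : ℕ) : ℤ) * n + F.eval (x : ℤ) + b i₀ = (n' : ℤ) + F.eval (x : ℤ) := by rw [hn']; push_cast; ring
      rw [e1] at h6
      exact h6
    · intro d hd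
      rw [mem_image] at hd
      obtain ⟨j, hj, rfl⟩ := hd
      rw [mem_erase] at hj
      have h6 := h5 j hj.2
      have h7 := hi2 j hj.2
      have e1 : ((1 : ℕ) : ℤ) * n + F.eval (x : ℤ) + b j = (n' : ℤ) + F.eval (x : ℤ) + ((b j - b i₀ : ℕ) : ℤ) := by
        rw [hn']
        push_cast [Nat.cast_sub h7]
        ring
      rw [e1] at h6
      exact h6

open Classical in
/-- **patterns beginning at `n + F(x)`.** -/
theorem thm_C (m e : ℕ) (he : 1 ≤ e) : ∃ (C₁ : ℕ) (κ : ℝ), 0 < κ ∧ ∀ F : Polynomial ℤ, F.natDegree = e →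
    ∀ Q C : ℕ, 1 ≤ Q → 1 ≤ C → ∃ E X0 : ℕ, ∀ X : ℕ, X0 ≤ X →
    (((Icc 1 X).filter (fun n => NoFix F n ∧ ¬ PGd C₁ m Q F e C E n)).card : ℝ) ≤ κ / C * X := by
  obtain ⟨k, C₁, hk, hB⟩ := thm_B (m + 1) e (by omega) he
  obtain ⟨z, hz⟩ : ∃ z, z = k * (e + 1) := ⟨_, rfl⟩
  obtain ⟨W₀, hW₀⟩ : ∃ W₀, W₀ = Wp z := ⟨_, rfl⟩
  have hW1 : 1 ≤ W₀ := by rw [hW₀]; exact Wp_pos _
  have hWr : (1 : ℝ) ≤ W₀ := by exact_mod_cast hW1
  have hkr : (1 : ℝ) ≤ k := by exact_mod_cast hk
  obtain ⟨κ, hκ⟩ : ∃ κ : ℝ, κ = 2 * k * W₀ + 3 := ⟨_, rfl⟩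
  have hκ0 : 0 < κ := by rw [hκ]; positivity
  refine ⟨C₁, κ, hκ0, fun F hF Q C hQ hC => ?_⟩
  have hCr : (1 : ℝ) ≤ C := by exact_mod_cast hC
  by_cases hCW : C < W₀
  · -- small `C`
    refine ⟨0, 0, fun X _ => ?_⟩
    have h1 : ((Icc 1 X).filter (fun n => NoFix F n ∧ ¬ PGd C₁ m Q F e C 0 n)).card ≤ X := by
      refine (card_filter_le _ _).trans ?_
      simp
    have h2 : (1 : ℝ) ≤ κ / C := by
      rw [one_le_div (by linarith), hκ]
      have : (C : ℝ) ≤ W₀ := by exact_mod_cast hCW.le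
      nlinarith
    have h3 : (X : ℝ) ≤ κ / C * X := le_mul_of_one_le_left (Nat.cast_nonneg _) h2
    exact le_trans (by exact_mod_cast h1) h3
  · push Not at hCW
    obtain ⟨T, hT⟩ : ∃ T, T = C / W₀ := ⟨_, rfl⟩
    have hTC : W₀ * T ≤ C := by rw [hT]; exact Nat.mul_div_le C W₀
    have hT1 : 1 ≤ T := by rw [hT]; exact (Nat.one_le_div_iff (by omega)).2 hCW
    have hCT : C < W₀ * (T + 1) := by rw [hT]; exact Nat.lt_mul_div_succ C (by omega)
    obtain ⟨q, hq⟩ : ∃ q, q = Fintype.card (Fin k → Fin T) := ⟨_, rfl⟩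
    obtain ⟨ε, hε⟩ : ∃ ε : ℝ, ε = 1 / (C * (q + 1)) := ⟨_, rfl⟩
    have hε0 : 0 < ε := by rw [hε]; positivity
    have hbinj : ∀ t : Fin k → Fin T, Function.Injective t → Function.Injective (fun i => W₀ * ((t i : ℕ) + 1)) := by
      intro t ht i j hij
      simp only at hij
      have h3 := Nat.eq_of_mul_eq_mul_left (by omega) hij
      exact ht (Fin.ext (by omega))
    have hex : ∀ t : Fin k → Fin T, ∃ E X0 : ℕ, Function.Injective t → ∀ X : ℕ, X0 ≤ X →
        (((Icc 1 X).filter (fun n => Lb F 1 (fun i => ((W₀ * ((t i : ℕ) + 1) : ℕ) : ℤ)) n ∧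
          ¬ ∃ I : Finset (Fin k), I.card = m + 1 ∧ (n : ℝ) ^ (1 / (e : ℝ)) / Real.log n ^ E ≤
            ((Rb C₁ (m + 1) Q F e 1 (fun i => ((W₀ * ((t i : ℕ) + 1) : ℕ) : ℤ)) I n).card : ℝ))).card : ℝ) ≤ ε * X := by
      intro t
      by_cases ht : Function.Injective t
      · obtain ⟨E, X0, h⟩ := hB F hF Q 1 hQ le_rfl (fun i => ((W₀ * ((t i : ℕ) + 1) : ℕ) : ℤ)) (by
          intro i j hij
          simp only at hij
          have h3 : W₀ * ((t i : ℕ) + 1) = W₀ * ((t j : ℕ) + 1) := by exact_mod_cast hij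
          exact hbinj t ht h3) ε hε0
        exact ⟨E, X0, fun _ => h⟩
      · exact ⟨0, 0, fun h => absurd h ht⟩
    choose E X0 hEX using hex
    obtain ⟨E', hE'⟩ : ∃ E', E' = univ.sup E := ⟨_, rfl⟩
    have hEE : ∀ t, E t ≤ E' := fun t => by rw [hE']; exact le_sup (mem_univ t)
    obtain ⟨n1, h1⟩ := ev_L' 2
    obtain ⟨n0, hn0⟩ : ∃ n0, n0 = max n1 (C + 1) := ⟨_, rfl⟩
    refine ⟨E' + 1, max (univ.sup X0) (C * (C + q * n0)), fun X hX => ?_⟩
    have hX1 : ∀ t, X0 t ≤ X := fun t => (le_sup (f := X0) (mem_univ t)).trans (le_trans (le_max_left _ _) hX)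
    have hX2 : C * (C + q * n0) ≤ X := le_trans (le_max_right _ _) hX
    have key := shift_density k T W₀ X hT1 (fun n => NoFix F n ∧ ¬ PGd C₁ m Q F e C (E' + 1) n) (n0 + ε * X) (by positivity) (by
      intro t ht
      have hsub : (Icc 1 X).filter (fun n => ∀ i, NoFix F (n + W₀ * ((t i : ℕ) + 1)) ∧ ¬ PGd C₁ m Q F e C (E' + 1) (n + W₀ * ((t i : ℕ) + 1))) ⊆
          range n0 ∪ (Icc 1 X).filter (fun n => Lb F 1 (fun i => ((W₀ * ((t i : ℕ) + 1) : ℕ) : ℤ)) n ∧
          ¬ ∃ I : Finset (Fin k), I.card = m + 1 ∧ (n : ℝ) ^ (1 / (e : ℝ)) / Real.log n ^ (E t) ≤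
            ((Rb C₁ (m + 1) Q F e 1 (fun i => ((W₀ * ((t i : ℕ) + 1) : ℕ) : ℤ)) I n).card : ℝ)) := by
        intro n hn
        rw [mem_filter] at hn
        obtain ⟨hn1, hn2⟩ := hn
        rw [mem_union, mem_range]
        by_cases hn3 : n < n0
        · exact Or.inl hn3
        · right
          have hn4 : n1 ≤ n := le_trans (le_max_left _ _) (by rw [← hn0]; omega)
          have hn5 : C + 1 ≤ n := le_trans (le_max_right _ _) (by rw [← hn0]; omega)
          rw [mem_filter]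
          refine ⟨hn1, ?_, ?_⟩
          · -- no local obstruction
            intro p hp
            obtain ⟨i₀⟩ : Nonempty (Fin k) := ⟨⟨0, by omega⟩⟩
            by_cases hpz : p ≤ z
            · have hpm : p ∈ pz z := mem_pz.2 ⟨hpz, hp⟩
              have hpW : (p : ℤ) ∣ (W₀ : ℤ) := by rw [hW₀]; exact_mod_cast dvd_Wp hpm
              obtain ⟨x, hx⟩ := (hn2 i₀).1 p hp
              refine ⟨x, fun i hd => hx ?_⟩
              have e1 : ((n + W₀ * ((t i₀ : ℕ) + 1) : ℕ) : ℤ) + F.eval x = (((1 : ℕ) : ℤ) * n + F.eval x + ((W₀ * ((t i : ℕ) + 1) : ℕ) : ℤ)) +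
                  (W₀ : ℤ) * ((((t i₀ : ℕ) : ℤ) + 1) - (((t i : ℕ) : ℤ) + 1)) := by push_cast; ring
              rw [e1]
              exact dvd_add hd (hpW.mul_right _)
            · obtain ⟨x, hx⟩ := exists_good F e hF.le (((1 : ℕ) : ℤ) * n) (fun _ => 0) (fun i => ((W₀ * ((t i : ℕ) + 1) : ℕ) : ℤ)) p hp
                (by rw [← hz]; omega) (by
                intro i
                obtain ⟨x, hx⟩ := (hn2 i).1 p hp
                refine ⟨x, fun hd => hx ?_⟩
                have e1 : ((n + W₀ * ((t i : ℕ) + 1) : ℕ) : ℤ) + F.eval x = ((1 : ℕ) : ℤ) * n + F.eval x + ((W₀ * ((t i : ℕ) + 1) : ℕ) : ℤ) := by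
                  push_cast; ring
                rw [e1]
                exact hd)
              exact ⟨x, fun i => (hx i).2⟩
          · rintro ⟨I, hI1, hI2⟩
            obtain ⟨i₀, hi₀⟩ := tuple_pattern C₁ m Q F e C (E t) E' he (hEE t) (fun i => W₀ * ((t i : ℕ) + 1)) (hbinj t ht) (by
              intro i
              refine le_trans (Nat.mul_le_mul_left _ ?_) hTC
              have := (t i).2
              omega) n (by omega) (by omega) (h1 n hn4) I hI1 hI2
            exact (hn2 i₀).2 hi₀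
      have h3 := (card_le_card hsub).trans (card_union_le _ _)
      rw [card_range] at h3
      have h4 : (((Icc 1 X).filter (fun n => ∀ i, NoFix F (n + W₀ * ((t i : ℕ) + 1)) ∧ ¬ PGd C₁ m Q F e C (E' + 1) (n + W₀ * ((t i : ℕ) + 1)))).card : ℝ) ≤
          n0 + (((Icc 1 X).filter (fun n => Lb F 1 (fun i => ((W₀ * ((t i : ℕ) + 1) : ℕ) : ℤ)) n ∧
          ¬ ∃ I : Finset (Fin k), I.card = m + 1 ∧ (n : ℝ) ^ (1 / (e : ℝ)) / Real.log n ^ (E t) ≤
            ((Rb C₁ (m + 1) Q F e 1 (fun i => ((W₀ * ((t i : ℕ) + 1) : ℕ) : ℤ)) I n).card : ℝ))).card : ℝ) := by exact_mod_cast h3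
      have h5 := hEX t ht X (hX1 t)
      refine le_trans (Nat.cast_le.2 (card_le_card (fun n hn => ?_))) (h4.trans (by linarith))
      exact (@mem_filter _ _ (_) _ _).2 ((@mem_filter _ _ (_) _ _).1 hn))
    refine le_trans (Nat.cast_le.2 (card_le_card (fun n hn => ?_))) (key.trans ?_)
    · exact (@mem_filter _ _ (_) _ _).2 ((@mem_filter _ _ (_) _ _).1 hn)
    rw [← hq]
    have hT0 : (0 : ℝ) < T := by exact_mod_cast hT1
    have hX0 : (0 : ℝ) ≤ X := Nat.cast_nonneg _
    have h15 : (k : ℝ) * X / T ≤ 2 * k * W₀ / C * X := by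
      have h16 : (C : ℝ) ≤ 2 * W₀ * T := by
        have : C ≤ 2 * (W₀ * T) := by
          have h17 : W₀ * 1 ≤ W₀ * T := Nat.mul_le_mul_left _ hT1
          have h18 : W₀ * (T + 1) = W₀ * T + W₀ := by ring
          omega
        have h19 : (C : ℝ) ≤ ((2 * (W₀ * T) : ℕ) : ℝ) := by exact_mod_cast this
        push_cast at h19
        linarith
      have e1 : 2 * (k : ℝ) * W₀ / C * X = (k * X) * ((2 * W₀) / C) := by ring
      have e2 : (k : ℝ) * X / T = (k * X) * (1 / T) := by ring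
      rw [e1, e2]
      apply mul_le_mul_of_nonneg_left _ (by positivity)
      rw [div_le_div_iff₀ hT0 (by linarith)]
      linarith
    have h20 : (W₀ : ℝ) * T + q * n0 ≤ X / C := by
      rw [le_div_iff₀ (by linarith)]
      have h21 : ((C * (C + q * n0) : ℕ) : ℝ) ≤ X := by exact_mod_cast hX2
      have h22 : (W₀ : ℝ) * T ≤ C := by exact_mod_cast hTC
      push_cast at h21
      nlinarith
    have h23 : (q : ℝ) * (ε * X) ≤ X / C := by
      rw [hε]
      have e1 : (q : ℝ) * (1 / (C * (q + 1)) * X) = (q / (q + 1)) * (X / C) := by field_simp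
      rw [e1]
      have h2 : (q : ℝ) / (q + 1) ≤ 1 := by rw [div_le_one (by positivity)]; linarith
      calc _ ≤ 1 * ((X : ℝ) / C) := mul_le_mul_of_nonneg_right h2 (by positivity)
        _ = _ := one_mul _
    have h24 : κ / C * X = 2 * k * W₀ / C * X + X / C + X / C + X / C := by
      rw [hκ]; ring
    have h25 : 0 ≤ (X : ℝ) / C := by positivity
    have h26 : (q : ℝ) * (n0 + ε * X) = q * n0 + q * (ε * X) := by ring
    rw [h24, h26]
    linarith

end Pool.Agent.L0h42.PP
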