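import Mathlib
import Pool.Agent.L0h42.PP.P10

/-! Patterns of primes for sums and differences of two primes, almost all even numbers, bounded patterns. -/

set_option autoImplicit false
set_option linter.unusedSectionVars false
set_option linter.unusedVariables false

namespace Pool.Agent.L0h42.PP
open Finset
open Pool.Agent.L0h42.TB
open Pool.Agent.L0h42.EG
open Pool.Agent.L0h42.CP
open Pool.Agent.H373R2.T7

/-- the primes `p` with `Q p ≤ n` for which `p + d` and `n + s (p + d)` are prime for `d = 0` and all `d ∈ D` -/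
def Pt (s : ℤ) (Q : ℕ) (D : Finset ℕ) (n : ℕ) : Finset ℕ :=
  (Icc 1 n).filter (fun p => Q * p ≤ n ∧ ∀ d ∈ insert 0 D, (p + d).Prime ∧ ((n : ℤ) + s * ((p + d : ℕ) : ℤ)).toNat.Prime)

/-- many primes begin the same bounded pattern -/
def PtE (s : ℤ) (Q m M C E n : ℕ) : Prop := ∃ D ⊆ Icc 1 C, D.card = m ∧ (∀ d ∈ D, M ∣ d) ∧ (n : ℝ) / Real.log n ^ E ≤ ((Pt s Q D n).card : ℝ)

open Classical in
/-- **bounded patterns, almost all even numbers.** -/
theorem pat (s : ℤ) (hs : s = 1 ∨ s = -1) (m M : ℕ) (hM : 1 ≤ M) : ∃ C : ℕ, ∀ Q : ℕ, 1 ≤ Q → ∀ ε : ℝ, 0 < ε → ∃ E N0 : ℕ, ∀ N : ℕ, N0 ≤ N →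
    (((Icc 1 N).filter (fun n : ℕ => Even n ∧
      ¬ PtE s Q m M C E n)).card : ℝ) ≤ ε * N := by
  obtain ⟨k, hk, hA⟩ := thm_A (m + 1) 1 (by omega) le_rfl
  obtain ⟨z, hz⟩ : ∃ z, z = k * (1 + 1) := ⟨_, rfl⟩
  obtain ⟨P, hP⟩ : ∃ P, P = M * Wp z := ⟨_, rfl⟩
  have hP1 : 1 ≤ P := by rw [hP]; exact Nat.mul_pos hM (Wp_pos z)
  have hMP : M ∣ P := by rw [hP]; exact dvd_mul_right _ _
  have hs0 : s ≠ 0 := by rcases hs with h | h <;> rw [h] <;> norm_num
  obtain ⟨a, ha⟩ : ∃ a : Fin k → ℕ, ∀ i, a i = i.val * P := ⟨fun i => i.val * P, fun _ => rfl⟩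
  have hainj : Function.Injective a := by
    intro i j hij
    rw [ha, ha] at hij
    exact Fin.ext (Nat.eq_of_mul_eq_mul_right (by omega) hij)
  have haC : ∀ i, a i ≤ k * P := fun i => by rw [ha]; exact Nat.mul_le_mul_right _ i.2.le
  obtain ⟨F, hF⟩ : ∃ F : Polynomial ℤ, F = Polynomial.C s * Polynomial.X := ⟨_, rfl⟩
  have hFd : F.natDegree = 1 := by rw [hF]; exact Polynomial.natDegree_C_mul_X s hs0
  have hFe : ∀ x : ℤ, F.eval x = s * x := by intro x; rw [hF]; simp
  refine ⟨k * P, fun Q hQ ε hε => ?_⟩
  obtain ⟨E, N0, h0⟩ := hA F hFd (2 * Q) 1 (by omega) le_rfl (fun i => (a i : ℤ)) (fun i => s * (a i : ℤ))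
    (fun i j hij => hainj (by
      have h1 : (a i : ℤ) = (a j : ℤ) := hij
      exact_mod_cast h1))
    (fun i j hij => hainj (by
      have h1 : s * (a i : ℤ) = s * (a j : ℤ) := hij
      exact_mod_cast mul_left_cancel₀ hs0 h1)) (ε / 2) (by linarith)
  obtain ⟨n0, hn0⟩ : ∃ n0, n0 = 2 * Q * (k * P) + 1 := ⟨_, rfl⟩
  refine ⟨E, max N0 ⌈2 * n0 / ε⌉₊, fun N hN => ?_⟩
  have hNn : 2 * (n0 : ℝ) / ε ≤ N := (Nat.le_ceil _).trans (by exact_mod_cast le_trans (le_max_right _ _) hN)
  have key := h0 N (le_trans (le_max_left _ _) hN)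
  have hsub : (Icc 1 N).filter (fun n : ℕ => Even n ∧
      ¬ PtE s Q m M (k * P) E n) ⊆
      range n0 ∪ (Icc 1 N).filter (fun n : ℕ => Lp F 1 (fun i => (a i : ℤ)) (fun i => s * (a i : ℤ)) n ∧
      ¬ ∃ I : Finset (Fin k), I.card = m + 1 ∧ (n : ℝ) ^ (1 / ((1 : ℕ) : ℝ)) / Real.log n ^ E ≤
        ((Rp (2 * Q) F 1 1 (fun i => (a i : ℤ)) (fun i => s * (a i : ℤ)) I n).card : ℝ)) := by
    intro n hn
    rw [mem_filter] at hn
    obtain ⟨hn1, hn2, hn3⟩ := hn
    rw [mem_union, mem_range]
    by_cases hn4 : n < n0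
    · exact Or.inl hn4
    · right
      rw [mem_filter]
      refine ⟨hn1, ?_, ?_⟩
      · -- no local obstruction
        intro p hp
        by_cases hpz : p ≤ z
        · have hpm : p ∈ pz z := mem_pz.2 ⟨hpz, hp⟩
          have hpP : (p : ℤ) ∣ (P : ℤ) := by rw [hP]; exact_mod_cast (dvd_Wp hpm).mul_left M
          have hpa : ∀ i, (p : ℤ) ∣ (a i : ℤ) := fun i => by rw [ha]; push_cast; exact hpP.mul_left _
          -- a good residue
          obtain ⟨x, hx1, hx2⟩ : ∃ x : ℤ, ¬ (p : ℤ) ∣ x ∧ ¬ (p : ℤ) ∣ (n : ℤ) + s * x := by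
            by_cases hp2 : p = 2
            · refine ⟨1, ?_, ?_⟩
              · rw [hp2]; norm_num
              · rw [hp2]
                obtain ⟨r, hr⟩ := hn2
                rcases hs with h | h <;> rw [h, hr] <;> push_cast <;> omega
            · have hp3 : 3 ≤ p := by
                have := hp.two_le
                omega
              have h1 : ¬ (p : ℤ) ∣ 1 := by
                intro h
                have := Int.le_of_dvd (by norm_num) h
                omega
              have h2 : ¬ (p : ℤ) ∣ 2 := by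
                intro h
                have := Int.le_of_dvd (by norm_num) h
                omega
              by_cases h3 : (p : ℤ) ∣ (n : ℤ) + s * 1
              · refine ⟨2, h2, fun h4 => h1 ?_⟩
                have h5 := dvd_sub h4 h3
                have e1 : (n : ℤ) + s * 2 - ((n : ℤ) + s * 1) = s := by ring
                rw [e1] at h5
                rcases hs with h | h
                · rwa [h] at h5
                · rw [h] at h5
                  exact (dvd_neg.1 h5)
              · exact ⟨1, h1, h3⟩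
          refine ⟨x, fun i => ⟨fun hd => hx1 ?_, fun hd => hx2 ?_⟩⟩
          · exact (dvd_add_left (hpa i)).1 hd
          · rw [hFe] at hd
            have e1 : ((1 : ℕ) : ℤ) * n + s * x + s * (a i : ℤ) = (n + s * x) + s * a i := by push_cast; ring
            rw [e1] at hd
            exact (dvd_add_left ((hpa i).mul_left s)).1 hd
        · refine exists_good F 1 hFd.le (((1 : ℕ) : ℤ) * n) (fun i => (a i : ℤ)) (fun i => s * (a i : ℤ)) p hp (by rw [← hz]; omega) (fun i => ?_)
          -- the form is not constant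
          refine ⟨s * (1 - n) - a i, fun hd => ?_⟩
          rw [hFe] at hd
          have hss : s * s = 1 := by rcases hs with h | h <;> rw [h] <;> norm_num
          have e1 : ((1 : ℕ) : ℤ) * n + s * (s * (1 - n) - a i) + s * (a i : ℤ) = 1 := by
            have : ((1 : ℕ) : ℤ) * n + s * (s * (1 - n) - a i) + s * (a i : ℤ) = n + (s * s) * (1 - n) := by push_cast; ring
            rw [this, hss]
            ring
          rw [e1] at hd
          exact hp.one_lt.ne' (Nat.dvd_one.1 (by exact_mod_cast hd))
      · rintro ⟨I, hI1, hI2⟩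
        apply hn3
        have hIne : I.Nonempty := card_pos.1 (by omega)
        obtain ⟨i₀, hi1, hi2⟩ := exists_min_image I a hIne
        refine ⟨(I.erase i₀).image (fun j => a j - a i₀), ?_, ?_, ?_, ?_⟩
        · intro d hd
          rw [mem_image] at hd
          obtain ⟨j, hj, rfl⟩ := hd
          rw [mem_erase] at hj
          have h1 := hi2 j hj.2
          have h2 : a i₀ ≠ a j := fun h => hj.1 (hainj h).symm
          have h3 := haC j
          rw [mem_Icc]
          omega
        · rw [card_image_of_injOn, card_erase_of_mem hi1, hI1]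
          · omega
          · intro j hj j' hj' hjj
            rw [mem_coe, mem_erase] at hj hj'
            have h1 := hi2 j hj.2
            have h2 := hi2 j' hj'.2
            simp only at hjj
            exact hainj (by omega)
        · intro d hd
          rw [mem_image] at hd
          obtain ⟨j, hj, rfl⟩ := hd
          have hMa : ∀ i, M ∣ a i := fun i => by rw [ha]; exact hMP.mul_left _
          exact Nat.dvd_sub (hMa j) (hMa i₀)
        · have e0 : (n : ℝ) ^ (1 / ((1 : ℕ) : ℝ)) = n := by norm_num
          rw [e0] at hI2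
          refine hI2.trans (Nat.cast_le.2 ?_)
          apply card_le_card_of_injOn (fun x => x + a i₀)
          · intro x hx
            rw [mem_coe] at hx
            unfold Rp at hx
            rw [mem_filter, mem_Icc, pow_one] at hx
            obtain ⟨⟨h1, h2⟩, h3, h4⟩ := hx
            rw [mem_coe]
            show x + a i₀ ∈ _
            unfold Pt
            have h5 := haC i₀
            have hQx : Q * (x + a i₀) ≤ n := by
              have h6 : Q * a i₀ ≤ Q * (k * P) := Nat.mul_le_mul_left _ h5
              have e1 : Q * (x + a i₀) = Q * x + Q * a i₀ := by ring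
              have e2 : 2 * Q * x = 2 * (Q * x) := by ring
              have e3 : 2 * Q * (k * P) = 2 * (Q * (k * P)) := by ring
              omega
            have hxn : x + a i₀ ≤ n := le_trans (Nat.le_mul_of_pos_left _ (by omega)) hQx
            rw [mem_filter, mem_Icc]
            refine ⟨⟨by omega, hxn⟩, hQx, fun d hd => ?_⟩
            have hex : ∃ j ∈ I, x + a i₀ + d = x + a j := by
              rw [mem_insert, mem_image] at hd
              rcases hd with rfl | ⟨j, hj, rfl⟩
              · exact ⟨i₀, hi1, by omega⟩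
              · rw [mem_erase] at hj
                have := hi2 j hj.2
                exact ⟨j, hj.2, by omega⟩
            obtain ⟨j, hj, hje⟩ := hex
            rw [hje]
            obtain ⟨h7, h8⟩ := h4 j hj
            constructor
            · have e2 : ((x : ℤ) + (a j : ℤ)) = ((x + a j : ℕ) : ℤ) := by push_cast; ring
              rw [e2, Int.toNat_natCast] at h7
              exact h7
            · rw [hFe] at h8
              have e3 : ((1 : ℕ) : ℤ) * n + s * (x : ℤ) + s * (a j : ℤ) = (n : ℤ) + s * ((x + a j : ℕ) : ℤ) := by push_cast; ring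
              rw [e3] at h8
              exact h8
          · intro x _ x' _ h
            simpa using h
  have h3 := (card_le_card hsub).trans (card_union_le _ _)
  rw [card_range] at h3
  have h4 : (((Icc 1 N).filter (fun n : ℕ => Even n ∧
      ¬ PtE s Q m M (k * P) E n)).card : ℝ) ≤
      n0 + (((Icc 1 N).filter (fun n : ℕ => Lp F 1 (fun i => (a i : ℤ)) (fun i => s * (a i : ℤ)) n ∧
      ¬ ∃ I : Finset (Fin k), I.card = m + 1 ∧ (n : ℝ) ^ (1 / ((1 : ℕ) : ℝ)) / Real.log n ^ E ≤
        ((Rp (2 * Q) F 1 1 (fun i => (a i : ℤ)) (fun i => s * (a i : ℤ)) I n).card : ℝ))).card : ℝ) := by exact_mod_cast h3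
  refine h4.trans ?_
  rw [div_le_iff₀ hε] at hNn
  linarith

end Pool.Agent.L0h42.PP
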