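import Pool.Agent.L0h42.PP.Stm
import Pool.Agent.L0h42.PP.PCa

/-! Module PC of the project PP. -/

set_option autoImplicit false

namespace Pool.Agent.L0h42.PP

theorem pc : S_PC := fun f hd => ⟨f.leadingCoeff.natAbs, fun P hP hpr r x => pc_count f hd r P hP hpr x⟩

end Pool.Agent.L0h42.PP
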